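import Pool.Agent.LibEinU.CL_PF

/-!
TASK CL_Clt. The martingale estimate, for every configuration.

Fix `θ, B` and the scale `n`; `Φ (y, v) = exp(θ² v/(2n)) cos(θ y/√n)`. If `Zw = 0`, `PF Φ = Φ`. Otherwise
`PF Φ (y,v) = exp(θ² v/(2n)) exp(u) (cos(θy/√n) C0 - sin(θy/√n) S0)`, `u = θ² G/(2n)`,
`C0 = ∑ p cos(b_δ)`, `S0 = ∑ p sin(b_δ)`, `b_δ = θ F1/√n`, `|b_δ| ≤ |θ| B/√n`. `|C0 - (1 - u)| ≤ ∑ p b⁴ ≤
(θB)⁴/n²` (`|cos b - 1 + b²/2| ≤ b⁴`; for large `|b|` use the trivial bound `≤ 2 + b²/2 ≤ ...`, or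
`Real.cos_bound`, `Real.one_sub_sq_div_two_le_cos` and `Real.cos_le_one_sub_mul_cos_sq`... any constant is
fine), `|S0| ≤ ∑ p |sin b - b| ≤ |θB|³/n^{3/2}` as `∑ p b = 0` (`Real.sin_bound`/`|sin b - b| ≤ |b|³`), and
`|exp(u)(1-u) - 1| ≤ u² exp(u)`-like. So `|PF Φ - Φ| ≤ C1 n^{-3/2} exp(θ² v/(2n))`, and by induction on `j`
`|PFn j Φ x (y, v) - Φ(y,v)| ≤ j C1 n^{-3/2} exp(θ² (v + j B²)/(2n))` (all `j ≤ n`, `0 ≤ G ≤ B²`). Take
`j = n`, `y = v = 0`. The same with `sin` in place of `cos`.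
-/

open MeasureTheory ProbabilityTheory Filter Topology

namespace Ein99.CL

variable {d : ℕ}

private theorem CL_Clt_sin (b : ℝ) : |Real.sin b - b| ≤ 2 * |b| ^ 3 := by
  rcases le_total |b| 1 with h | h
  · have h1 := Real.sin_bound h
    have h2 : |b| ^ 4 ≤ |b| ^ 3 := pow_le_pow_of_le_one (abs_nonneg b) h (by norm_num)
    have h2' : |b| ^ 5 ≤ |b| ^ 3 := pow_le_pow_of_le_one (abs_nonneg b) h (by norm_num)
    have h3 : |b ^ 3| = |b| ^ 3 := abs_pow b 3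
    have h4 := abs_nonneg b
    have h5 : Real.sin b - b = (Real.sin b - (b - b ^ 3 / 6)) - b ^ 3 / 6 := by ring
    rw [h5]
    refine (abs_sub _ _).trans ?_
    rw [abs_div, h3, abs_of_pos (by norm_num : (0 : ℝ) < 6)]
    have h6 : 0 ≤ |b| ^ 3 := by positivity
    linarith
  · have h1 := Real.abs_sin_le_one b
    have h2 : |b| ≤ |b| ^ 3 := by
      calc |b| = |b| ^ 1 := (pow_one _).symm
        _ ≤ |b| ^ 3 := pow_le_pow_right₀ h (by norm_num)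
    refine (abs_sub _ _).trans ?_
    linarith

private theorem CL_Clt_cos (b : ℝ) : |Real.cos b - (1 - b ^ 2 / 2)| ≤ 3 * |b| ^ 3 := by
  rcases le_total |b| 1 with h | h
  · have h1 := Real.cos_bound h
    have h2 : |b| ^ 4 ≤ |b| ^ 3 := pow_le_pow_of_le_one (abs_nonneg b) h (by norm_num)
    have h6 : 0 ≤ |b| ^ 3 := by positivity
    linarith
  · have h1 := Real.abs_cos_le_one b
    have h2 : 1 ≤ |b| ^ 3 := one_le_pow₀ h
    have h3 : |b| ^ 2 ≤ |b| ^ 3 := pow_le_pow_right₀ h (by norm_num)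
    have h4 : b ^ 2 = |b| ^ 2 := (sq_abs b).symm
    rw [abs_le]
    have h5 := abs_le.1 h1
    have h7 : 0 ≤ |b| ^ 2 := by positivity
    constructor
    · rw [h4]; linarith [h5.1]
    · rw [h4]; linarith [h5.2]

private theorem CL_Clt_exp {u : ℝ} (hu : 0 ≤ u) : |Real.exp u * (1 - u) - 1| ≤ u ^ 2 * Real.exp u := by
  have h1 : Real.exp u * (1 - u) ≤ 1 := by
    have h2 : 1 - u ≤ Real.exp (-u) := by
      have := Real.add_one_le_exp (-u)
      linarith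
    calc Real.exp u * (1 - u) ≤ Real.exp u * Real.exp (-u) :=
          mul_le_mul_of_nonneg_left h2 (Real.exp_pos u).le
      _ = 1 := by rw [← Real.exp_add]; simp
  have h3 : 1 ≤ Real.exp u * (1 - u + u ^ 2) := by
    have h4 : 0 ≤ 1 - u + u ^ 2 := by nlinarith [sq_nonneg (u - 1 / 2)]
    have h5 : (u + 1) * (1 - u + u ^ 2) ≤ Real.exp u * (1 - u + u ^ 2) :=
      mul_le_mul_of_nonneg_right (Real.add_one_le_exp u) h4
    have h6 : 0 ≤ u ^ 3 := by positivity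
    nlinarith
  rw [abs_le]
  constructor
  · nlinarith
  · have : 0 ≤ u ^ 2 * Real.exp u := by positivity
    linarith

/-- the scalar estimate of one step -/
private theorem CL_Clt_step1 {ι : Type*} [Fintype ι] (w b : ι → ℝ) (hw : ∀ i, 0 ≤ w i)
    (hw1 : ∑ i, w i = 1) (K u : ℝ) (hK : 0 ≤ K) (hb : ∀ i, |b i| ≤ K) (hb0 : ∑ i, w i * b i = 0)
    (hu : ∑ i, w i * b i ^ 2 = 2 * u) (α β : ℝ) (hα : |α| ≤ 1) (hβ : |β| ≤ 1) :
    |Real.exp u * ∑ i, w i * (α * Real.cos (b i) + β * Real.sin (b i)) - α| ≤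
      (5 * K ^ 3 + K ^ 4) * Real.exp u := by
  have hu0 : 0 ≤ u := by
    have : 0 ≤ ∑ i, w i * b i ^ 2 := Finset.sum_nonneg (fun i _ => mul_nonneg (hw i) (sq_nonneg _))
    linarith
  have hbK : ∀ i, |b i| ^ 3 ≤ K ^ 3 := fun i => pow_le_pow_left₀ (abs_nonneg _) (hb i) 3
  have huK : u ≤ K ^ 2 := by
    have h1 : ∑ i, w i * b i ^ 2 ≤ ∑ i, w i * K ^ 2 := by
      refine Finset.sum_le_sum (fun i _ => mul_le_mul_of_nonneg_left ?_ (hw i))
      rw [← sq_abs]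
      exact pow_le_pow_left₀ (abs_nonneg _) (hb i) 2
    rw [← Finset.sum_mul, hw1, one_mul] at h1
    have : 0 ≤ K ^ 2 := by positivity
    linarith
  -- cosine sum
  have hC : |∑ i, w i * Real.cos (b i) - (1 - u)| ≤ 3 * K ^ 3 := by
    have h1 : ∑ i, w i * Real.cos (b i) - (1 - u) =
        ∑ i, w i * (Real.cos (b i) - (1 - b i ^ 2 / 2)) := by
      have h2 : ∑ i, w i * (Real.cos (b i) - (1 - b i ^ 2 / 2)) =
          ∑ i, (w i * Real.cos (b i) - w i + (w i * b i ^ 2) / 2) :=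
        Finset.sum_congr rfl (fun i _ => by ring)
      rw [h2, Finset.sum_add_distrib, Finset.sum_sub_distrib, hw1, ← Finset.sum_div, hu]
      ring
    rw [h1]
    refine (Finset.abs_sum_le_sum_abs _ _).trans ?_
    have h3 : ∀ i ∈ Finset.univ, |w i * (Real.cos (b i) - (1 - b i ^ 2 / 2))| ≤ w i * (3 * K ^ 3) := by
      intro i _
      rw [abs_mul, abs_of_nonneg (hw i)]
      exact mul_le_mul_of_nonneg_left ((CL_Clt_cos (b i)).trans
        (mul_le_mul_of_nonneg_left (hbK i) (by norm_num))) (hw i)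
    refine (Finset.sum_le_sum h3).trans ?_
    rw [← Finset.sum_mul, hw1, one_mul]
  have hS : |∑ i, w i * Real.sin (b i)| ≤ 2 * K ^ 3 := by
    have h1 : ∑ i, w i * Real.sin (b i) = ∑ i, w i * (Real.sin (b i) - b i) := by
      have h2 : ∑ i, w i * (Real.sin (b i) - b i) = ∑ i, (w i * Real.sin (b i) - w i * b i) :=
        Finset.sum_congr rfl (fun i _ => by ring)
      rw [h2, Finset.sum_sub_distrib, hb0, sub_zero]
    rw [h1]
    refine (Finset.abs_sum_le_sum_abs _ _).trans ?_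
    have h3 : ∀ i ∈ Finset.univ, |w i * (Real.sin (b i) - b i)| ≤ w i * (2 * K ^ 3) := by
      intro i _
      rw [abs_mul, abs_of_nonneg (hw i)]
      exact mul_le_mul_of_nonneg_left ((CL_Clt_sin (b i)).trans
        (mul_le_mul_of_nonneg_left (hbK i) (by norm_num))) (hw i)
    refine (Finset.sum_le_sum h3).trans ?_
    rw [← Finset.sum_mul, hw1, one_mul]
  have hsum : ∑ i, w i * (α * Real.cos (b i) + β * Real.sin (b i)) =
      α * (∑ i, w i * Real.cos (b i)) + β * (∑ i, w i * Real.sin (b i)) := by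
    rw [Finset.mul_sum, Finset.mul_sum, ← Finset.sum_add_distrib]
    exact Finset.sum_congr rfl (fun i _ => by ring)
  rw [hsum]
  set C0 := ∑ i, w i * Real.cos (b i)
  set S0 := ∑ i, w i * Real.sin (b i)
  have hdec : Real.exp u * (α * C0 + β * S0) - α =
      α * (Real.exp u * (C0 - (1 - u))) + α * (Real.exp u * (1 - u) - 1) + β * (Real.exp u * S0) := by
    ring
  rw [hdec]
  have he := Real.exp_pos u
  have t1 : |α * (Real.exp u * (C0 - (1 - u)))| ≤ 3 * K ^ 3 * Real.exp u := by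
    rw [abs_mul, abs_mul, abs_of_pos he]
    calc |α| * (Real.exp u * |C0 - (1 - u)|) ≤ 1 * (Real.exp u * (3 * K ^ 3)) :=
          mul_le_mul hα (mul_le_mul_of_nonneg_left hC he.le) (by positivity) (by norm_num)
      _ = 3 * K ^ 3 * Real.exp u := by ring
  have t2 : |α * (Real.exp u * (1 - u) - 1)| ≤ K ^ 4 * Real.exp u := by
    rw [abs_mul]
    have h1 : u ^ 2 ≤ K ^ 4 := by
      calc u ^ 2 ≤ (K ^ 2) ^ 2 := pow_le_pow_left₀ hu0 huK 2
        _ = K ^ 4 := by ring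
    calc |α| * |Real.exp u * (1 - u) - 1| ≤ 1 * (u ^ 2 * Real.exp u) :=
          mul_le_mul hα (CL_Clt_exp hu0) (abs_nonneg _) (by norm_num)
      _ ≤ K ^ 4 * Real.exp u := by
          rw [one_mul]
          exact mul_le_mul_of_nonneg_right h1 he.le
  have t3 : |β * (Real.exp u * S0)| ≤ 2 * K ^ 3 * Real.exp u := by
    rw [abs_mul, abs_mul, abs_of_pos he]
    calc |β| * (Real.exp u * |S0|) ≤ 1 * (Real.exp u * (2 * K ^ 3)) :=
          mul_le_mul hβ (mul_le_mul_of_nonneg_left hS he.le) (by positivity) (by norm_num)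
      _ = 2 * K ^ 3 * Real.exp u := by ring
  refine (abs_add_le _ _).trans ?_
  refine (add_le_add_left (abs_add_le _ _) _).trans ?_
  linarith

/-- one step of the walk -/
private theorem CL_Clt_step (θ B : ℝ) (hB : 1 ≤ B) (ω : Om d)
    (F1 : V d → Dir d → ℝ) (G : V d → ℝ) (hF : ∀ x δ, |F1 x δ| ≤ B)
    (h0 : ∀ x, ∑ δ, wt 0 0 ω x δ * F1 x δ = 0)
    (hG : ∀ x, G x = (∑ δ, wt 0 0 ω x δ * F1 x δ ^ 2) / Zw 0 0 ω x)
    (ψ ψ' : ℝ → ℝ) (hψ : ∀ a b, ψ (a + b) = ψ a * Real.cos b + ψ' a * Real.sin b)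
    (h1 : ∀ a, |ψ a| ≤ 1) (h1' : ∀ a, |ψ' a| ≤ 1) (n : ℕ) (hn : 1 ≤ n) (x : V d) (y : ℝ × ℝ) :
    |PF ω (fun x δ => (F1 x δ, G x))
        (fun _ y => Real.exp (θ ^ 2 * y.2 / (2 * n)) * ψ (θ * y.1 / Real.sqrt n)) x y -
      Real.exp (θ ^ 2 * y.2 / (2 * n)) * ψ (θ * y.1 / Real.sqrt n)| ≤
      ((5 * (|θ| * B / Real.sqrt n) ^ 3 + (|θ| * B / Real.sqrt n) ^ 4) *
        Real.exp (θ ^ 2 * B ^ 2 / 2)) * Real.exp (θ ^ 2 * y.2 / (2 * n)) := by
  have hn0 : (0 : ℝ) < n := by exact_mod_cast hn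
  have hn1 : (1 : ℝ) ≤ n := by exact_mod_cast hn
  have hsq : 0 < Real.sqrt n := Real.sqrt_pos.2 hn0
  have hsq2 : Real.sqrt n ^ 2 = n := Real.sq_sqrt hn0.le
  have hB0 : 0 ≤ B := by linarith
  have hK : 0 ≤ |θ| * B / Real.sqrt n := by positivity
  unfold PF
  split_ifs with hZ
  · rw [sub_self, abs_zero]
    positivity
  · have hwn : ∀ δ, 0 ≤ wt 0 0 ω x δ := fun δ => wt_nonneg 0 0 ω x δ
    have hZp : 0 < Zw 0 0 ω x := lt_of_le_of_ne (Zw_nonneg 0 0 ω x) (Ne.symm hZ)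
    have hZs : ∑ δ, wt 0 0 ω x δ = Zw 0 0 ω x := rfl
    set w : Dir d → ℝ := fun δ => wt 0 0 ω x δ / Zw 0 0 ω x with hw
    set b : Dir d → ℝ := fun δ => θ * F1 x δ / Real.sqrt n with hb
    set u : ℝ := θ ^ 2 * G x / (2 * n) with hu
    have e1 : ∑ δ, w δ = 1 := by
      rw [hw]
      simp only
      rw [← Finset.sum_div, hZs, div_self hZ]
    have e2 : ∀ δ, |b δ| ≤ |θ| * B / Real.sqrt n := by
      intro δ
      rw [hb]
      simp only
      rw [abs_div, abs_mul, abs_of_pos hsq]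
      exact div_le_div_of_nonneg_right (mul_le_mul_of_nonneg_left (hF x δ) (abs_nonneg θ)) hsq.le
    have e3 : ∑ δ, w δ * b δ = 0 := by
      have h2 : ∀ δ, w δ * b δ = (θ / (Zw 0 0 ω x * Real.sqrt n)) * (wt 0 0 ω x δ * F1 x δ) := by
        intro δ
        rw [hw, hb]
        simp only
        field_simp
      rw [Finset.sum_congr rfl (fun δ _ => h2 δ), ← Finset.mul_sum, h0 x, mul_zero]
    have e4 : ∑ δ, w δ * b δ ^ 2 = 2 * u := by
      have h2 : ∀ δ, w δ * b δ ^ 2 = (θ ^ 2 / (Zw 0 0 ω x * n)) * (wt 0 0 ω x δ * F1 x δ ^ 2) := by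
        intro δ
        rw [hw, hb]
        simp only
        rw [div_pow, hsq2]
        field_simp
      rw [Finset.sum_congr rfl (fun δ _ => h2 δ), ← Finset.mul_sum, hu, hG x]
      field_simp
    have hGle : G x ≤ B ^ 2 := by
      rw [hG x, div_le_iff₀ hZp]
      have : ∑ δ, wt 0 0 ω x δ * F1 x δ ^ 2 ≤ ∑ δ, wt 0 0 ω x δ * B ^ 2 := by
        refine Finset.sum_le_sum (fun δ _ => mul_le_mul_of_nonneg_left ?_ (hwn δ))
        rw [← sq_abs]
        exact pow_le_pow_left₀ (abs_nonneg _) (hF x δ) 2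
      rw [← Finset.sum_mul, hZs] at this
      linarith
    have hule : u ≤ θ ^ 2 * B ^ 2 / 2 := by
      rw [hu]
      have h2 : θ ^ 2 * G x ≤ θ ^ 2 * B ^ 2 := mul_le_mul_of_nonneg_left hGle (sq_nonneg θ)
      calc θ ^ 2 * G x / (2 * n) ≤ θ ^ 2 * B ^ 2 / (2 * n) :=
            div_le_div_of_nonneg_right h2 (by positivity)
        _ ≤ θ ^ 2 * B ^ 2 / 2 := by
            apply div_le_div_of_nonneg_left (by positivity) (by norm_num)
            linarith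
    have hsplit : (∑ δ, wt 0 0 ω x δ * (Real.exp (θ ^ 2 * (y + (F1 x δ, G x)).2 / (2 * n)) *
        ψ (θ * (y + (F1 x δ, G x)).1 / Real.sqrt n))) / Zw 0 0 ω x =
        Real.exp (θ ^ 2 * y.2 / (2 * n)) * (Real.exp u * ∑ δ, w δ *
          (ψ (θ * y.1 / Real.sqrt n) * Real.cos (b δ) + ψ' (θ * y.1 / Real.sqrt n) * Real.sin (b δ))) := by
      rw [Finset.sum_div, Finset.mul_sum, Finset.mul_sum]
      refine Finset.sum_congr rfl (fun δ _ => ?_)
      rw [← hψ]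
      have h2 : θ ^ 2 * (y + (F1 x δ, G x)).2 / (2 * n) = θ ^ 2 * y.2 / (2 * n) + u := by
        rw [hu, Prod.snd_add]
        ring
      have h3 : θ * (y + (F1 x δ, G x)).1 / Real.sqrt n = θ * y.1 / Real.sqrt n + b δ := by
        rw [hb, Prod.fst_add]
        ring
      rw [h2, h3, Real.exp_add, hw]
      simp only
      ring
    rw [hsplit]
    have hmain := CL_Clt_step1 w b (fun δ => div_nonneg (hwn δ) hZp.le) e1 _ u hK e2 e3 e4
      (ψ (θ * y.1 / Real.sqrt n)) (ψ' (θ * y.1 / Real.sqrt n)) (h1 _) (h1' _)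
    rw [← mul_sub, abs_mul, abs_of_pos (Real.exp_pos _), mul_comm]
    refine mul_le_mul_of_nonneg_right (hmain.trans ?_) (Real.exp_pos _).le
    exact mul_le_mul_of_nonneg_left (Real.exp_le_exp.2 hule) (by positivity)

private theorem CL_Clt_gen (θ B : ℝ) (hB : 1 ≤ B) (ω : Om d)
    (F1 : V d → Dir d → ℝ) (G : V d → ℝ) (hF : ∀ x δ, |F1 x δ| ≤ B)
    (h0 : ∀ x, ∑ δ, wt 0 0 ω x δ * F1 x δ = 0)
    (hG : ∀ x, G x = (∑ δ, wt 0 0 ω x δ * F1 x δ ^ 2) / Zw 0 0 ω x)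
    (ψ ψ' : ℝ → ℝ) (hψ : ∀ a b, ψ (a + b) = ψ a * Real.cos b + ψ' a * Real.sin b)
    (h1 : ∀ a, |ψ a| ≤ 1) (h1' : ∀ a, |ψ' a| ≤ 1) (n : ℕ) (hn : 1 ≤ n) (x : V d) :
    |PFn ω (fun x δ => (F1 x δ, G x)) n
        (fun _ y => Real.exp (θ ^ 2 * y.2 / (2 * n)) * ψ (θ * y.1 / Real.sqrt n)) x
        ((0, 0) : ℝ × ℝ) - ψ 0| ≤
      ((5 * (|θ| * B) ^ 3 + (|θ| * B) ^ 4) * Real.exp (θ ^ 2 * B ^ 2)) / Real.sqrt n := by
  have hn0 : (0 : ℝ) < n := by exact_mod_cast hn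
  have hn1 : (1 : ℝ) ≤ n := by exact_mod_cast hn
  have hsq : 0 < Real.sqrt n := Real.sqrt_pos.2 hn0
  have hsq1 : 1 ≤ Real.sqrt n := Real.one_le_sqrt.2 hn1
  have hsq2 : Real.sqrt n ^ 2 = n := Real.sq_sqrt hn0.le
  have hB0 : 0 ≤ B := by linarith
  set F : V d → Dir d → ℝ × ℝ := fun x δ => (F1 x δ, G x) with hFdef
  set Φ : V d → ℝ × ℝ → ℝ :=
    fun _ y => Real.exp (θ ^ 2 * y.2 / (2 * n)) * ψ (θ * y.1 / Real.sqrt n) with hΦ
  set g : V d → ℝ × ℝ → ℝ := fun _ y => Real.exp (θ ^ 2 * y.2 / (2 * n)) with hg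
  set ε : ℝ := (5 * (|θ| * B / Real.sqrt n) ^ 3 + (|θ| * B / Real.sqrt n) ^ 4) *
        Real.exp (θ ^ 2 * B ^ 2 / 2) with hε
  have hε0 : 0 ≤ ε := by rw [hε]; positivity
  have hstep : ∀ x y, |PF ω F Φ x y - Φ x y| ≤ ε * g x y := fun x y =>
    CL_Clt_step θ B hB ω F1 G hF h0 hG ψ ψ' hψ h1 h1' n hn x y
  have hind : ∀ j : ℕ, ∀ x y, |PFn ω F j Φ x y - Φ x y| ≤
      ∑ i ∈ Finset.range j, ε * PFn ω F i g x y := by
    intro j
    induction j with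
    | zero =>
      intro x y
      rw [PFn_zero, sub_self, abs_zero, Finset.range_zero, Finset.sum_empty]
    | succ j ih =>
      intro x y
      rw [Finset.sum_range_succ, PFn_succ']
      have e1 : PFn ω F j (PF ω F Φ) x y =
          PFn ω F j (fun x y => (PF ω F Φ x y - Φ x y)) x y + PFn ω F j Φ x y := by
        rw [← PFn_add]
        congr 1
        funext x y
        ring
      have e2 : |PFn ω F j (fun x y => (PF ω F Φ x y - Φ x y)) x y| ≤ ε * PFn ω F j g x y := by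
        rw [← PFn_smul]
        refine (PFn_abs_le ω F j _ x y).trans ?_
        exact PFn_mono ω F j (fun x y => hstep x y) x y
      rw [e1]
      have e3 : PFn ω F j (fun x y => (PF ω F Φ x y - Φ x y)) x y + PFn ω F j Φ x y - Φ x y =
          (PFn ω F j Φ x y - Φ x y) + PFn ω F j (fun x y => (PF ω F Φ x y - Φ x y)) x y := by ring
      rw [e3]
      exact (abs_add_le _ _).trans (add_le_add (ih x y) e2)
  have hGle : ∀ x, G x ≤ B ^ 2 := by
    intro x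
    have hwn : ∀ δ, 0 ≤ wt 0 0 ω x δ := fun δ => wt_nonneg 0 0 ω x δ
    by_cases hZ : Zw 0 0 ω x = 0
    · rw [hG x, hZ, div_zero]; positivity
    · have hZp : 0 < Zw 0 0 ω x := lt_of_le_of_ne (Zw_nonneg 0 0 ω x) (Ne.symm hZ)
      have hZs : ∑ δ, wt 0 0 ω x δ = Zw 0 0 ω x := rfl
      rw [hG x, div_le_iff₀ hZp]
      have : ∑ δ, wt 0 0 ω x δ * F1 x δ ^ 2 ≤ ∑ δ, wt 0 0 ω x δ * B ^ 2 := by
        refine Finset.sum_le_sum (fun δ _ => mul_le_mul_of_nonneg_left ?_ (hwn δ))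
        rw [← sq_abs]
        exact pow_le_pow_left₀ (abs_nonneg _) (hF x δ) 2
      rw [← Finset.sum_mul, hZs] at this
      linarith
  have hgle : ∀ i ∈ Finset.range n, ε * PFn ω F i g x ((0, 0) : ℝ × ℝ) ≤
      ε * Real.exp (θ ^ 2 * B ^ 2 / 2) := by
    intro i hi
    refine mul_le_mul_of_nonneg_left ?_ hε0
    refine PFn_le_of_inv ω F i g (fun j _ y => y.2 ≤ (j : ℝ) * B ^ 2) ?_ ?_ _ ?_ x _ ?_
    · intro j x δ y hy _
      have := hGle x
      show y.2 + G x ≤ ((j + 1 : ℕ) : ℝ) * B ^ 2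
      push_cast
      have hy' : y.2 ≤ (j : ℝ) * B ^ 2 := hy
      linarith
    · intro j x y hy
      have hy' : y.2 ≤ (j : ℝ) * B ^ 2 := hy
      show y.2 ≤ ((j + 1 : ℕ) : ℝ) * B ^ 2
      push_cast
      have : 0 ≤ B ^ 2 := by positivity
      linarith
    · intro x y hy
      have hy' : y.2 ≤ (i : ℝ) * B ^ 2 := hy
      show Real.exp (θ ^ 2 * y.2 / (2 * n)) ≤ _
      refine Real.exp_le_exp.2 ?_
      have hin : (i : ℝ) ≤ n := by exact_mod_cast (Finset.mem_range.1 hi).le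
      have h2 : y.2 ≤ (n : ℝ) * B ^ 2 := hy'.trans (mul_le_mul_of_nonneg_right hin (by positivity))
      have h3 : θ ^ 2 * y.2 ≤ θ ^ 2 * ((n : ℝ) * B ^ 2) := mul_le_mul_of_nonneg_left h2 (sq_nonneg θ)
      calc θ ^ 2 * y.2 / (2 * n) ≤ θ ^ 2 * ((n : ℝ) * B ^ 2) / (2 * n) :=
            div_le_div_of_nonneg_right h3 (by positivity)
        _ = θ ^ 2 * B ^ 2 / 2 := by field_simp
    · show (0 : ℝ) ≤ ((0 : ℕ) : ℝ) * B ^ 2
      simp
  have hΦ0 : Φ x ((0, 0) : ℝ × ℝ) = ψ 0 := by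
    rw [hΦ]
    simp
  have hfin := hind n x ((0, 0) : ℝ × ℝ)
  rw [hΦ0] at hfin
  refine hfin.trans ((Finset.sum_le_sum hgle).trans ?_)
  rw [Finset.sum_const, Finset.card_range, nsmul_eq_mul, hε]
  have hex : Real.exp (θ ^ 2 * B ^ 2) = Real.exp (θ ^ 2 * B ^ 2 / 2) * Real.exp (θ ^ 2 * B ^ 2 / 2) := by
    rw [← Real.exp_add]; ring_nf
  rw [hex]
  set E := Real.exp (θ ^ 2 * B ^ 2 / 2)
  have hE : 0 < E := Real.exp_pos _
  set K := |θ| * B with hKdef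
  have hK0 : 0 ≤ K := by positivity
  have key : (n : ℝ) * (5 * (K / Real.sqrt n) ^ 3 + (K / Real.sqrt n) ^ 4) ≤
      (5 * K ^ 3 + K ^ 4) / Real.sqrt n := by
    have hn2 : (n : ℝ) = Real.sqrt n ^ 2 := hsq2.symm
    rw [le_div_iff₀ hsq]
    have h5 : (n : ℝ) * (5 * (K / Real.sqrt n) ^ 3 + (K / Real.sqrt n) ^ 4) * Real.sqrt n =
        5 * K ^ 3 + K ^ 4 / Real.sqrt n := by
      nth_rewrite 1 [hn2]
      field_simp
    rw [h5]
    have h6 : K ^ 4 / Real.sqrt n ≤ K ^ 4 := div_le_self (by positivity) hsq1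
    linarith
  calc (n : ℝ) * ((5 * (K / Real.sqrt n) ^ 3 + (K / Real.sqrt n) ^ 4) * E * E)
      = ((n : ℝ) * (5 * (K / Real.sqrt n) ^ 3 + (K / Real.sqrt n) ^ 4)) * (E * E) := by ring
    _ ≤ ((5 * K ^ 3 + K ^ 4) / Real.sqrt n) * (E * E) :=
        mul_le_mul_of_nonneg_right key (by positivity)
    _ = (5 * K ^ 3 + K ^ 4) * (E * E) / Real.sqrt n := by ring

theorem mart_est (d : ℕ) (θ B : ℝ) (hB : 1 ≤ B) : ∃ C : ℝ, 0 < C ∧ ∀ (ω : Om d)
    (F1 : V d → Dir d → ℝ) (G : V d → ℝ), (∀ x δ, |F1 x δ| ≤ B) →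
    (∀ x, ∑ δ, wt 0 0 ω x δ * F1 x δ = 0) →
    (∀ x, G x = (∑ δ, wt 0 0 ω x δ * F1 x δ ^ 2) / Zw 0 0 ω x) →
    ∀ n : ℕ, 1 ≤ n → ∀ x : V d,
      |PFn ω (fun x δ => (F1 x δ, G x)) n
        (fun _ y => Real.exp (θ ^ 2 * y.2 / (2 * n)) * Real.cos (θ * y.1 / Real.sqrt n)) x
        ((0, 0) : ℝ × ℝ) - 1| ≤ C / Real.sqrt n ∧
      |PFn ω (fun x δ => (F1 x δ, G x)) n
        (fun _ y => Real.exp (θ ^ 2 * y.2 / (2 * n)) * Real.sin (θ * y.1 / Real.sqrt n)) x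
        ((0, 0) : ℝ × ℝ)| ≤ C / Real.sqrt n := by
  have hB0 : 0 ≤ B := by linarith
  refine ⟨(5 * (|θ| * B) ^ 3 + (|θ| * B) ^ 4) * Real.exp (θ ^ 2 * B ^ 2) + 1, by positivity, ?_⟩
  intro ω F1 G hF h0 hG n hn x
  have hn0 : (0 : ℝ) < n := by exact_mod_cast hn
  have hsq : 0 < Real.sqrt n := Real.sqrt_pos.2 hn0
  have hle : ((5 * (|θ| * B) ^ 3 + (|θ| * B) ^ 4) * Real.exp (θ ^ 2 * B ^ 2)) / Real.sqrt n ≤
      ((5 * (|θ| * B) ^ 3 + (|θ| * B) ^ 4) * Real.exp (θ ^ 2 * B ^ 2) + 1) / Real.sqrt n :=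
    div_le_div_of_nonneg_right (by linarith) hsq.le
  constructor
  · have h := CL_Clt_gen θ B hB ω F1 G hF h0 hG Real.cos (fun a => -Real.sin a)
      (fun a b => by rw [Real.cos_add]; ring) Real.abs_cos_le_one
      (fun a => by rw [abs_neg]; exact Real.abs_sin_le_one a) n hn x
    rw [Real.cos_zero] at h
    exact h.trans hle
  · have h := CL_Clt_gen θ B hB ω F1 G hF h0 hG Real.sin Real.cos
      (fun a b => by rw [Real.sin_add]) Real.abs_sin_le_one Real.abs_cos_le_one n hn x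
    rw [Real.sin_zero, sub_zero] at h
    exact h.trans hle

end Ein99.CL
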