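import Pool.Agent.LibEinU.CL_Qi
import Pool.Agent.LibEin99.F_Ip

/-!
TASK CL_Cross. Inner products of the approximate gradients.

`sum_GPsi`: `GPsi = dt + gr (chi k)`, `dg_mul_drf`, `dg_mul_Pe`, `chi_succ`, `Ae_eq`.
`ip_cross`: as `ip_GPsi` in `E_U.lean` (`GPsi j = Dl + gr chi_j`; `ip_Dl_gr`, `Ae_dirichlet`, `E_U_pair`, `E_U_shift`,
`E_U_incr`): `ip (GPsi j)(GPsi k) = ip Dl Dl + ip Dl (gr chi_j) + ip Dl (gr chi_k) + ip (gr chi_j)(gr chi_k)`.
Alternatively: `ip (GPsi j) (gr g) = -2 ∫ dg * 2 ak_j * g` (from `sum_GPsi` and `rev_int`), so with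
`g = chi_k = ∑_{i<k} Ae^[i] drf` everything is a sum of `E_U_c`.
`ak_eq`: `ak k = Ae^[k] drf` (`chi_eq_sum`), so `|ak| ≤ 1` and `qi (ak m)(ak m) = E_U_c (2m)`; `al_eq`.
`ak_zero`: the `E_U_c j` are nonnegative (see `uu_antitone`) with bounded partial sums
(`E_U_incr`, `uu_incr_nonneg`), hence tend to `0`.
-/

open MeasureTheory ProbabilityTheory Filter Topology

namespace Ein99.CL

variable {d : ℕ} {p : unitInterval}

theorem GPsi_anti (l : Fin d → ℝ) (k : ℕ) : Anti (GPsi l k : Fld d) := by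
  intro ω δ _
  simp only [GPsi, gr]
  rw [sh_rv_sh, dt_rv]
  ring

theorem GPsi_bound (l : Fin d → ℝ) (hl : ∑ i, l i ^ 2 = 1) (k : ℕ) (ω : Om d) (δ : Dir d) :
    |GPsi l k ω δ| ≤ 2 * k + 1 := by
  change |dt l δ + (chi l k (sh (st δ) ω) - chi l k ω)| ≤ _
  have h1 := abs_le.1 (abs_dt_le l hl δ)
  have h2 := abs_le.1 (abs_chi_le l hl k (sh (st δ) ω))
  have h3 := abs_le.1 (abs_chi_le l hl k ω)
  rw [abs_le]
  constructor <;> linarith

theorem GPsi_BM (l : Fin d → ℝ) (hl : ∑ i, l i ^ 2 = 1) (k : ℕ) (δ : Dir d) :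
    BM (fun ω : Om d => GPsi l k ω δ) :=
  ⟨measurable_const.add (((measurable_chi l k).comp (measurable_sh (st δ))).sub
      (measurable_chi l k)), 2 * k + 1, fun ω => GPsi_bound l hl k ω δ⟩

theorem sum_GPsi (l : Fin d → ℝ) (k : ℕ) (ω : Om d) :
    ∑ δ, oo ω δ * GPsi l k ω δ = 2 * (dg ω * ak l k ω) := by
  have h1 := dg_mul_drf l ω
  have h2 := dg_mul_Pe' (chi l k) ω
  have h3 := sum_oo_mul ω (chi l k ω)
  have h4 := chi_succ l k ω
  rw [Ae_eq] at h4
  have h5 : ∑ δ, oo ω δ * GPsi l k ω δ = ∑ δ, oo ω δ * dt l δ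
      + (∑ δ, oo ω δ * chi l k (sh (st δ) ω) - ∑ δ, oo ω δ * chi l k ω) := by
    rw [← Finset.sum_sub_distrib, ← Finset.sum_add_distrib]
    refine Finset.sum_congr rfl fun δ _ => ?_
    simp only [GPsi, gr]
    ring
  rw [h5, ← h2, h3]
  unfold ak
  rw [h4]
  linear_combination (-2 : ℝ) * h1

/-- the drift as an iterate -/
theorem CL_Cross_ak_eq (l : Fin d → ℝ) (k : ℕ) : (ak l k : Om d → ℝ) = Ae^[k] (drf l) := by
  funext ω
  unfold ak
  rw [chi_eq_sum, chi_eq_sum, Finset.sum_range_succ]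
  ring

theorem CL_Cross_chi_BM (l : Fin d → ℝ) (hl : ∑ i, l i ^ 2 = 1) (k : ℕ) :
    BM (chi l k : Om d → ℝ) :=
  ⟨measurable_chi l k, k, abs_chi_le l hl k⟩

theorem ak_BM (l : Fin d → ℝ) (hl : ∑ i, l i ^ 2 = 1) (k : ℕ) : BM (ak l k : Om d → ℝ) :=
  (CL_Cross_chi_BM l hl (k + 1)).sub (CL_Cross_chi_BM l hl k)

theorem ak_bound (l : Fin d → ℝ) (hl : ∑ i, l i ^ 2 = 1) (k : ℕ) (ω : Om d) : |ak l k ω| ≤ 1 := by
  rw [CL_Cross_ak_eq]
  induction k generalizing ω with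
  | zero =>
    have h := abs_chi_le l hl 1 ω
    rw [Nat.cast_one] at h
    exact h
  | succ k ih =>
    rw [Function.iterate_succ_apply', Ae_eq]
    have h1 := abs_le.1 (ih ω)
    have h2 := abs_le.1 (Pe_bound (f := Ae^[k] (drf l)) (B := 1) ih ω)
    rw [abs_le]
    constructor <;> linarith

theorem CL_Cross_gr_SqI (l : Fin d → ℝ) (hl : ∑ i, l i ^ 2 = 1) (k : ℕ) :
    SqI p (gr (chi l k) : Fld d) := by
  have e : (gr (chi l k) : Fld d) = fun ω δ => GPsi l k ω δ - Dl l ω δ := by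
    funext ω δ
    simp only [GPsi, Dl]
    ring
  rw [e]
  exact (SqI.GPsi l hl k).sub (SqI.Dl l)

theorem CL_Cross_gr_gr (l : Fin d → ℝ) (hl : ∑ i, l i ^ 2 = 1) (j k : ℕ) :
    ip p (gr (chi l j)) (gr (chi l k)) = 4 * (∑ i ∈ Finset.range j, E_U_c p l i
      - ∑ i ∈ Finset.range j, E_U_c p l (k + i)) := by
  have hchij := E_U_Lchi p l hl j
  have hmchij := measurable_chi (d := d) l j
  have hchik := E_U_Lchi p l hl k
  have hmchik := measurable_chi (d := d) l k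
  have hGG := Ae_dirichlet p hmchij hmchik hchij hchik
  have e2 : ip p (gr (chi l j)) (gr (chi l k))
      = 4 * ∫ ω, dg ω * (chi l j ω * (chi l k ω - Ae (chi l k) ω)) ∂(nu d p) := by
    rw [hGG]
    unfold ip
    ring
  have e3 : ∀ ω : Om d, chi l k ω - Ae (chi l k) ω = drf l ω - (Ae^[k] (drf l)) ω := by
    intro ω
    have h1 := chi_succ l k ω
    have h2 := chi_eq_sum l (k + 1) ω
    rw [Finset.sum_range_succ, ← chi_eq_sum] at h2
    linarith
  have hmA := E_U_mAe (E_U_mdrf (d := d) l) k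
  have hLA := E_U_LAe p (E_U_mdrf l) (E_U_Ldrf p l hl) k
  have e4 : ∫ ω, dg ω * (chi l j ω * (chi l k ω - Ae (chi l k) ω)) ∂(nu d p)
      = ∫ ω, dg ω * (drf l ω * chi l j ω) ∂(nu d p)
        - ∫ ω, dg ω * ((Ae^[k] (drf l)) ω * chi l j ω) ∂(nu d p) := by
    rw [← integral_sub (E_U_intprod p (E_U_mdrf l) hmchij (E_U_Ldrf p l hl) hchij)
      (E_U_intprod p hmA hmchij hLA hchij)]
    refine integral_congr_ae (Eventually.of_forall fun ω => ?_)
    simp only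
    rw [e3]
    ring
  have e5 : ∫ ω, dg ω * ((Ae^[k] (drf l)) ω * chi l j ω) ∂(nu d p)
      = ∑ i ∈ Finset.range j, E_U_c p l (k + i) := by
    rw [E_U_pair p l hl _ hmA hLA j]
    exact Finset.sum_congr rfl fun i _ => E_U_shift p l hl i k
  rw [e2, e4, e5, E_U_drf_chi p l hl]

theorem CL_Cross_Dl_gr (l : Fin d → ℝ) (hl : ∑ i, l i ^ 2 = 1) (k : ℕ) :
    ip p (Dl l) (gr (chi l k)) = -4 * ∑ i ∈ Finset.range k, E_U_c p l i := by
  rw [ip_Dl_gr p l (chi l k) (measurable_chi l k) (E_U_Lchi p l hl k), E_U_drf_chi p l hl]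

theorem ip_cross (l : Fin d → ℝ) (hl : ∑ i, l i ^ 2 = 1) (j k : ℕ) :
    ip p (GPsi l j) (GPsi l k) = 2 * al p l (j + k) := by
  have e : ∀ k : ℕ, (GPsi l k : Fld d) = fun ω δ => Dl l ω δ + gr (chi l k) ω δ := fun k => rfl
  have hD : SqI p (Dl l : Fld d) := SqI.Dl l
  have hG := fun k : ℕ => CL_Cross_gr_SqI (p := p) l hl k
  have e6 : ∑ i ∈ Finset.range (k + j), E_U_c p l i
      = ∑ i ∈ Finset.range k, E_U_c p l i + ∑ i ∈ Finset.range j, E_U_c p l (k + i) := by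
    rw [Finset.sum_range_add]
  have h1 : ip p (GPsi l j) (GPsi l k) = ip p (Dl l) (GPsi l k) + ip p (gr (chi l j)) (GPsi l k) := by
    rw [e j]
    exact ip_add_left hD (hG j) (SqI.GPsi l hl k)
  have h2 : ip p (gr (chi l j)) (GPsi l k)
      = ip p (Dl l) (gr (chi l j)) + ip p (gr (chi l k)) (gr (chi l j)) := by
    rw [ip_comm, e k]
    exact ip_add_left hD (hG k) (hG j)
  rw [h1, h2, ip_Dl_GPsi p l hl k, CL_Cross_Dl_gr l hl, ip_comm (gr (chi l k)),
    CL_Cross_gr_gr l hl, E_U_incr p l hl]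
  unfold al
  rw [E_U_incr p l hl, add_comm j k, e6]
  ring

theorem al_antitone (l : Fin d → ℝ) (hl : ∑ i, l i ^ 2 = 1) : Antitone (al p l) :=
  uu_antitone p l hl

/-- the distance of two approximate gradients -/
theorem ip_diff (l : Fin d → ℝ) (hl : ∑ i, l i ^ 2 = 1) (k m : ℕ) (hkm : k ≤ m) (S : ℝ)
    (hS : Tendsto (fun n : ℕ => 2 * al p l n) atTop (𝓝 S)) :
    ip p (fun ω δ => GPsi l k ω δ - GPsi l m ω δ) (fun ω δ => GPsi l k ω δ - GPsi l m ω δ)
      ≤ 4 * al p l (2 * k) - 2 * S := by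
  have hk : SqI p (GPsi l k : Fld d) := SqI.GPsi l hl k
  have hm : SqI p (GPsi l m : Fld d) := SqI.GPsi l hl m
  have hd := hk.sub hm
  have hanti : Antitone (fun n : ℕ => 2 * al p l n) := by
    intro a b hab
    have := al_antitone (p := p) l hl hab
    simp only
    linarith
  have h1 : ip p (fun ω δ => GPsi l k ω δ - GPsi l m ω δ)
      (fun ω δ => GPsi l k ω δ - GPsi l m ω δ)
      = ip p (GPsi l k) (GPsi l k) - 2 * ip p (GPsi l k) (GPsi l m) + ip p (GPsi l m) (GPsi l m) := by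
    rw [ip_sub_left hk hm hd, ip_comm (GPsi l k), ip_comm (GPsi l m), ip_sub_left hk hm hk,
      ip_sub_left hk hm hm, ip_comm (GPsi l m) (GPsi l k)]
    ring
  rw [h1, ip_cross l hl, ip_cross l hl, ip_cross l hl]
  have h2 := hanti.le_of_tendsto hS (k + m)
  have h3 := hanti (show 2 * k ≤ m + m by omega)
  have h4 : k + k = 2 * k := by ring
  simp only at h2 h3
  rw [h4]
  linarith

theorem ak_zero (l : Fin d → ℝ) (hl : ∑ i, l i ^ 2 = 1) :
    Tendsto (fun m : ℕ => qi p (ak l m) (ak l m)) atTop (𝓝 0) := by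
  have h0 : ∀ j, 0 ≤ E_U_c p l j := fun j =>
    corr_nonneg p (E_U_mdrf (d := d) l) (E_U_Ldrf p l hl) j
  have h1 : ∀ n : ℕ, ∑ j ∈ Finset.range n, E_U_c p l j ≤ uu p l 1 / 2 := by
    intro n
    have h2 := E_U_incr p l hl n
    have h3 := uu_incr_nonneg p l hl n
    linarith
  have h2 : Summable (fun j => E_U_c p l j) := summable_of_sum_range_le h0 h1
  have h3 := h2.tendsto_atTop_zero
  have h4 : ∀ m : ℕ, qi p (ak l m) (ak l m) = E_U_c p l (m + m) := by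
    intro m
    unfold qi
    rw [CL_Cross_ak_eq]
    exact E_U_shift p l hl m m
  simp only [h4]
  exact h3.comp (tendsto_atTop_mono (fun m => Nat.le_add_left m m) tendsto_id)

end Ein99.CL
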