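import Pool.Agent.LibEin99.C_Meas
import Pool.Agent.LibEin99.A_PnRange
import Pool.Agent.LibEin99.Defs2

/-!
TASK CL_Levy. From characteristic functions to `IsDiff`.

Let `θ = tha d p > 0`. For every `n` let `mu_n = ∑ y ∈ Bx n 0, ofReal (c_{n,y}) • dirac (dot l y/√n)`,
`c_{n,y} = (1/θ) ∫ Pn 0 l ω n (indicator {y} 1) 0 dnu ≥ 0`; `∑_y c_{n,y} = 1` (`Pn_eq_sum`-like lemma in
`A_PnRange.lean`, `Pn_const`). For bounded (continuous) `f`: `∫ f dmu_n = (1/θ) ∫ Pn 0 l ω n (f (dot l ·/√n)) 0 dnu`.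
`charFun mu_n t = (1/θ)(∫ Pn cos(t dot/√n) + i ∫ Pn sin(t dot/√n)) → exp(-t² s/2) = charFun (gaussianReal 0 s) t`
(`charFun_gaussianReal`). Lévy: `ProbabilityMeasure.tendsto_iff_tendsto_charFun`
(`Mathlib.MeasureTheory.Measure.LevyConvergence`), then
`ProbabilityMeasure.tendsto_iff_forall_integral_tendsto`.
-/

open MeasureTheory ProbabilityTheory Filter Topology

namespace Ein99.CL

variable {d : ℕ} {p : unitInterval}

theorem CL_Levy_integrable (l : Fin d → ℝ) (n : ℕ) (y : V d) :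
    Integrable (fun ω : Om d => Pn 0 l ω n (Set.indicator {y} (fun _ => (1 : ℝ))) 0) (nu d p) := by
  have : IsFiniteMeasure (nu d p) := by unfold nu; infer_instance
  refine Integrable.of_bound
    (measurable_Pn 0 l n (fun _ => Set.indicator {y} (fun _ => (1 : ℝ)))
      (fun _ => measurable_const) 0).aestronglyMeasurable 1 (ae_of_all _ fun ω => ?_)
  rw [Real.norm_eq_abs]
  refine Pn_abs_le_of_box 0 l ω n _ 0 1 fun z _ => ?_
  by_cases hz : z ∈ ({y} : Set (V d))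
  · rw [Set.indicator_of_mem hz]; simp
  · rw [Set.indicator_of_notMem hz]; simp

/-- the coefficients -/
noncomputable def CL_Levy_c (p : unitInterval) (l : Fin d → ℝ) (n : ℕ) (y : V d) : ℝ :=
  (∫ ω, Pn 0 l ω n (Set.indicator {y} (fun _ => (1 : ℝ))) 0 ∂(nu d p)) / tha d p

theorem CL_Levy_c_nonneg (l : Fin d → ℝ) (n : ℕ) (y : V d) : 0 ≤ CL_Levy_c p l n y := by
  unfold CL_Levy_c
  refine div_nonneg (integral_nonneg fun ω => Pn_nonneg 0 l ω n (fun x => ?_) 0)
    ENNReal.toReal_nonneg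
  exact Set.indicator_nonneg (fun _ _ => zero_le_one) x

theorem CL_Levy_int (l : Fin d → ℝ) (n : ℕ) (g : V d → ℝ) (ht : 0 < tha d p) :
    ∫ ω, Pn 0 l ω n g 0 ∂(nu d p) = tha d p * ∑ y ∈ Bx n 0, CL_Levy_c p l n y * g y := by
  have h : (fun ω : Om d => Pn 0 l ω n g 0) = fun ω => ∑ y ∈ Bx n 0,
      Pn 0 l ω n (Set.indicator {y} (fun _ => (1 : ℝ))) 0 * g y :=
    funext fun ω => Pn_eq_sum 0 l ω n g 0
  rw [h, integral_finsetSum _ fun y _ => (CL_Levy_integrable l n y).mul_const _,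
    Finset.mul_sum]
  refine Finset.sum_congr rfl fun y _ => ?_
  rw [integral_mul_const, CL_Levy_c]
  field_simp

theorem CL_Levy_sum (l : Fin d → ℝ) (n : ℕ) (ht : 0 < tha d p) :
    ∑ y ∈ Bx n 0, CL_Levy_c p l n y = 1 := by
  have h := CL_Levy_int (p := p) l n (fun _ => 1) ht
  simp only [Pn_const, mul_one, integral_const, smul_eq_mul] at h
  have h2 : (nu d p).real Set.univ = tha d p := rfl
  rw [h2] at h
  exact (mul_eq_left₀ ht.ne').1 h.symm

/-- the law of `X_n · l / √n` -/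
noncomputable def CL_Levy_mu (p : unitInterval) (l : Fin d → ℝ) (n : ℕ) : Measure ℝ :=
  ∑ y ∈ Bx n (0 : V d), ENNReal.ofReal (CL_Levy_c p l n y) • Measure.dirac (dot l y / Real.sqrt n)

theorem CL_Levy_prob (l : Fin d → ℝ) (n : ℕ) (ht : 0 < tha d p) :
    IsProbabilityMeasure (CL_Levy_mu p l n) := by
  constructor
  unfold CL_Levy_mu
  simp only [Measure.coe_finsetSum, Finset.sum_apply, Measure.smul_apply, measure_univ,
    smul_eq_mul, mul_one]
  rw [← ENNReal.ofReal_sum_of_nonneg fun y _ => CL_Levy_c_nonneg l n y, CL_Levy_sum l n ht,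
    ENNReal.ofReal_one]

theorem CL_Levy_integral {E : Type*} [NormedAddCommGroup E] [NormedSpace ℝ E] [CompleteSpace E]
    (l : Fin d → ℝ) (n : ℕ) (f : ℝ → E) :
    ∫ x, f x ∂(CL_Levy_mu p l n)
      = ∑ y ∈ Bx n (0 : V d), CL_Levy_c p l n y • f (dot l y / Real.sqrt n) := by
  unfold CL_Levy_mu
  rw [integral_finsetSum_measure fun y _ => ?_]
  · refine Finset.sum_congr rfl fun y _ => ?_
    rw [integral_smul_measure, integral_dirac, ENNReal.toReal_ofReal (CL_Levy_c_nonneg l n y)]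
  · refine Integrable.smul_measure ?_ ENNReal.ofReal_ne_top
    exact integrable_dirac (by simp)

theorem CL_Levy_real (l : Fin d → ℝ) (n : ℕ) (f : ℝ → ℝ) (ht : 0 < tha d p) :
    ∫ ω, Pn 0 l ω n (fun x => f (dot l x / Real.sqrt n)) 0 ∂(nu d p)
      = tha d p * ∫ x, f x ∂(CL_Levy_mu p l n) := by
  rw [CL_Levy_int l n _ ht, CL_Levy_integral]
  simp only [smul_eq_mul]

theorem CL_Levy_charFun (l : Fin d → ℝ) (n : ℕ) (t : ℝ) (ht : 0 < tha d p) :
    charFun (CL_Levy_mu p l n) t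
      = (((∫ ω, Pn 0 l ω n (fun x => Real.cos (t * dot l x / Real.sqrt n)) 0 ∂(nu d p))
          / tha d p : ℝ) : ℂ)
        + (((∫ ω, Pn 0 l ω n (fun x => Real.sin (t * dot l x / Real.sqrt n)) 0 ∂(nu d p))
          / tha d p : ℝ) : ℂ) * Complex.I := by
  have h1 : ∫ ω, Pn 0 l ω n (fun x => Real.cos (t * dot l x / Real.sqrt n)) 0 ∂(nu d p)
      = tha d p * ∑ y ∈ Bx n (0 : V d), CL_Levy_c p l n y * Real.cos (t * dot l y / Real.sqrt n) :=
    CL_Levy_int l n _ ht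
  have h2 : ∫ ω, Pn 0 l ω n (fun x => Real.sin (t * dot l x / Real.sqrt n)) 0 ∂(nu d p)
      = tha d p * ∑ y ∈ Bx n (0 : V d), CL_Levy_c p l n y * Real.sin (t * dot l y / Real.sqrt n) :=
    CL_Levy_int l n _ ht
  rw [h1, h2, mul_div_cancel_left₀ _ ht.ne', mul_div_cancel_left₀ _ ht.ne', charFun_apply_real,
    CL_Levy_integral]
  push_cast
  rw [Finset.sum_mul, ← Finset.sum_add_distrib]
  refine Finset.sum_congr rfl fun y _ => ?_
  have e : (t : ℂ) * ((dot l y : ℂ) / ((Real.sqrt n : ℝ) : ℂ)) * Complex.I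
      = ((t : ℂ) * (dot l y : ℂ) / ((Real.sqrt n : ℝ) : ℂ)) * Complex.I := by
    ring
  rw [Complex.real_smul, e, Complex.exp_mul_I]
  ring

theorem levy (l : Fin d → ℝ) (s : NNReal) (ht : 0 < tha d p)
    (hcos : ∀ θ : ℝ, Tendsto (fun n : ℕ => ∫ ω, Pn 0 l ω n
      (fun x => Real.cos (θ * dot l x / Real.sqrt n)) 0 ∂(nu d p)) atTop
      (𝓝 (tha d p * Real.exp (-(θ ^ 2 * s / 2)))))
    (hsin : ∀ θ : ℝ, Tendsto (fun n : ℕ => ∫ ω, Pn 0 l ω n
      (fun x => Real.sin (θ * dot l x / Real.sqrt n)) 0 ∂(nu d p)) atTop (𝓝 0)) :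
    IsDiff d p l s := by
  let μ : ℕ → ProbabilityMeasure ℝ := fun n => ⟨CL_Levy_mu p l n, CL_Levy_prob l n ht⟩
  let μ₀ : ProbabilityMeasure ℝ := ⟨gaussianReal 0 s, inferInstance⟩
  have hlim : Tendsto μ atTop (𝓝 μ₀) := by
    rw [ProbabilityMeasure.tendsto_iff_tendsto_charFun]
    intro t
    have e0 : charFun (μ₀ : Measure ℝ) t
        = ((Real.exp (-(t ^ 2 * s / 2)) : ℝ) : ℂ) + ((0 : ℝ) : ℂ) * Complex.I := by
      change charFun (gaussianReal 0 s) t = _
      rw [charFun_gaussianReal]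
      push_cast
      ring_nf
    rw [e0]
    have e1 : (fun n : ℕ => charFun (μ n : Measure ℝ) t) = fun n : ℕ =>
      (((∫ ω, Pn 0 l ω n (fun x => Real.cos (t * dot l x / Real.sqrt n)) 0 ∂(nu d p))
          / tha d p : ℝ) : ℂ)
        + (((∫ ω, Pn 0 l ω n (fun x => Real.sin (t * dot l x / Real.sqrt n)) 0 ∂(nu d p))
          / tha d p : ℝ) : ℂ) * Complex.I := funext fun n => CL_Levy_charFun l n t ht
    rw [e1]
    have c1 := (hcos t).div_const (tha d p)
    rw [mul_div_cancel_left₀ _ ht.ne'] at c1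
    have c2 := (hsin t).div_const (tha d p)
    rw [zero_div] at c2
    exact ((Complex.continuous_ofReal.tendsto _).comp c1).add
      (((Complex.continuous_ofReal.tendsto _).comp c2).mul_const _)
  rw [ProbabilityMeasure.tendsto_iff_forall_integral_tendsto] at hlim
  intro f
  have h3 := (hlim f).const_mul (tha d p)
  have e2 : (fun n : ℕ => ∫ ω, Pn 0 l ω n (fun y => f (dot l y / Real.sqrt n)) 0 ∂(nu d p))
      = fun n : ℕ => tha d p * ∫ x, f x ∂(CL_Levy_mu p l n) :=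
    funext fun n => CL_Levy_real l n f ht
  rw [e2]
  exact h3

end Ein99.CL
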