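import Pool.Agent.LibGM95.F1
import Pool.Agent.LibEin99.E_U
import Pool.Agent.LibEin99.C_Meas

/-!
# Isotropy: the diffusivity does not depend on the direction
-/

open MeasureTheory ProbabilityTheory Filter Topology

namespace Ein99.CL

open Ein99.GM

variable {d : ℕ} {p : unitInterval}

theorem sym_wt (π : Equiv.Perm (Fin d)) (ε : Fin d → Bool) (ω : Om d) (x : V d) (δ : Dir d) :
    wt 0 0 (tr π ε ω) x δ = wt 0 0 ω (sp π ε x) (spd π ε δ) := by
  unfold wt
  have h := opn_tr π ε ω x δ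
  have e1 : dt (0 : Fin d → ℝ) δ = 0 := by unfold dt; simp
  have e2 : dt (0 : Fin d → ℝ) (spd π ε δ) = 0 := by unfold dt; simp
  simp only [h, e1, e2]

theorem sym_sum (π : Equiv.Perm (Fin d)) (ε : Fin d → Bool) (f : Dir d → ℝ) :
    ∑ δ, f (spd π ε δ) = ∑ δ, f δ :=
  Function.Bijective.sum_comp (spd_bij π ε) f

theorem sym_Zw (π : Equiv.Perm (Fin d)) (ε : Fin d → Bool) (ω : Om d) (x : V d) :
    Zw 0 0 (tr π ε ω) x = Zw 0 0 ω (sp π ε x) := by
  unfold Zw
  simp only [sym_wt]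
  exact sym_sum π ε (fun δ => wt 0 0 ω (sp π ε x) δ)

theorem sym_Pop (π : Equiv.Perm (Fin d)) (ε : Fin d → Bool) (ω : Om d) (g : V d → ℝ) (x : V d) :
    Pop 0 0 (tr π ε ω) (fun y => g (sp π ε y)) x = Pop 0 0 ω g (sp π ε x) := by
  unfold Pop
  rw [sym_Zw]
  split_ifs with h
  · rfl
  · congr 1
    rw [← sym_sum π ε (fun δ => wt 0 0 ω (sp π ε x) δ * g (sp π ε x + st δ))]
    refine Finset.sum_congr rfl fun δ _ => ?_
    change wt 0 0 (tr π ε ω) x δ * g (sp π ε (x + st δ)) = _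
    rw [sym_wt, sp_add, sp_st]

theorem sym_Lz (π : Equiv.Perm (Fin d)) (ε : Fin d → Bool) (ω : Om d) (g : V d → ℝ) (x : V d) :
    Lz (tr π ε ω) (fun y => g (sp π ε y)) x = Lz ω g (sp π ε x) := by
  unfold Lz
  rw [sym_Pop]

theorem sym_Ln (π : Equiv.Perm (Fin d)) (ε : Fin d → Bool) (ω : Om d) (n : ℕ) (g : V d → ℝ)
    (x : V d) : Ln (tr π ε ω) n (fun y => g (sp π ε y)) x = Ln ω n g (sp π ε x) := by
  induction n generalizing x with
  | zero => rfl
  | succ n ih =>
    rw [Ln_succ, Ln_succ]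
    have h : Ln (tr π ε ω) n (fun y => g (sp π ε y)) = fun y => Ln ω n g (sp π ε y) := by
      funext y
      exact ih y
    rw [h]
    exact sym_Lz π ε ω (Ln ω n g) x

theorem sym_sp0 (π : Equiv.Perm (Fin d)) (ε : Fin d → Bool) : sp π ε (0 : V d) = 0 := by
  funext i
  simp [sp]

theorem sym_dg (π : Equiv.Perm (Fin d)) (ε : Fin d → Bool) (ω : Om d) :
    dg (tr π ε ω) = dg ω := by
  rw [← Zw_zero_eq, ← Zw_zero_eq, sym_Zw, sym_sp0]

theorem sym_Adj (π : Equiv.Perm (Fin d)) (ε : Fin d → Bool) (ω : Om d) (x y : V d) :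
    Adj (tr π ε ω) x y ↔ Adj ω (sp π ε x) (sp π ε y) := by
  constructor
  · rintro ⟨δ, h1, h2⟩
    refine ⟨spd π ε δ, (opn_tr π ε ω x δ).1 h1, ?_⟩
    rw [h2, sp_add, sp_st]
  · rintro ⟨δ, h1, h2⟩
    obtain ⟨δ', rfl⟩ := (spd_bij π ε).2 δ
    refine ⟨δ', (opn_tr π ε ω x δ').2 h1, ?_⟩
    apply (sp_bij π ε).1
    rw [h2, sp_add, sp_st]

theorem sym_Conn (π : Equiv.Perm (Fin d)) (ε : Fin d → Bool) (ω : Om d) (x y : V d) :
    Conn (tr π ε ω) x y ↔ Conn ω (sp π ε x) (sp π ε y) := by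
  constructor
  · intro h
    induction h with
    | refl => exact Relation.ReflTransGen.refl
    | tail _ hbc ih => exact Relation.ReflTransGen.tail ih ((sym_Adj π ε ω _ _).1 hbc)
  · intro h
    have key : ∀ z, Conn ω (sp π ε x) z → ∀ y, z = sp π ε y → Conn (tr π ε ω) x y := by
      intro z hz
      induction hz with
      | refl =>
        intro y hy
        rw [(sp_bij π ε).1 hy]
        exact Relation.ReflTransGen.refl
      | @tail b c _ hbc ih =>
        intro y hy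
        obtain ⟨b', hb'⟩ := (sp_bij π ε).2 b
        refine Relation.ReflTransGen.tail (ih b' hb'.symm) ?_
        rw [sym_Adj, hb', ← hy]
        exact hbc
    exact key _ h y rfl

theorem sym_InfC (π : Equiv.Perm (Fin d)) (ε : Fin d → Bool) (ω : Om d) :
    InfC (tr π ε ω) 0 ↔ InfC ω 0 := by
  unfold InfC
  have h : {y : V d | Conn (tr π ε ω) 0 y} = (sp π ε) ⁻¹' {y : V d | Conn ω 0 y} := by
    ext y
    change Conn (tr π ε ω) 0 y ↔ Conn ω 0 (sp π ε y)
    rw [sym_Conn, sym_sp0]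
  rw [h]
  constructor
  · intro h1 h2
    exact h1 (h2.preimage (sp_bij π ε).1.injOn)
  · intro h1 h2
    apply h1
    have h3 := h2.image (sp π ε)
    rw [Set.image_preimage_eq _ (sp_bij π ε).2] at h3
    exact h3

theorem sym_meas (π : Equiv.Perm (Fin d)) (ε : Fin d → Bool) :
    Measurable (tr π ε : Om d → Om d) :=
  measurable_pi_iff.mpr fun _ => measurable_pi_apply _

theorem sym_map (π : Equiv.Perm (Fin d)) (ε : Fin d → Bool) :
    MeasurePreserving (tr π ε : Om d → Om d) (nu d p) (nu d p) := by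
  have h1 : MeasurePreserving (tr π ε : Om d → Om d) (Pr d p) (Pr d p) := by
    refine ⟨sym_meas π ε, ?_⟩
    apply Measure.ext
    intro A hA
    rw [Measure.map_apply (sym_meas π ε) hA]
    have h2 := Pr_tr p π ε hA
    rw [measureReal_def, measureReal_def] at h2
    exact (ENNReal.toReal_eq_toReal_iff' (measure_ne_top _ _) (measure_ne_top _ _)).1 h2
  have h2 := h1.restrict_preimage (measurableSet_InfC (d := d) 0)
  have h3 : (tr π ε : Om d → Om d) ⁻¹' {ω : Om d | InfC ω 0} = {ω : Om d | InfC ω 0} := by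
    ext ω
    exact sym_InfC π ε ω
  rw [h3] at h2
  exact h2

/-- the covariances of the lazy walk -/
noncomputable def Bij (p : unitInterval) (n : ℕ) (i j : Fin d) : ℝ :=
  ∫ ω, dg ω * Ln ω n (fun x => (x i : ℝ) * (x j : ℝ)) 0 ∂(nu d p)

theorem sym_int (π : Equiv.Perm (Fin d)) (ε : Fin d → Bool) (n : ℕ) (g : V d → ℝ) :
    ∫ ω, dg ω * Ln ω n (fun y => g (sp π ε y)) 0 ∂(nu d p)
      = ∫ ω, dg ω * Ln ω n g 0 ∂(nu d p) := by
  have hm : Measurable (fun ω : Om d => dg ω * Ln ω n (fun y => g (sp π ε y)) 0) :=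
    measurable_dg.mul (measurable_Ln n (fun _ y => g (sp π ε y)) (fun _ => measurable_const) 0)
  have h1 := (sym_map (p := p) π ε).map_eq
  calc ∫ ω, dg ω * Ln ω n (fun y => g (sp π ε y)) 0 ∂(nu d p)
      = ∫ ω, dg ω * Ln ω n (fun y => g (sp π ε y)) 0 ∂(Measure.map (tr π ε) (nu d p)) := by
        rw [h1]
    _ = ∫ ω, dg (tr π ε ω) * Ln (tr π ε ω) n (fun y => g (sp π ε y)) 0 ∂(nu d p) :=
        integral_map (sym_meas π ε).aemeasurable hm.aestronglyMeasurable
    _ = ∫ ω, dg ω * Ln ω n g 0 ∂(nu d p) := by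
        congr 1
        funext ω
        rw [sym_dg, sym_Ln, sym_sp0]

theorem Bij_off (n : ℕ) (i j : Fin d) (hij : i ≠ j) : Bij p n i j = 0 := by
  have h := sym_int (p := p) (Equiv.refl (Fin d)) (fun k => if k = i then false else true) n
    (fun x => (x i : ℝ) * (x j : ℝ))
  have h1 : (fun y : V d => (((sp (Equiv.refl (Fin d)) (fun k => if k = i then false else true) y) i : ℤ)
      : ℝ) * (((sp (Equiv.refl (Fin d)) (fun k => if k = i then false else true) y) j : ℤ) : ℝ))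
      = (-1 : ℝ) • (fun y : V d => (y i : ℝ) * (y j : ℝ)) := by
    funext y
    simp only [sp, if_true, Equiv.refl_apply, Pi.smul_apply, smul_eq_mul, if_neg (Ne.symm hij)]
    push_cast
    simp
  rw [h1] at h
  have h2 : ∀ ω : Om d, Ln ω n ((-1 : ℝ) • (fun y : V d => (y i : ℝ) * (y j : ℝ))) 0 =
      (-1) * Ln ω n (fun y : V d => (y i : ℝ) * (y j : ℝ)) 0 := by
    intro ω
    rw [Ln_smul]
    rfl
  simp only [h2] at h
  have h3 : ∫ ω, dg ω * ((-1) * Ln ω n (fun y : V d => (y i : ℝ) * (y j : ℝ)) 0) ∂(nu d p)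
      = - Bij p n i j := by
    unfold Bij
    rw [← integral_neg]
    congr 1
    funext ω
    ring
  rw [h3] at h
  change - Bij p n i j = Bij p n i j at h
  linarith

theorem Bij_diag (n : ℕ) (i j : Fin d) : Bij p n i i = Bij p n j j := by
  have h := sym_int (p := p) (Equiv.swap i j) (fun _ => true) n (fun x => (x i : ℝ) * (x i : ℝ))
  have h1 : (fun y : V d => (((sp (Equiv.swap i j) (fun _ => true) y) i : ℤ) : ℝ) *
      (((sp (Equiv.swap i j) (fun _ => true) y) i : ℤ) : ℝ)) = fun y => (y j : ℝ) * (y j : ℝ) := by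
    funext y
    simp only [sp, if_true, Equiv.swap_apply_left]
  rw [h1] at h
  exact h.symm

/-- the coefficients -/
noncomputable def cy (p : unitInterval) (n : ℕ) (y : V d) : ℝ :=
  ∫ ω, dg ω * Ln ω n (Set.indicator {y} (fun _ => (1 : ℝ))) 0 ∂(nu d p)

theorem int_Ln (n : ℕ) (g : V d → ℝ) :
    ∫ ω, dg ω * Ln ω n g 0 ∂(nu d p) = ∑ y ∈ Bx n (0 : V d), cy p n y * g y := by
  have hfin : IsFiniteMeasure (nu d p) := by unfold nu; infer_instance
  have hi : ∀ y : V d, Integrable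
      (fun ω : Om d => dg ω * Ln ω n (Set.indicator {y} (fun _ => (1 : ℝ))) 0) (nu d p) := by
    intro y
    refine Integrable.of_bound (measurable_dg.mul (measurable_Ln n
      (fun _ => Set.indicator {y} (fun _ => (1 : ℝ)))
      (fun _ => measurable_const) 0)).aestronglyMeasurable (2 * d) ?_
    refine Filter.Eventually.of_forall fun ω => ?_
    have h1 := Ln_mono ω n (g := fun _ => (0 : ℝ)) (h := Set.indicator {y} (fun _ => (1 : ℝ)))
      (fun x => Set.indicator_nonneg (fun _ _ => zero_le_one) x) 0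
    rw [Ln_const] at h1
    have h2 := Ln_mono ω n (g := Set.indicator {y} (fun _ => (1 : ℝ))) (h := fun _ => (1 : ℝ))
      (fun x => by
        by_cases hx : x ∈ ({y} : Set (V d))
        · rw [Set.indicator_of_mem hx]
        · rw [Set.indicator_of_notMem hx]
          exact zero_le_one) 0
    rw [Ln_const] at h2
    have h3 := dg_le ω
    have h4 := dg_nonneg ω
    rw [Real.norm_eq_abs, abs_of_nonneg (mul_nonneg h4 h1)]
    calc dg ω * Ln ω n (Set.indicator {y} (fun _ => (1 : ℝ))) 0 ≤ 2 * d * 1 :=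
          mul_le_mul h3 h2 h1 (by positivity)
      _ = 2 * d := mul_one _
  have h1 : ∀ ω : Om d, dg ω * Ln ω n g 0 = ∑ y ∈ Bx n (0 : V d),
      (dg ω * Ln ω n (Set.indicator {y} (fun _ => (1 : ℝ))) 0) * g y := by
    intro ω
    rw [Ln_eq_sum ω n g 0, Finset.mul_sum]
    exact Finset.sum_congr rfl fun y _ => by ring
  simp only [h1]
  rw [integral_finsetSum _ (fun y _ => (hi y).mul_const _)]
  refine Finset.sum_congr rfl fun y _ => ?_
  rw [integral_mul_const]
  rfl

theorem uu_eq_sum (l : Fin d → ℝ) (n : ℕ) :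
    uu p l n = ∑ i, ∑ j, l i * l j * Bij p n i j := by
  have h1 : uu p l n = ∑ y ∈ Bx n (0 : V d), cy p n y * dot l y ^ 2 := by
    unfold uu U2
    exact int_Ln n (fun x => dot l x ^ 2)
  have h2 : ∀ i j, Bij p n i j = ∑ y ∈ Bx n (0 : V d), cy p n y * ((y i : ℝ) * (y j : ℝ)) := by
    intro i j
    unfold Bij
    exact int_Ln n (fun x => (x i : ℝ) * (x j : ℝ))
  rw [h1]
  simp only [h2, Finset.mul_sum]
  have h3 : ∀ y : V d, cy p n y * dot l y ^ 2 =
      ∑ i, ∑ j, l i * l j * (cy p n y * ((y i : ℝ) * (y j : ℝ))) := by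
    intro y
    unfold dot
    rw [sq, Finset.sum_mul_sum, Finset.mul_sum]
    refine Finset.sum_congr rfl fun i _ => ?_
    rw [Finset.mul_sum]
    exact Finset.sum_congr rfl fun j _ => by ring
  simp only [h3]
  rw [Finset.sum_comm]
  refine Finset.sum_congr rfl fun i _ => ?_
  rw [Finset.sum_comm]

theorem uu_iso (l l' : Fin d → ℝ) (hl : ∑ i, l i ^ 2 = 1) (hl' : ∑ i, l' i ^ 2 = 1) (n : ℕ) :
    uu p l n = uu p l' n := by
  have key : ∀ l : Fin d → ℝ, ∑ i, l i ^ 2 = 1 → ∀ i0 : Fin d, uu p l n = Bij p n i0 i0 := by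
    intro l hl i0
    rw [uu_eq_sum]
    have h1 : ∀ i, ∑ j, l i * l j * Bij p n i j = l i ^ 2 * Bij p n i0 i0 := by
      intro i
      rw [Finset.sum_eq_single i]
      · rw [Bij_diag n i i0]
        ring
      · intro j _ hj
        rw [Bij_off n i j (Ne.symm hj), mul_zero]
      · intro h
        exact absurd (Finset.mem_univ i) h
    simp only [h1]
    rw [← Finset.sum_mul, hl, one_mul]
  rcases Nat.eq_zero_or_pos d with h | h
  · subst h
    simp at hl
  · rw [key l hl ⟨0, h⟩, key l' hl' ⟨0, h⟩]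

end Ein99.CL
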