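import Pool.Agent.LibEinU.CL_Main2
import Pool.Agent.LibEinU.CL_Levy
import Pool.Agent.LibEinU.CL_Sym
import Pool.Agent.LibEin99.B_Upper

/-!
The annealed central limit theorem for the simple random walk on the infinite cluster.
-/

open MeasureTheory ProbabilityTheory Filter Topology

namespace Ein99.CL

variable {d : ℕ} {p : unitInterval} {K : ℕ} {C c : ℝ}

/-- The annealed central limit theorem in a fixed direction. -/
theorem clt (hd : 1 ≤ d) (hH : HypH d p K C c) (l : Fin d → ℝ) (hl : ∑ i, l i ^ 2 = 1)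
    (S : ℝ) (hS0 : 0 ≤ S) (hS : Tendsto (fun n : ℕ => 2 * al p l n) atTop (𝓝 S)) :
    IsDiff d p l ⟨S / kap d p, div_nonneg hS0 (kap_pos hH).le⟩ :=
  levy l _ (theta_pos hH) (fun θ => walk_cos hd hH l hl S hS θ)
    (fun θ => walk_sin hd hH l hl S hS θ)

/-- The annealed central limit theorem: the diffusion constant exists and does not depend on the
direction. -/
theorem clt_iso (hd : 1 ≤ d) (hH : HypH d p K C c) :
    ∃ s : NNReal, ∀ l : Fin d → ℝ, ∑ i, l i ^ 2 = 1 → IsDiff d p l s := by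
  obtain ⟨l0, hl0⟩ : ∃ l0 : Fin d → ℝ, ∑ i, l0 i ^ 2 = 1 := by
    refine ⟨Pi.single ⟨0, hd⟩ 1, ?_⟩
    rw [Finset.sum_eq_single (⟨0, hd⟩ : Fin d)]
    · simp
    · intro j _ hj
      rw [Pi.single_eq_of_ne hj]
      norm_num
    · intro h
      exact absurd (Finset.mem_univ _) h
  obtain ⟨S, hS0, hS1, -⟩ := uu_lim p l0 hl0
  refine ⟨⟨S / kap d p, div_nonneg hS0 (kap_pos hH).le⟩, fun l hl => ?_⟩
  refine clt hd hH l hl S hS0 ?_
  have h : (fun n : ℕ => 2 * al p l n) = fun n : ℕ => 2 * al p l0 n := by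
    funext n
    unfold al
    rw [uu_iso l l0 hl hl0, uu_iso l l0 hl hl0]
  rw [h]
  exact hS1

end Ein99.CL
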