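import Pool.Agent.LibEinU.CL_V
import Pool.Agent.LibEin99.E_Erg

/-!
TASK CL_Mean. The mean ergodic theorem for additive functionals.

`Ae_conv`: `qi (Ae^[N] f)(Ae^[N] f) → 0`. With `w = (1/2) ∑_{i<N} Ae^[i] f`: `f - Ae^[N] f = w - Pe w` pointwise
(`Ein99.Ae_eq`), so `Sn f n = Sn (Ae^[N] f) n + w - Pe^[n] w` and
`qi f (Sn f n) = ∑_{m<n} qi f (Pe^[m] (Ae^[N] f)) + qi f w - qi f (Pe^[n] w)
≤ n √(qi f f) √(qi (Ae^[N] f)(Ae^[N] f)) + 2 √(qi f f) √(qi w w)` (`qi_cs`, `Pe_con` iterated).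
Insert into `AF_int` (drop `- n qi f f ≤ 0`), divide by `n²`: for `ε` choose `N`, then `n` large. The quotient
is nonnegative (`AFn_nonneg`).
-/

open MeasureTheory ProbabilityTheory Filter Topology

namespace Ein99.CL

variable {d : ℕ} {p : unitInterval} {K : ℕ} {C c : ℝ}

theorem clMean_BM_Ae_iter {f : Om d → ℝ} (hf : BM f) (N : ℕ) : BM (Ein99.Ae^[N] f) := by
  induction N with
  | zero => exact hf
  | succ N ih =>
    rw [Function.iterate_succ_apply']
    exact BM.Ae ih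

theorem clMean_BM_sum {f : ℕ → Om d → ℝ} (hf : ∀ i, BM (f i)) (N : ℕ) :
    BM (fun ω => ∑ i ∈ Finset.range N, f i ω) := by
  induction N with
  | zero => simpa using (BM.const (d := d) 0)
  | succ N ih =>
    have h : (fun ω => ∑ i ∈ Finset.range (N + 1), f i ω)
        = fun ω => (∑ i ∈ Finset.range N, f i ω) + f N ω := by
      funext ω; rw [Finset.sum_range_succ]
    rw [h]
    exact BM.add ih (hf N)

theorem clMean_qi_add_right {f g h : Om d → ℝ} (hf : BM f) (hg : BM g) (hh : BM h) :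
    qi p f (fun ω => g ω + h ω) = qi p f g + qi p f h := by
  rw [qi_comm, qi_add_left hg hh hf, qi_comm g f, qi_comm h f]

theorem clMean_qi_sub_right {f g h : Om d → ℝ} (hf : BM f) (hg : BM g) (hh : BM h) :
    qi p f (fun ω => g ω - h ω) = qi p f g - qi p f h := by
  rw [qi_comm, qi_sub_left hg hh hf, qi_comm g f, qi_comm h f]

theorem clMean_con_iter {g : Om d → ℝ} (hg : BM g) (m : ℕ) :
    qi p (Pe^[m] g) (Pe^[m] g) ≤ qi p g g := by
  induction m with
  | zero => exact le_refl _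
  | succ m ih =>
    rw [Function.iterate_succ_apply']
    exact (Pe_con (BM.Pe_iter hg m)).trans ih

theorem clMean_cs_iter {f g : Om d → ℝ} (hf : BM f) (hg : BM g) (m : ℕ) :
    |qi p f (Pe^[m] g)| ≤ Real.sqrt (qi p f f) * Real.sqrt (qi p g g) :=
  (qi_cs hf (BM.Pe_iter hg m)).trans
    (mul_le_mul_of_nonneg_left (Real.sqrt_le_sqrt (clMean_con_iter hg m)) (Real.sqrt_nonneg _))

theorem clMean_qi_Sn {f g : Om d → ℝ} (hf : BM f) (hg : BM g) (n : ℕ) :
    qi p f (Sn g n) ≤ n * (Real.sqrt (qi p f f) * Real.sqrt (qi p g g)) := by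
  induction n with
  | zero =>
    have h : Sn g 0 = fun _ => (0 : ℝ) := by funext ω; simp [Sn]
    rw [h]
    simp [qi]
  | succ n ih =>
    have h : Sn g (n + 1) = fun ω => Sn g n ω + (Pe^[n] g) ω := by
      funext ω; simp only [Sn]; rw [Finset.sum_range_succ]
    rw [h, clMean_qi_add_right hf (BM.Sn hg n) (BM.Pe_iter hg n)]
    have h1 := le_trans (le_abs_self _) (clMean_cs_iter (p := p) hf hg n)
    push_cast
    linarith

theorem clMean_Pe_sub (f g : Om d → ℝ) (ω : Om d) :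
    Pe (fun ω => f ω - g ω) ω = Pe f ω - Pe g ω := by
  have h : (fun ω => f ω - g ω) = fun ω => f ω + (-1) * g ω := by funext ω; ring
  rw [h, Pe_add, Pe_smul]
  ring

theorem clMean_tele (f : Om d → ℝ) (N : ℕ) (ω : Om d) :
    f ω = (Ein99.Ae^[N] f) ω
      + ((1 / 2) * ∑ i ∈ Finset.range N, (Ein99.Ae^[i] f) ω)
      - Pe (fun ω => (1 / 2) * ∑ i ∈ Finset.range N, (Ein99.Ae^[i] f) ω) ω := by
  rw [Pe_smul, Pe_sum]
  induction N with
  | zero => simp
  | succ N ih =>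
    rw [Finset.sum_range_succ, Finset.sum_range_succ, Function.iterate_succ_apply', Ae_eq]
    have h : Pe (fun ω => (Ein99.Ae^[N] f) ω) ω = Pe (Ein99.Ae^[N] f) ω := rfl
    rw [h]
    linarith

theorem clMean_iter (f g w : Om d → ℝ) (h : ∀ ω, f ω = g ω + w ω - Pe w ω) (m : ℕ) (ω : Om d) :
    (Pe^[m] f) ω = (Pe^[m] g) ω + (Pe^[m] w) ω - (Pe^[m + 1] w) ω := by
  induction m generalizing ω with
  | zero => exact h ω
  | succ m ih =>
    rw [Function.iterate_succ_apply' Pe m f, Function.iterate_succ_apply' Pe m g,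
      Function.iterate_succ_apply' Pe m w, Function.iterate_succ_apply' Pe (m + 1) w]
    have e : (Pe^[m] f) = fun ω => ((fun ω => (Pe^[m] g) ω + (Pe^[m] w) ω) ω)
        - (Pe^[m + 1] w) ω := by
      funext ω; exact ih ω
    rw [e, clMean_Pe_sub, Pe_add]

theorem clMean_Sn (f g w : Om d → ℝ) (h : ∀ ω, f ω = g ω + w ω - Pe w ω) (n : ℕ) (ω : Om d) :
    Sn f n ω = Sn g n ω + w ω - (Pe^[n] w) ω := by
  induction n with
  | zero => simp [Sn]
  | succ n ih =>
    have h1 : Sn f (n + 1) ω = Sn f n ω + (Pe^[n] f) ω := by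
      simp only [Sn]; rw [Finset.sum_range_succ]
    have h2 : Sn g (n + 1) ω = Sn g n ω + (Pe^[n] g) ω := by
      simp only [Sn]; rw [Finset.sum_range_succ]
    rw [h1, h2, ih, clMean_iter f g w h n ω]
    ring

theorem clMean_bound {f g w : Om d → ℝ} (hf : BM f) (hg : BM g) (hw : BM w)
    (h : ∀ ω, f ω = g ω + w ω - Pe w ω) (n : ℕ) :
    ∫ ω, dg ω * AFn f n ω ∂(nu d p)
      ≤ 2 * (Real.sqrt (qi p f f) * Real.sqrt (qi p g g)) * (n : ℝ) ^ 2
        + 4 * (Real.sqrt (qi p f f) * Real.sqrt (qi p w w)) * n := by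
  have hA : 0 ≤ Real.sqrt (qi p f f) * Real.sqrt (qi p g g) :=
    mul_nonneg (Real.sqrt_nonneg _) (Real.sqrt_nonneg _)
  have key : ∀ m : ℕ, qi p f (Sn f m) ≤ m * (Real.sqrt (qi p f f) * Real.sqrt (qi p g g))
      + 2 * (Real.sqrt (qi p f f) * Real.sqrt (qi p w w)) := by
    intro m
    have e : Sn f m = fun ω => ((fun ω => Sn g m ω + w ω) ω) - (Pe^[m] w) ω := by
      funext ω; exact clMean_Sn f g w h m ω
    rw [e, clMean_qi_sub_right hf ((BM.Sn hg m).add hw) (BM.Pe_iter hw m),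
      clMean_qi_add_right hf (BM.Sn hg m) hw]
    have h1 := clMean_qi_Sn (p := p) hf hg m
    have h2 := le_trans (le_abs_self _) (qi_cs (p := p) hf hw)
    have h3 := le_trans (neg_le_abs _) (clMean_cs_iter (p := p) hf hw m)
    linarith
  rw [AF_int hf n]
  have h1 : ∑ j ∈ Finset.range n, qi p f (Sn f (j + 1)) ≤
      ∑ _j ∈ Finset.range n, ((n : ℝ) * (Real.sqrt (qi p f f) * Real.sqrt (qi p g g))
        + 2 * (Real.sqrt (qi p f f) * Real.sqrt (qi p w w))) := by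
    refine Finset.sum_le_sum (fun j hj => (key (j + 1)).trans ?_)
    have hj' : ((j + 1 : ℕ) : ℝ) ≤ n := by
      exact_mod_cast Finset.mem_range.1 hj
    have := mul_le_mul_of_nonneg_right hj' hA
    linarith
  rw [Finset.sum_const, Finset.card_range, nsmul_eq_mul] at h1
  have h2 : 0 ≤ (n : ℝ) * qi p f f := mul_nonneg (Nat.cast_nonneg _) (qi_self_nonneg f)
  nlinarith [h1, h2]

theorem mean_zero (hd : 1 ≤ d) (hH : HypH d p K C c) (f : Om d → ℝ) (hf : BM f)
    (h0 : ∫ ω, dg ω * f ω ∂(nu d p) = 0) :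
    Tendsto (fun n : ℕ => (∫ ω, dg ω * AFn f n ω ∂(nu d p)) / (n : ℝ) ^ 2) atTop (𝓝 0) := by
  have hconv := Ae_conv hd hH f hf.1 hf.2 h0
  have hq : ∀ j, qi p (Ein99.Ae^[j] f) (Ein99.Ae^[j] f)
      = ∫ ω, dg ω * ((Ae^[j] f) ω) ^ 2 ∂(nu d p) := by
    intro j
    unfold qi
    refine integral_congr_ae (Eventually.of_forall (fun ω => ?_))
    simp only [sq]
  have hconv2 : Tendsto (fun j : ℕ => 2 * (Real.sqrt (qi p f f)
      * Real.sqrt (qi p (Ein99.Ae^[j] f) (Ein99.Ae^[j] f)))) atTop (𝓝 0) := by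
    have h1 : Tendsto (fun j : ℕ => Real.sqrt (qi p (Ein99.Ae^[j] f) (Ein99.Ae^[j] f)))
        atTop (𝓝 0) := by
      have h2 := (Real.continuous_sqrt.tendsto _).comp hconv
      rw [Real.sqrt_zero] at h2
      refine h2.congr (fun j => ?_)
      simp only [Function.comp]
      rw [hq j]
    have h3 := (h1.const_mul (Real.sqrt (qi p f f))).const_mul 2
    simpa using h3
  have hnn : ∀ n : ℕ, 0 ≤ (∫ ω, dg ω * AFn f n ω ∂(nu d p)) / (n : ℝ) ^ 2 := fun n =>
    div_nonneg (integral_nonneg (fun ω => mul_nonneg (dg_nonneg ω) (AFn_nonneg f n ω)))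
      (sq_nonneg _)
  rw [Metric.tendsto_atTop]
  intro ε hε
  obtain ⟨N, hN⟩ := (Metric.tendsto_atTop.1 hconv2 (ε / 2) (by linarith))
  have hN' := hN N le_rfl
  rw [Real.dist_eq, sub_zero] at hN'
  have hN2 := lt_of_le_of_lt (le_abs_self _) hN'
  set g : Om d → ℝ := Ein99.Ae^[N] f with hgdef
  set w : Om d → ℝ := fun ω => (1 / 2) * ∑ i ∈ Finset.range N, (Ein99.Ae^[i] f) ω with hwdef
  have hg : BM g := clMean_BM_Ae_iter hf N
  have hw : BM w := BM.smul (1 / 2) (clMean_BM_sum (fun i => clMean_BM_Ae_iter hf i) N)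
  have hrel : ∀ ω, f ω = g ω + w ω - Pe w ω := fun ω => clMean_tele f N ω
  set W : ℝ := 4 * (Real.sqrt (qi p f f) * Real.sqrt (qi p w w)) with hW
  have hW0 : 0 ≤ W := by positivity
  obtain ⟨n0, hn0⟩ := exists_nat_gt (2 * W / ε)
  refine ⟨n0 + 1, fun n hn => ?_⟩
  have hnpos : (0 : ℝ) < n := by
    exact_mod_cast lt_of_lt_of_le (Nat.succ_pos n0) hn
  have hnn0 : (n0 : ℝ) < n := by exact_mod_cast lt_of_lt_of_le (Nat.lt_succ_self n0) hn
  rw [Real.dist_eq, sub_zero, abs_of_nonneg (hnn n), div_lt_iff₀ (by positivity)]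
  refine lt_of_le_of_lt (clMean_bound (p := p) hf hg hw hrel n) ?_
  have h1 : W * n < ε / 2 * (n : ℝ) ^ 2 := by
    have h2 : 2 * W / ε < n := hn0.trans hnn0
    rw [div_lt_iff₀ hε] at h2
    nlinarith
  have h3 : 2 * (Real.sqrt (qi p f f) * Real.sqrt (qi p g g)) * (n : ℝ) ^ 2
      ≤ ε / 2 * (n : ℝ) ^ 2 := mul_le_mul_of_nonneg_right hN2.le (sq_nonneg _)
  linarith

end Ein99.CL
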