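import Pool.Agent.LibEinU.CL_Qi
import Pool.Agent.LibEin99.F_Ip

/-!
TASK CL_Neg. The H_{-1} bound.

`Sn_even`: `Sn f (2j) = ∑_{i<j} (Pe^[2i] f + Pe^[2i+1] f)` and `qi f (Pe^[2i] g) = qi (Pe^[i] f) (Pe^[i] g)`
(`Pe_sym`), so `qi f (Pe^[2i] f) + qi f (Pe^[2i+1] f) = qi h h + qi h (Pe h) ≥ 0`, `h = Pe^[i] f` (`Pe_pos`).
`dual`: `2 qi f φ = ∫ ∑ oo H φ = -(1/2) ∫ ∑ oo H gr φ` by `rev_int` (with `F ω δ = H ω δ * φ ω`) and the
antisymmetry of `H`; then `ip_cs`.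
`Sn_le`: with `φ = Sn f j`: `φ - Pe φ = f - Pe^[j] f` (telescoping), so by `Pe_dirichlet`
`(1/2) ip (gr φ)(gr φ) = qi φ f - qi φ (Pe^[j] f) = s_j - (s_{2j} - s_j) = 2 s_j - s_{2j} ≤ 2 s_j`, where
`qi (Sn f j) (Pe^[j] f) = qi f (Pe^[j] (Sn f j)) = s_{2j} - s_j`. So
`s_j² ≤ (1/16) ip H H * 2 (2 s_j)`, i.e. `s_j ≤ ip H H/4`.
-/

open MeasureTheory ProbabilityTheory Filter Topology

namespace Ein99.CL

variable {d : ℕ} {p : unitInterval}

private theorem CL_Neg_iter (m : ℕ) : ∀ (n : ℕ) {f g : Om d → ℝ} (_ : BM f) (_ : BM g),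
    qi p f (Pe^[m + n] g) = qi p (Pe^[m] f) (Pe^[n] g) := by
  induction m with
  | zero =>
    intro n f g _ _
    rw [zero_add]
    rfl
  | succ m ih =>
    intro n f g hf hg
    have h1 : Pe^[m + 1 + n] g = Pe (Pe^[m + n] g) := by
      rw [← Function.iterate_succ_apply' Pe (m + n) g]
      congr 1
      omega
    rw [h1, Pe_sym hf (hg.Pe_iter (m + n)), ih n hf.Pe hg, Function.iterate_succ_apply]

private theorem CL_Neg_qSn {f g : Om d → ℝ} (hf : BM f) (hg : BM g) (n : ℕ) :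
    qi p g (Sn f n) = ∑ m ∈ Finset.range n, qi p g (Pe^[m] f) := by
  induction n with
  | zero =>
    have h : Sn f 0 = fun _ => (0 : ℝ) * 0 := by
      funext ω
      simp [Sn]
    rw [h, Finset.sum_range_zero, qi_comm, qi_smul_left, zero_mul]
  | succ n ih =>
    have h : Sn f (n + 1) = fun ω => Sn f n ω + (Pe^[n] f) ω := by
      funext ω
      simp [Sn, Finset.sum_range_succ]
    rw [h, qi_comm, qi_add_left (hf.Sn n) (hf.Pe_iter n) hg, qi_comm, ih, Finset.sum_range_succ,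
      qi_comm (Pe^[n] f) g]

theorem Sn_even {f : Om d → ℝ} (hf : BM f) (j : ℕ) : 0 ≤ qi p f (Sn f (2 * j)) := by
  induction j with
  | zero =>
    rw [CL_Neg_qSn hf hf]
    simp
  | succ j ih =>
    rw [CL_Neg_qSn hf hf] at ih ⊢
    have h1 : 2 * (j + 1) = 2 * j + 1 + 1 := by ring
    rw [h1, Finset.sum_range_succ, Finset.sum_range_succ]
    have h2 : qi p f (Pe^[2 * j] f) = qi p (Pe^[j] f) (Pe^[j] f) := by
      have := CL_Neg_iter (p := p) j j hf hf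
      rwa [← two_mul] at this
    have h3 : qi p f (Pe^[2 * j + 1] f) = qi p (Pe^[j] f) (Pe (Pe^[j] f)) := by
      have := CL_Neg_iter (p := p) j (j + 1) hf hf
      rw [← add_assoc, ← two_mul, Function.iterate_succ_apply' Pe j f] at this
      exact this
    have h4 := Pe_pos (p := p) (hf.Pe_iter j)
    rw [h2, h3]
    linarith

private theorem CL_Neg_SqI (H : Fld d) (hH : ∀ δ, BM (fun ω => H ω δ)) : SqI p H := by
  choose hm B hB using hH
  have hB0 : ∀ δ, 0 ≤ B δ := fun δ => (abs_nonneg _).trans (hB δ (fun _ => false))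
  refine SqI.of_bounded hm (∑ δ, B δ) fun ω δ => ?_
  exact (hB δ ω).trans (Finset.single_le_sum (f := fun δ => B δ) (fun δ _ => hB0 δ)
    (Finset.mem_univ δ))

private theorem CL_Neg_gr {φ : Om d → ℝ} (hφ : BM φ) : ∀ δ, BM (fun ω => gr φ ω δ) := by
  intro δ
  exact (hφ.sh (st δ)).sub hφ

private theorem CL_Neg_dual {f φ : Om d → ℝ} (hφ : BM φ) (H : Fld d)
    (hH : ∀ δ, BM (fun ω => H ω δ))
    (hA : Anti H) (hdiv : ∀ ω, 2 * (dg ω * f ω) = ∑ δ, oo ω δ * H ω δ) :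
    4 * qi p f φ = - ip p H (gr φ) := by
  have hF : ∀ δ, BM (fun ω => H ω δ * φ ω) := fun δ => (hH δ).mul hφ
  have hG : ∀ δ, BM (fun ω => H ω δ * φ (sh (st δ) ω)) := fun δ => (hH δ).mul (hφ.sh (st δ))
  have hint : ∀ (F : Fld d), (∀ δ, BM (fun ω => F ω δ)) →
      Integrable (fun ω => ∑ δ, oo ω δ * |F ω δ|) (nu d p) ∧
      Integrable (fun ω => ∑ δ, oo ω δ * F ω δ) (nu d p) := by
    intro F hF
    have h1 : Integrable (fun ω => ∑ δ, oo ω δ * |F ω δ|) (nu d p) := by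
      refine integrable_finsetSum _ fun δ _ => ?_
      obtain ⟨hm, B, hB⟩ := hF δ
      have hbm : BM (fun ω => oo ω δ * |F ω δ|) := by
        refine ⟨(measurable_oo δ).mul hm.abs, B, fun ω => ?_⟩
        rw [abs_mul, abs_abs, abs_of_nonneg (oo_nonneg ω δ)]
        calc oo ω δ * |F ω δ| ≤ 1 * |F ω δ| :=
              mul_le_mul_of_nonneg_right (oo_le_one ω δ) (abs_nonneg _)
          _ = |F ω δ| := one_mul _
          _ ≤ B := hB ω
      exact hbm.integrable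
    exact ⟨h1, Ein99.int_oo_of_abs p F (fun δ => (hF δ).1) h1⟩
  have e1 : 2 * qi p f φ = ∫ ω, ∑ δ, oo ω δ * (H ω δ * φ ω) ∂(nu d p) := by
    unfold qi
    rw [← integral_const_mul]
    refine integral_congr_ae (Filter.Eventually.of_forall fun ω => ?_)
    show 2 * (dg ω * (f ω * φ ω)) = ∑ δ, oo ω δ * (H ω δ * φ ω)
    calc 2 * (dg ω * (f ω * φ ω)) = (2 * (dg ω * f ω)) * φ ω := by ring
      _ = (∑ δ, oo ω δ * H ω δ) * φ ω := by rw [hdiv]
      _ = ∑ δ, oo ω δ * (H ω δ * φ ω) := by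
        rw [Finset.sum_mul]
        refine Finset.sum_congr rfl fun δ _ => ?_
        ring
  have e2 := rev_int p (fun ω δ => H ω δ * φ ω) (fun δ => (hF δ).1)
    (hint (fun ω δ => H ω δ * φ ω) hF).1
  have e3 : ∫ ω, ∑ δ, oo ω δ * (H (sh (st δ) ω) (rv δ) * φ (sh (st δ) ω)) ∂(nu d p) =
      - ∫ ω, ∑ δ, oo ω δ * (H ω δ * φ (sh (st δ) ω)) ∂(nu d p) := by
    rw [← integral_neg]
    refine integral_congr_ae (Filter.Eventually.of_forall fun ω => ?_)
    show ∑ δ, oo ω δ * (H (sh (st δ) ω) (rv δ) * φ (sh (st δ) ω)) =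
      - ∑ δ, oo ω δ * (H ω δ * φ (sh (st δ) ω))
    rw [← Finset.sum_neg_distrib]
    refine Finset.sum_congr rfl fun δ _ => ?_
    by_cases ho : opn ω 0 δ
    · rw [hA ω δ ho]
      ring
    · have : oo ω δ = 0 := by
        unfold oo
        rw [if_neg ho]
      rw [this]
      ring
  have e4 : ip p H (gr φ) = (∫ ω, ∑ δ, oo ω δ * (H ω δ * φ (sh (st δ) ω)) ∂(nu d p)) -
      ∫ ω, ∑ δ, oo ω δ * (H ω δ * φ ω) ∂(nu d p) := by
    unfold ip gr
    rw [← integral_sub (hint (fun ω δ => H ω δ * φ (sh (st δ) ω)) hG).2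
      (hint (fun ω δ => H ω δ * φ ω) hF).2]
    refine integral_congr_ae (Filter.Eventually.of_forall fun ω => ?_)
    show ∑ δ, oo ω δ * (H ω δ * (φ (sh (st δ) ω) - φ ω)) =
      (∑ δ, oo ω δ * (H ω δ * φ (sh (st δ) ω))) - ∑ δ, oo ω δ * (H ω δ * φ ω)
    rw [← Finset.sum_sub_distrib]
    refine Finset.sum_congr rfl fun δ _ => ?_
    ring
  rw [e3] at e2
  linarith

theorem dual {f φ : Om d → ℝ} (hf : BM f) (hφ : BM φ) (H : Fld d) (hH : ∀ δ, BM (fun ω => H ω δ))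
    (hA : Anti H) (hdiv : ∀ ω, 2 * (dg ω * f ω) = ∑ δ, oo ω δ * H ω δ) :
    |qi p f φ| ≤ (1 / 4) * (Real.sqrt (ip p H H) * Real.sqrt (ip p (gr φ) (gr φ))) := by
  have h1 := CL_Neg_dual (p := p) hφ H hH hA hdiv
  have h2 := ip_cs (p := p) (CL_Neg_SqI H hH) (CL_Neg_SqI (gr φ) (CL_Neg_gr hφ))
  have h3 : qi p f φ = -(1 / 4) * ip p H (gr φ) := by linarith
  rw [h3, abs_mul]
  have h4 : |(-(1 / 4) : ℝ)| = 1 / 4 := by
    rw [abs_neg, abs_of_pos (by norm_num)]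
  rw [h4]
  exact mul_le_mul_of_nonneg_left h2 (by norm_num)

theorem Sn_le {f : Om d → ℝ} (hf : BM f) (H : Fld d) (hH : ∀ δ, BM (fun ω => H ω δ))
    (hA : Anti H) (hdiv : ∀ ω, 2 * (dg ω * f ω) = ∑ δ, oo ω δ * H ω δ) (j : ℕ) :
    qi p f (Sn f j) ≤ ip p H H / 4 := by
  have hφ : BM (Sn f j) := hf.Sn j
  have h1 := dual (p := p) hf hφ H hH hA hdiv
  have h2 := Pe_dirichlet (p := p) hφ
  have hHn := ip_self_nonneg (p := p) H
  have hGn := ip_self_nonneg (p := p) (gr (Sn f j))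
  -- telescoping
  have h3 : (fun ω => Sn f j ω - Pe (Sn f j) ω) = fun ω => f ω - (Pe^[j] f) ω := by
    funext ω
    have hPS : Pe (Sn f j) ω = ∑ m ∈ Finset.range j, (Pe^[m + 1] f) ω := by
      have := Pe_sum (Finset.range j) (fun m => Pe^[m] f) ω
      have h5 : (fun ω => ∑ i ∈ Finset.range j, (Pe^[i] f) ω) = Sn f j := rfl
      rw [h5] at this
      rw [this]
      refine Finset.sum_congr rfl fun m _ => ?_
      rw [Function.iterate_succ_apply' Pe m f]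
    rw [hPS]
    unfold Sn
    rw [← Finset.sum_sub_distrib]
    have h6 := Finset.sum_range_sub' (fun m => (Pe^[m] f) ω) j
    simpa using h6
  have h4 : qi p (Sn f j) (Sn f j) - qi p (Sn f j) (Pe (Sn f j)) =
      qi p f (Sn f j) - qi p (Sn f j) (Pe^[j] f) := by
    rw [qi_comm (Sn f j) (Pe (Sn f j)), ← qi_sub_left hφ hφ.Pe hφ, h3,
      qi_sub_left hf (hf.Pe_iter j) hφ, qi_comm (Pe^[j] f) (Sn f j)]
  have h5 : qi p (Sn f j) (Pe^[j] f) = qi p f (Sn f (2 * j)) - qi p f (Sn f j) := by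
    rw [qi_comm, CL_Neg_qSn hf (hf.Pe_iter j), CL_Neg_qSn hf hf, CL_Neg_qSn hf hf, two_mul,
      Finset.sum_range_add, add_sub_cancel_left]
    refine Finset.sum_congr rfl fun m _ => ?_
    rw [CL_Neg_iter j m hf hf]
  have h6 := Sn_even (p := p) hf j
  have h7 : ip p (gr (Sn f j)) (gr (Sn f j)) ≤ 4 * qi p f (Sn f j) := by linarith
  by_cases hs : qi p f (Sn f j) ≤ 0
  · linarith
  · push Not at hs
    rw [abs_of_pos hs, ← Real.sqrt_mul hHn] at h1
    have h8 : qi p f (Sn f j) ^ 2 ≤ (1 / 16) * (ip p H H * (4 * qi p f (Sn f j))) := by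
      calc qi p f (Sn f j) ^ 2 ≤ ((1 / 4) * Real.sqrt (ip p H H *
            ip p (gr (Sn f j)) (gr (Sn f j)))) ^ 2 := pow_le_pow_left₀ hs.le h1 2
        _ = (1 / 16) * (ip p H H * ip p (gr (Sn f j)) (gr (Sn f j))) := by
          rw [mul_pow, Real.sq_sqrt (mul_nonneg hHn hGn)]
          norm_num
        _ ≤ (1 / 16) * (ip p H H * (4 * qi p f (Sn f j))) := by
          apply mul_le_mul_of_nonneg_left _ (by norm_num)
          exact mul_le_mul_of_nonneg_left h7 hHn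
    have h9 : qi p f (Sn f j) * qi p f (Sn f j) ≤ (ip p H H / 4) * qi p f (Sn f j) := by
      nlinarith
    exact le_of_mul_le_mul_right h9 hs

end Ein99.CL
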