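import Pool.Agent.LibEinU.CL_V
import Pool.Agent.LibEinU.CL_Neg
import Pool.Agent.LibEinU.CL_Cross

/-!
TASK CL_Rem. The remainder and the variance.

`rem_bound`: for `m ≥ k`: `ak k = (ak k - ak m) + ak m`, `AF_add`; `AF_int` and `Sn_le` for `f = ak k - ak m` with
`H = GPsi k - GPsi m` (`sum_GPsi`, `GPsi_anti`), `ip_diff`; `AF_trivial` for `ak m`:
`∫ dg AFn (ak k) n ≤ 2 * (2 n * (4 al - 2S)/4) + 2 n² qi (ak m)(ak m)`; let `m → ∞` (`ak_zero`).
(`4 al - 2 S ≥ 0` because `2 al ≥ S`.)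
`mk_lim`: `∑ oo Mk² = ∑ oo GPsi² - 4 dg ak²` by `sum_GPsi`, so `kap mk = ip GPsi GPsi - 4 qi ak ak → S`.
`Mk_sum`: from `sum_GPsi`.
-/

open MeasureTheory ProbabilityTheory Filter Topology

namespace Ein99.CL

variable {d : ℕ} {p : unitInterval}

/-- integrals of the additive functionals of a sum -/
theorem CL_Rem_add {f g : Om d → ℝ} (hf : BM f) (hg : BM g) (n : ℕ) :
    ∫ ω, dg ω * AFn (fun ω => f ω + g ω) n ω ∂(nu d p)
      ≤ 2 * ∫ ω, dg ω * AFn f n ω ∂(nu d p) + 2 * ∫ ω, dg ω * AFn g n ω ∂(nu d p) := by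
  have i0 : Integrable (fun ω => dg ω * AFn (fun ω => f ω + g ω) n ω) (nu d p) :=
    (BM.dg.mul ((hf.add hg).AFn n)).integrable
  have i1 : Integrable (fun ω => dg ω * AFn f n ω) (nu d p) := (BM.dg.mul (hf.AFn n)).integrable
  have i2 : Integrable (fun ω => dg ω * AFn g n ω) (nu d p) := (BM.dg.mul (hg.AFn n)).integrable
  rw [← integral_const_mul, ← integral_const_mul, ← integral_add (i1.const_mul 2) (i2.const_mul 2)]
  refine integral_mono i0 ((i1.const_mul 2).add (i2.const_mul 2)) fun ω => ?_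
  have h := mul_le_mul_of_nonneg_left (AF_add f g n ω) (dg_nonneg ω)
  simp only
  linarith

theorem rem_bound (l : Fin d → ℝ) (hl : ∑ i, l i ^ 2 = 1) (S : ℝ)
    (hS : Tendsto (fun n : ℕ => 2 * al p l n) atTop (𝓝 S)) (k n : ℕ) :
    ∫ ω, dg ω * AFn (ak l k) n ω ∂(nu d p) ≤ n * (4 * al p l (2 * k) - 2 * S) := by
  have key : ∀ m, k ≤ m → ∫ ω, dg ω * AFn (ak l k) n ω ∂(nu d p)
      ≤ n * (4 * al p l (2 * k) - 2 * S) + 2 * ((n : ℝ) ^ 2 * qi p (ak l m) (ak l m)) := by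
    intro m hkm
    have hf : BM (fun ω : Om d => ak l k ω - ak l m ω) := (ak_BM l hl k).sub (ak_BM l hl m)
    have e : (ak l k : Om d → ℝ) = fun ω => (fun ω : Om d => ak l k ω - ak l m ω) ω + ak l m ω := by
      funext ω
      ring
    have h1 := CL_Rem_add (p := p) hf (ak_BM l hl m) n
    rw [← e] at h1
    have h2 := AF_trivial (p := p) (ak_BM l hl m) n
    have h3 := AF_int (p := p) hf n
    have hH : ∀ δ : Dir d, BM (fun ω => (fun ω δ => GPsi l k ω δ - GPsi l m ω δ : Fld d) ω δ) :=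
      fun δ => (GPsi_BM l hl k δ).sub (GPsi_BM l hl m δ)
    have hA : Anti (fun ω δ => GPsi l k ω δ - GPsi l m ω δ : Fld d) := by
      intro ω δ h
      simp only
      rw [GPsi_anti l k ω δ h, GPsi_anti l m ω δ h]
      ring
    have hdiv : ∀ ω : Om d, 2 * (dg ω * (fun ω : Om d => ak l k ω - ak l m ω) ω)
        = ∑ δ, oo ω δ * (fun ω δ => GPsi l k ω δ - GPsi l m ω δ : Fld d) ω δ := by
      intro ω
      simp only [mul_sub, Finset.sum_sub_distrib]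
      rw [sum_GPsi, sum_GPsi]
    have h4 : ∀ j, qi p (fun ω : Om d => ak l k ω - ak l m ω)
        (Sn (fun ω : Om d => ak l k ω - ak l m ω) j)
        ≤ (4 * al p l (2 * k) - 2 * S) / 4 := by
      intro j
      have h5 := Sn_le (p := p) hf _ hH hA hdiv j
      have h6 := ip_diff (p := p) l hl k m hkm S hS
      linarith
    have h7 : ∑ j ∈ Finset.range n, qi p (fun ω : Om d => ak l k ω - ak l m ω)
        (Sn (fun ω : Om d => ak l k ω - ak l m ω) (j + 1))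
        ≤ n * ((4 * al p l (2 * k) - 2 * S) / 4) := by
      refine (Finset.sum_le_sum fun j _ => h4 (j + 1)).trans (le_of_eq ?_)
      rw [Finset.sum_const, Finset.card_range, nsmul_eq_mul]
    have h8 : 0 ≤ (n : ℝ) * qi p (fun ω : Om d => ak l k ω - ak l m ω)
        (fun ω : Om d => ak l k ω - ak l m ω) :=
      mul_nonneg (Nat.cast_nonneg n) (qi_self_nonneg _)
    linarith
  have hlim : Tendsto (fun m : ℕ => (n : ℝ) * (4 * al p l (2 * k) - 2 * S)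
      + 2 * ((n : ℝ) ^ 2 * qi p (ak l m) (ak l m))) atTop
      (𝓝 ((n : ℝ) * (4 * al p l (2 * k) - 2 * S) + 2 * ((n : ℝ) ^ 2 * 0))) :=
    (((ak_zero (p := p) l hl).const_mul ((n : ℝ) ^ 2)).const_mul 2).const_add _
  rw [mul_zero, mul_zero, add_zero] at hlim
  refine ge_of_tendsto hlim ?_
  filter_upwards [eventually_ge_atTop k] with m hm
  exact key m hm

theorem Mk_sum (l : Fin d → ℝ) (k : ℕ) (ω : Om d) : ∑ δ, oo ω δ * Mk l k ω δ = 0 := by
  have h : ∑ δ, oo ω δ * Mk l k ω δ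
      = ∑ δ, oo ω δ * GPsi l k ω δ - ∑ δ, oo ω δ * (2 * ak l k ω) := by
    rw [← Finset.sum_sub_distrib]
    refine Finset.sum_congr rfl fun δ _ => ?_
    unfold Mk
    ring
  rw [h, sum_GPsi, sum_oo_mul]
  ring

theorem Mk_bound (l : Fin d → ℝ) (hl : ∑ i, l i ^ 2 = 1) (k : ℕ) (ω : Om d) (δ : Dir d) :
    |Mk l k ω δ| ≤ 2 * k + 3 := by
  unfold Mk
  have h1 := abs_le.1 (GPsi_bound l hl k ω δ)
  have h2 := abs_le.1 (ak_bound l hl k ω)
  rw [abs_le]
  constructor <;> linarith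

theorem Mk_BM (l : Fin d → ℝ) (hl : ∑ i, l i ^ 2 = 1) (k : ℕ) (δ : Dir d) :
    BM (fun ω : Om d => Mk l k ω δ) :=
  (GPsi_BM l hl k δ).sub ((ak_BM l hl k).smul 2)

theorem gk_nonneg (l : Fin d → ℝ) (k : ℕ) (ω : Om d) : 0 ≤ gk l k ω :=
  div_nonneg (Finset.sum_nonneg fun δ _ => mul_nonneg (oo_nonneg ω δ) (sq_nonneg _)) (dg_nonneg ω)

theorem gk_bound (l : Fin d → ℝ) (hl : ∑ i, l i ^ 2 = 1) (k : ℕ) (ω : Om d) :
    gk l k ω ≤ (2 * k + 3) ^ 2 := by
  unfold gk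
  have h0 : (0 : ℝ) ≤ (2 * k + 3) ^ 2 := sq_nonneg _
  refine div_le_of_le_mul₀ (dg_nonneg ω) h0 ?_
  rw [mul_comm, ← sum_oo_mul]
  refine Finset.sum_le_sum fun δ _ => mul_le_mul_of_nonneg_left ?_ (oo_nonneg ω δ)
  rw [← sq_abs]
  exact pow_le_pow_left₀ (abs_nonneg _) (Mk_bound l hl k ω δ) 2

theorem gk_BM (l : Fin d → ℝ) (hl : ∑ i, l i ^ 2 = 1) (k : ℕ) : BM (gk l k : Om d → ℝ) := by
  refine ⟨?_, (2 * k + 3) ^ 2, fun ω => ?_⟩
  · exact (Finset.measurable_sum _ fun δ _ =>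
      (measurable_oo δ).mul ((Mk_BM l hl k δ).1.pow_const 2)).div measurable_dg
  · rw [abs_of_nonneg (gk_nonneg l k ω)]
    exact gk_bound l hl k ω

theorem CL_Rem_dg_gk (l : Fin d → ℝ) (k : ℕ) (ω : Om d) :
    dg ω * gk l k ω = ∑ δ, oo ω δ * (GPsi l k ω δ * GPsi l k ω δ)
      - 4 * (dg ω * (ak l k ω * ak l k ω)) := by
  have h1 : dg ω * gk l k ω = ∑ δ, oo ω δ * Mk l k ω δ ^ 2 := by
    unfold gk
    by_cases h : dg ω = 0
    · have h2 : ∀ δ, oo ω δ = 0 := by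
        have h3 := h
        unfold dg at h3
        rw [Finset.sum_eq_zero_iff_of_nonneg fun δ _ => oo_nonneg ω δ] at h3
        exact fun δ => h3 δ (Finset.mem_univ δ)
      simp [h2]
    · field_simp
  have h2 : ∑ δ, oo ω δ * Mk l k ω δ ^ 2 = ∑ δ, oo ω δ * (GPsi l k ω δ * GPsi l k ω δ)
      - 4 * ak l k ω * ∑ δ, oo ω δ * GPsi l k ω δ + ∑ δ, oo ω δ * (4 * ak l k ω ^ 2) := by
    rw [Finset.mul_sum, ← Finset.sum_sub_distrib, ← Finset.sum_add_distrib]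
    refine Finset.sum_congr rfl fun δ _ => ?_
    unfold Mk
    ring
  rw [h1, h2, sum_GPsi, sum_oo_mul]
  ring

theorem mk_lim (l : Fin d → ℝ) (hl : ∑ i, l i ^ 2 = 1) (S : ℝ)
    (hS : Tendsto (fun n : ℕ => 2 * al p l n) atTop (𝓝 S)) (hk : 0 < kap d p) :
    Tendsto (fun k : ℕ => mk p l k) atTop (𝓝 (S / kap d p)) := by
  unfold mk
  refine Tendsto.div_const ?_ _
  have e : ∀ k : ℕ, ∫ ω, dg ω * gk l k ω ∂(nu d p) = 2 * al p l (2 * k) - 4 * qi p (ak l k) (ak l k) := by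
    intro k
    have i1 : Integrable (fun ω => ∑ δ, oo ω δ * (GPsi l k ω δ * GPsi l k ω δ)) (nu d p) :=
      (SqI.GPsi l hl k).integrable_mul (SqI.GPsi l hl k)
    have i2 : Integrable (fun ω => 4 * (dg ω * (ak l k ω * ak l k ω))) (nu d p) :=
      ((BM.dg.mul ((ak_BM l hl k).mul (ak_BM l hl k))).smul 4).integrable
    have h1 : ∫ ω, dg ω * gk l k ω ∂(nu d p)
        = ∫ ω, (∑ δ, oo ω δ * (GPsi l k ω δ * GPsi l k ω δ)
          - 4 * (dg ω * (ak l k ω * ak l k ω))) ∂(nu d p) :=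
      integral_congr_ae (Eventually.of_forall fun ω => CL_Rem_dg_gk l k ω)
    rw [h1, integral_sub i1 i2, integral_const_mul]
    have h2 := ip_cross (p := p) l hl k k
    have h3 : k + k = 2 * k := by ring
    rw [h3] at h2
    unfold ip at h2
    rw [h2]
    rfl
  simp only [e]
  have h1 : Tendsto (fun k : ℕ => 2 * al p l (2 * k)) atTop (𝓝 S) :=
    hS.comp (tendsto_atTop_mono (fun k => Nat.le_mul_of_pos_left k (by norm_num)) tendsto_id)
  have h2 := h1.sub ((ak_zero (p := p) l hl).const_mul 4)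
  rw [mul_zero, sub_zero] at h2
  exact h2

end Ein99.CL
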