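import Pool.Agent.LibEinU.CL_PM
import Pool.Agent.LibEinU.CL_Rem
import Pool.Agent.LibEinU.CL_Mean

/-!
TASK CL_VL. Law of large numbers for the conditional variances.

Let `m = mk p l k`, `f ω = gk l k ω - m`, `∫ dg f = 0`. For `ω` with `InfC ω 0` (`Zw_ne_zero_of_InfC`):
`PFn ω (Fk l k ω) n (fun _ y => |y.2/n - m|) 0 (0,0) = PFn ω (fun x _ => gk (sh x ω)) n (fun _ w => |w/n - m|) 0 0`
(`PFn_map` with `φ x y = y.2`) `= PFn ω (fun x _ => f (sh x ω)) n (fun _ w => |w/n|) 0 0` (`PFn_drift` with `c = -m`: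
`f = gk + (-m)`) `≤ (1/n) √(AFn f n ω)` (`PFn_sq_le`). Integrate over `nu` (`dg ≥ 1` a.e.: `ae_one_le_dg`;
`∫ √AFn dnu ≤ √(tha ∫ AFn dnu)`, or `√a ≤ t + a/t`), `mean_zero`. Measurability: `measurable_PFn`.
-/

open MeasureTheory ProbabilityTheory Filter Topology

namespace Ein99.CL

variable {d : ℕ} {p : unitInterval} {K : ℕ} {C c : ℝ}

theorem CL_VL_kap_nonneg : 0 ≤ kap d p := integral_nonneg fun ω => dg_nonneg ω

theorem CL_VL_int_nonneg (l : Fin d → ℝ) (k : ℕ) : 0 ≤ ∫ ω, dg ω * gk l k ω ∂(nu d p) :=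
  integral_nonneg fun ω => mul_nonneg (dg_nonneg ω) (gk_nonneg l k ω)

theorem CL_VL_int_le (l : Fin d → ℝ) (hl : ∑ i, l i ^ 2 = 1) (k : ℕ) :
    ∫ ω, dg ω * gk l k ω ∂(nu d p) ≤ (2 * k + 3) ^ 2 * kap d p := by
  unfold kap
  rw [← integral_const_mul]
  refine integral_mono (BM.dg.mul (gk_BM l hl k)).integrable (BM.dg.smul _).integrable ?_
  intro ω
  show dg ω * gk l k ω ≤ (2 * k + 3) ^ 2 * dg ω
  rw [mul_comm]
  exact mul_le_mul_of_nonneg_right (gk_bound l hl k ω) (dg_nonneg ω)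

theorem mk_nonneg (l : Fin d → ℝ) (k : ℕ) : 0 ≤ mk p l k :=
  div_nonneg (CL_VL_int_nonneg l k) CL_VL_kap_nonneg

theorem mk_le (l : Fin d → ℝ) (hl : ∑ i, l i ^ 2 = 1) (k : ℕ) : mk p l k ≤ (2 * k + 3) ^ 2 :=
  div_le_of_le_mul₀ CL_VL_kap_nonneg (by positivity) (CL_VL_int_le l hl k)

theorem CL_VL_mean (l : Fin d → ℝ) (hl : ∑ i, l i ^ 2 = 1) (k : ℕ) :
    ∫ ω, dg ω * (gk l k ω + -mk p l k) ∂(nu d p) = 0 := by
  have h1 : ∫ ω, dg ω * (gk l k ω + -mk p l k) ∂(nu d p)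
      = ∫ ω, dg ω * gk l k ω ∂(nu d p) - mk p l k * kap d p := by
    unfold kap
    rw [← integral_const_mul, ← integral_sub (BM.dg.mul (gk_BM l hl k)).integrable
      (BM.dg.smul _).integrable]
    refine integral_congr_ae (Eventually.of_forall fun ω => ?_)
    show dg ω * (gk l k ω + -mk p l k) = dg ω * gk l k ω - mk p l k * dg ω
    ring
  rw [h1]
  rcases eq_or_ne (kap d p) 0 with hk | hk
  · have h2 := CL_VL_int_le (p := p) l hl k
    have h3 := CL_VL_int_nonneg (p := p) l k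
    rw [hk, mul_zero] at h2
    rw [hk]
    linarith
  · have : mk p l k * kap d p = ∫ ω, dg ω * gk l k ω ∂(nu d p) := by
      unfold mk
      exact div_mul_cancel₀ _ hk
    rw [this, sub_self]

theorem CL_VL_sqrt_le {a t : ℝ} (ha : 0 ≤ a) (ht : 0 < t) : Real.sqrt a ≤ t + a / t := by
  rcases le_total (Real.sqrt a) t with h | h
  · have : 0 ≤ a / t := by positivity
    linarith
  · have h1 : Real.sqrt a ≤ a / t := by
      rw [le_div_iff₀ ht]
      calc Real.sqrt a * t ≤ Real.sqrt a * Real.sqrt a :=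
            mul_le_mul_of_nonneg_left h (Real.sqrt_nonneg _)
        _ = a := Real.mul_self_sqrt ha
    linarith

theorem CL_VL_point (l : Fin d → ℝ) (k n : ℕ) (hn : 1 ≤ n) (m : ℝ) (ω : Om d) (hω : InfC ω 0) :
    PFn ω (Fk l k ω) n (fun _ y => |y.2 / n - m|) 0 ((0, 0) : ℝ × ℝ)
      ≤ Real.sqrt (AFn (fun ω => gk l k ω + -m) n ω / (n : ℝ) ^ 2) := by
  have hn0 : (0 : ℝ) < n := by exact_mod_cast hn
  have h1 : PFn ω (Fk l k ω) n (fun _ y => |y.2 / n - m|) 0 ((0, 0) : ℝ × ℝ)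
      = PFn ω (fun x _ => gk l k (sh x ω)) n (fun _ w => |w / n - m|) 0 (0 : ℝ) :=
    PFn_map ω (Fk l k ω) (fun x _ => gk l k (sh x ω)) (fun _ y => y.2) (fun _ _ _ _ => rfl) n
      (fun _ w => |w / n - m|) 0 ((0, 0) : ℝ × ℝ)
  have h2 := PFn_drift ω (fun x _ => gk l k (sh x ω)) (-m) n (fun w => |w / n|) 0 0
    (Zw_ne_zero_of_InfC ω hω)
  have h3 : (fun (_ : V d) (w : ℝ) => |(w + n * (-m)) / n|) = (fun (_ : V d) w => |w / n - m|) := by
    funext _ w
    congr 1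
    field_simp
    ring
  rw [h3] at h2
  rw [h1, ← h2]
  refine Real.le_sqrt_of_sq_le ?_
  refine (PFn_sq_le ω _ n (fun (_ : V d) (w : ℝ) => |w / n|) 0 (0 : ℝ)).trans (le_of_eq ?_)
  have h4 : (fun (_ : V d) (w : ℝ) => |w / n| ^ 2)
      = (fun (x : V d) (w : ℝ) => (1 / (n : ℝ) ^ 2) * (fun (_ : V d) (w : ℝ) => w ^ 2) x w) := by
    funext _ w
    rw [sq_abs]
    field_simp
  rw [h4, PFn_smul]
  unfold AFn
  rw [one_div, mul_comm, div_eq_mul_inv]

/-- the conditional variances satisfy the law of large numbers -/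
theorem V_lln (hd : 1 ≤ d) (hH : HypH d p K C c) (l : Fin d → ℝ) (hl : ∑ i, l i ^ 2 = 1) (k : ℕ) :
    Tendsto (fun n : ℕ => ∫ ω, PFn ω (Fk l k ω) n (fun _ y => |y.2 / n - mk p l k|) 0
      ((0, 0) : ℝ × ℝ) ∂(nu d p)) atTop (𝓝 0) := by
  have : IsFiniteMeasure (nu d p) := E_U_fin p
  set m := mk p l k with hm
  have hf : BM (fun ω : Om d => gk l k ω + -m) := (gk_BM l hl k).add (BM.const _)
  have hD := mean_zero hd hH (fun ω : Om d => gk l k ω + -m) hf (CL_VL_mean l hl k)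
  set D : ℕ → ℝ := fun n => (∫ ω, dg ω * AFn (fun ω => gk l k ω + -m) n ω ∂(nu d p)) / (n : ℝ) ^ 2
    with hDdef
  have hnn : ∀ n : ℕ, 0 ≤ ∫ ω, PFn ω (Fk l k ω) n (fun _ y => |y.2 / n - m|) 0
      ((0, 0) : ℝ × ℝ) ∂(nu d p) := by
    intro n
    refine integral_nonneg fun ω => ?_
    have := PFn_mono ω (Fk l k ω) n (g := fun _ _ => (0 : ℝ)) (h := fun _ y => |y.2 / n - m|)
      (fun _ _ => abs_nonneg _) 0 (0, 0)
    rwa [PFn_const] at this
  have hup : ∀ t : ℝ, 0 < t → ∀ n : ℕ, 1 ≤ n → ∫ ω, PFn ω (Fk l k ω) n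
      (fun _ y => |y.2 / n - m|) 0 ((0, 0) : ℝ × ℝ) ∂(nu d p) ≤ t * tha d p + D n / t := by
    intro t ht n hn
    have hI : Integrable (fun ω => dg ω * AFn (fun ω => gk l k ω + -m) n ω) (nu d p) :=
      (BM.dg.mul (BM.AFn hf n)).integrable
    have hrhs : t * tha d p + D n / t = ∫ ω, (t + (dg ω * AFn (fun ω => gk l k ω + -m) n ω)
        * (1 / (n : ℝ) ^ 2 / t)) ∂(nu d p) := by
      rw [integral_add (integrable_const _) (hI.mul_const _), integral_const, integral_mul_const]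
      simp only [hDdef, tha, smul_eq_mul]
      ring
    rw [hrhs]
    refine integral_mono_of_nonneg (Eventually.of_forall fun ω => ?_)
      ((integrable_const _).add (hI.mul_const _)) ?_
    · have := PFn_mono ω (Fk l k ω) n (g := fun _ _ => (0 : ℝ)) (h := fun _ y => |y.2 / n - m|)
        (fun _ _ => abs_nonneg _) 0 (0, 0)
      rwa [PFn_const] at this
    · have hae : ∀ᵐ ω ∂(nu d p), InfC ω 0 := by
        unfold nu
        exact ae_restrict_mem (measurableSet_InfC 0)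
      filter_upwards [hae, ae_one_le_dg p] with ω hω hdg
      refine (CL_VL_point l k n hn m ω hω).trans ?_
      have h0 := AFn_nonneg (fun ω => gk l k ω + -m) n ω
      refine (CL_VL_sqrt_le (t := t) (by positivity) ht).trans ?_
      have hn0 : (0 : ℝ) < (n : ℝ) ^ 2 := by
        have : (0 : ℝ) < n := by exact_mod_cast hn
        positivity
      have h5 : AFn (fun ω => gk l k ω + -m) n ω ≤ dg ω * AFn (fun ω => gk l k ω + -m) n ω := by
        nlinarith
      have h6 : AFn (fun ω => gk l k ω + -m) n ω / (n : ℝ) ^ 2 / t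
          = AFn (fun ω => gk l k ω + -m) n ω * (1 / (n : ℝ) ^ 2 / t) := by ring
      show t + AFn (fun ω => gk l k ω + -m) n ω / (n : ℝ) ^ 2 / t
        ≤ t + dg ω * AFn (fun ω => gk l k ω + -m) n ω * (1 / (n : ℝ) ^ 2 / t)
      rw [h6]
      have := mul_le_mul_of_nonneg_right h5 (show 0 ≤ 1 / (n : ℝ) ^ 2 / t by positivity)
      linarith
  have hth : 0 ≤ tha d p := measureReal_nonneg
  rw [Metric.tendsto_atTop]
  intro ε hε
  set t := ε / (2 * (tha d p + 1)) with ht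
  have ht0 : 0 < t := by positivity
  have htt : t * tha d p < ε / 2 := by
    rw [ht, div_mul_eq_mul_div, div_lt_iff₀ (by positivity)]
    nlinarith
  have hD2 : Tendsto (fun n => D n / t) atTop (𝓝 (0 / t)) := hD.div_const t
  rw [zero_div] at hD2
  obtain ⟨N, hN⟩ := (Metric.tendsto_atTop.1 hD2) (ε / 2) (by positivity)
  refine ⟨max N 1, fun n hn => ?_⟩
  have hn1 : 1 ≤ n := le_trans (le_max_right _ _) hn
  have hnN : N ≤ n := le_trans (le_max_left _ _) hn
  have h7 := hN n hnN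
  rw [Real.dist_eq, sub_zero] at h7
  rw [Real.dist_eq, sub_zero, abs_of_nonneg (hnn n)]
  have h8 := hup t ht0 n hn1
  have h9 := le_abs_self (D n / t)
  linarith

end Ein99.CL
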