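import Pool.Agent.LibEinU.CL_Clt
import Pool.Agent.LibEinU.CL_VL

/-!
TASK CL_Main1. The central limit theorem for the martingale with fixed `k`.

`mart_est` with `F1 x δ = Mk l k (sh x ω) δ`, `G x = gk l k (sh x ω)` (`Mk_sum`, `Mk_bound`, `oo_sh`, `dg_sh` of `E_Ln.lean`),
`B = 2k+3`. Let `m = mk p l k`. For every `ω`: `|exp(θ²m/2) E cos(θM/√n) - 1| ≤ C/√n + E |exp(θ²m/2) - exp(θ²V/(2n))|`
and, as `0 ≤ V ≤ n B²` along the walk (`PFn_le_of_inv` with `I j x y := 0 ≤ y.2 ∧ y.2 ≤ j B²`, applied to the function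
`|exp(θ²m/2) - exp(θ² y.2/(2n))| - L |y.2/n - m|`, `L = θ² exp(θ²B²/2)` a Lipschitz constant, `0 ≤ m ≤ B²`),
`E|...| ≤ L E|V/n - m|`. Integrate over `nu` and use `V_lln`. `measurable_PFn` for the integrals.
-/

open MeasureTheory ProbabilityTheory Filter Topology

namespace Ein99.CL

variable {d : ℕ} {p : unitInterval} {K : ℕ} {C c : ℝ}

theorem CL_Main1_exp_lip (R u v : ℝ) (hu : u ≤ R) (hv : v ≤ R) :
    |Real.exp u - Real.exp v| ≤ Real.exp R * |u - v| := by
  have key : ∀ a b : ℝ, a ≤ b → b ≤ R → Real.exp b - Real.exp a ≤ Real.exp R * (b - a) := by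
    intro a b hab hb
    have h1 : Real.exp a = Real.exp b * Real.exp (a - b) := by
      rw [← Real.exp_add]; congr 1; ring
    have h2 := Real.add_one_le_exp (a - b)
    have h3 : Real.exp b ≤ Real.exp R := Real.exp_le_exp.2 hb
    calc Real.exp b - Real.exp a = Real.exp b * (1 - Real.exp (a - b)) := by rw [h1]; ring
      _ ≤ Real.exp b * (b - a) :=
          mul_le_mul_of_nonneg_left (by linarith) (Real.exp_pos _).le
      _ ≤ Real.exp R * (b - a) := mul_le_mul_of_nonneg_right h3 (by linarith)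
  rcases le_total u v with h | h
  · rw [abs_of_nonpos (by simpa using h), abs_of_nonpos (by linarith)]
    have := key u v h hv
    linarith
  · rw [abs_of_nonneg (by simpa using h), abs_of_nonneg (by linarith)]
    exact key v u h hu

/-- along the walk the second coordinate stays in `[0, j B²]` -/
theorem CL_Main1_le (l : Fin d → ℝ) (hl : ∑ i, l i ^ 2 = 1) (k n : ℕ) (ω : Om d)
    (g : V d → ℝ × ℝ → ℝ) (B : ℝ)
    (hB : ∀ (x : V d) (y : ℝ × ℝ), 0 ≤ y.2 → y.2 ≤ (n : ℝ) * (2 * (k : ℝ) + 3) ^ 2 → g x y ≤ B) :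
    PFn ω (Fk l k ω) n g 0 ((0, 0) : ℝ × ℝ) ≤ B := by
  refine PFn_le_of_inv ω (Fk l k ω) n g
    (fun j _ y => 0 ≤ y.2 ∧ y.2 ≤ (j : ℝ) * (2 * k + 3) ^ 2) ?_ ?_ B ?_ 0 (0, 0) ?_
  · intro j x δ y hI _
    have h1 := gk_nonneg l k (sh x ω)
    have h2 := gk_bound l hl k (sh x ω)
    have h3 : (y + Fk l k ω x δ).2 = y.2 + gk l k (sh x ω) := rfl
    rw [h3]
    push_cast
    constructor
    · linarith [hI.1]
    · linarith [hI.2]
  · intro j x y hI
    refine ⟨hI.1, hI.2.trans ?_⟩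
    push_cast
    have : (0 : ℝ) ≤ (2 * (k : ℝ) + 3) ^ 2 := by positivity
    linarith
  · intro x y hI
    exact hB x y hI.1 hI.2
  · simp

theorem CL_Main1_meas (l : Fin d → ℝ) (hl : ∑ i, l i ^ 2 = 1) (k n : ℕ) (g : ℝ × ℝ → ℝ)
    (hg : Measurable g) :
    Measurable (fun ω : Om d => PFn ω (Fk l k ω) n (fun _ y => g y) 0 ((0, 0) : ℝ × ℝ)) := by
  have h1 : ∀ x (δ : Dir d), Measurable (fun ω : Om d => Fk l k ω x δ) := by
    intro x δ
    exact (((Mk_BM l hl k δ).sh x).1).prodMk (((gk_BM l hl k).sh x).1)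
  have h2 := measurable_PFn (fun ω : Om d => Fk l k ω) h1 n (fun _ y => g y) (fun _ => hg) 0
  exact h2.comp (measurable_id.prodMk measurable_const)

theorem CL_Main1_aux (hd : 1 ≤ d) (hH : HypH d p K C c) (l : Fin d → ℝ) (hl : ∑ i, l i ^ 2 = 1)
    (k : ℕ) (θ : ℝ) (T : ℝ → ℝ) (hTm : Measurable T) (hT1 : ∀ t, |T t| ≤ 1) (c0 C1 : ℝ)
    (hE : ∀ (ω : Om d) (n : ℕ), 1 ≤ n → |PFn ω (Fk l k ω) n
      (fun _ y => Real.exp (θ ^ 2 * y.2 / (2 * n)) * T (θ * y.1 / Real.sqrt n)) 0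
        ((0, 0) : ℝ × ℝ) - c0| ≤ C1 / Real.sqrt n) :
    Tendsto (fun n : ℕ => ∫ ω, PFn ω (Fk l k ω) n (fun _ y => T (θ * y.1 / Real.sqrt n)) 0
      ((0, 0) : ℝ × ℝ) ∂(nu d p)) atTop
      (𝓝 (tha d p * c0 * Real.exp (-(θ ^ 2 * mk p l k / 2)))) := by
  have : IsFiniteMeasure (nu d p) := E_U_fin p
  set m := mk p l k with hm
  have hm0 : 0 ≤ m := mk_nonneg l k
  have hm1 : m ≤ (2 * k + 3) ^ 2 := mk_le l hl k
  set B2 : ℝ := (2 * k + 3) ^ 2 with hB2
  have hB20 : 0 ≤ B2 := by positivity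
  set L : ℝ := Real.exp (θ ^ 2 * B2 / 2) * (θ ^ 2 / 2) with hL
  have hL0 : 0 ≤ L := by positivity
  set e : ℝ := Real.exp (θ ^ 2 * m / 2) with he
  have he0 : 0 < e := Real.exp_pos _
  set A : ℕ → Om d → ℝ := fun n ω => PFn ω (Fk l k ω) n (fun _ y => T (θ * y.1 / Real.sqrt n)) 0
      ((0, 0) : ℝ × ℝ) with hA
  set W : ℕ → Om d → ℝ := fun n ω => PFn ω (Fk l k ω) n (fun _ y => |y.2 / n - m|) 0
      ((0, 0) : ℝ × ℝ) with hW
  -- pointwise estimate
  have hpt : ∀ n : ℕ, 1 ≤ n → ∀ ω : Om d, |e * A n ω - c0| ≤ C1 / Real.sqrt n + L * W n ω := by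
    intro n hn ω
    have hn0 : (0 : ℝ) < n := by exact_mod_cast hn
    set E1 : ℝ := PFn ω (Fk l k ω) n
      (fun _ y => Real.exp (θ ^ 2 * y.2 / (2 * n)) * T (θ * y.1 / Real.sqrt n)) 0
        ((0, 0) : ℝ × ℝ) with hE1
    have h1 : e * A n ω - E1 = PFn ω (Fk l k ω) n
        (fun _ y => (e - Real.exp (θ ^ 2 * y.2 / (2 * n))) * T (θ * y.1 / Real.sqrt n)) 0
        ((0, 0) : ℝ × ℝ) := by
      have h2 : (fun (_ : V d) (y : ℝ × ℝ) => (e - Real.exp (θ ^ 2 * y.2 / (2 * n)))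
          * T (θ * y.1 / Real.sqrt n))
          = (fun (x : V d) (y : ℝ × ℝ) =>
            (fun (x : V d) (y : ℝ × ℝ) => e * (fun (_ : V d) (y : ℝ × ℝ) =>
              T (θ * y.1 / Real.sqrt n)) x y) x y
            + (fun (x : V d) (y : ℝ × ℝ) => (-1) * (fun (_ : V d) (y : ℝ × ℝ) =>
              Real.exp (θ ^ 2 * y.2 / (2 * n)) * T (θ * y.1 / Real.sqrt n)) x y) x y) := by
        funext x y
        simp only []
        ring
      rw [h2, PFn_add, PFn_smul, PFn_smul]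
      simp only [hA, hE1]
      ring
    have h3 : |e * A n ω - E1| ≤ L * W n ω := by
      rw [h1]
      refine (PFn_abs_le ω _ n _ 0 _).trans ?_
      have h4 : PFn ω (Fk l k ω) n (fun _ y => |(e - Real.exp (θ ^ 2 * y.2 / (2 * n)))
          * T (θ * y.1 / Real.sqrt n)| + (-L) * |y.2 / n - m|) 0 ((0, 0) : ℝ × ℝ) ≤ 0 := by
        refine CL_Main1_le l hl k n ω _ 0 ?_
        intro x y hy0 hy1
        have h5 : |(e - Real.exp (θ ^ 2 * y.2 / (2 * n))) * T (θ * y.1 / Real.sqrt n)|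
            ≤ |e - Real.exp (θ ^ 2 * y.2 / (2 * n))| := by
          rw [abs_mul]
          calc _ ≤ |e - Real.exp (θ ^ 2 * y.2 / (2 * n))| * 1 :=
                mul_le_mul_of_nonneg_left (hT1 _) (abs_nonneg _)
            _ = _ := mul_one _
        have h6 : y.2 / n ≤ B2 := by
          rw [div_le_iff₀ hn0]
          linarith
        have h7 : |e - Real.exp (θ ^ 2 * y.2 / (2 * n))|
            ≤ Real.exp (θ ^ 2 * B2 / 2) * |θ ^ 2 * m / 2 - θ ^ 2 * y.2 / (2 * n)| := by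
          refine CL_Main1_exp_lip _ _ _ ?_ ?_
          · have := mul_le_mul_of_nonneg_left hm1 (sq_nonneg θ)
            linarith
          · have h8 : θ ^ 2 * y.2 / (2 * n) = θ ^ 2 * (y.2 / n) / 2 := by
              field_simp
            rw [h8]
            have := mul_le_mul_of_nonneg_left h6 (sq_nonneg θ)
            linarith
        have h9 : |θ ^ 2 * m / 2 - θ ^ 2 * y.2 / (2 * n)| = (θ ^ 2 / 2) * |y.2 / n - m| := by
          have h10 : θ ^ 2 * m / 2 - θ ^ 2 * y.2 / (2 * n) = (θ ^ 2 / 2) * (m - y.2 / n) := by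
            field_simp
          rw [h10, abs_mul, abs_of_nonneg (by positivity), abs_sub_comm]
        rw [h9] at h7
        have h11 : |e - Real.exp (θ ^ 2 * y.2 / (2 * n))| ≤ L * |y.2 / n - m| := by
          rw [hL]
          linarith
        linarith
      have h12 : (fun (_ : V d) (y : ℝ × ℝ) => |(e - Real.exp (θ ^ 2 * y.2 / (2 * n)))
          * T (θ * y.1 / Real.sqrt n)| + (-L) * |y.2 / n - m|)
          = (fun (x : V d) (y : ℝ × ℝ) =>
            (fun (_ : V d) (y : ℝ × ℝ) => |(e - Real.exp (θ ^ 2 * y.2 / (2 * n)))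
              * T (θ * y.1 / Real.sqrt n)|) x y
            + (fun (x : V d) (y : ℝ × ℝ) => (-L) *
              (fun (_ : V d) (y : ℝ × ℝ) => |y.2 / n - m|) x y) x y) := rfl
      rw [h12, PFn_add, PFn_smul] at h4
      have h13 : W n ω = PFn ω (Fk l k ω) n (fun _ y => |y.2 / n - m|) 0 ((0, 0) : ℝ × ℝ) := rfl
      rw [h13]
      linarith
    have h14 : |E1 - c0| ≤ C1 / Real.sqrt n := hE ω n hn
    have h15 : e * A n ω - c0 = (E1 - c0) + (e * A n ω - E1) := by ring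
    rw [h15]
    exact (abs_add_le _ _).trans (add_le_add h14 h3)
  -- integrability
  have hAi : ∀ n : ℕ, Integrable (A n) (nu d p) := by
    intro n
    refine Integrable.of_bound (C := 1) (CL_Main1_meas l hl k n
      (fun y => T (θ * y.1 / Real.sqrt n)) (by fun_prop)).aestronglyMeasurable
      (Eventually.of_forall fun ω => ?_)
    rw [Real.norm_eq_abs]
    exact PFn_bound ω _ n _ 1 (fun _ y => hT1 _) 0 _
  have hWi : ∀ n : ℕ, 1 ≤ n → Integrable (W n) (nu d p) := by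
    intro n hn
    have hn0 : (0 : ℝ) < n := by exact_mod_cast hn
    refine Integrable.of_bound (C := B2) (CL_Main1_meas l hl k n
      (fun y => |y.2 / n - m|) (by fun_prop)).aestronglyMeasurable
      (Eventually.of_forall fun ω => ?_)
    have hW0 : 0 ≤ W n ω := by
      have := PFn_mono ω (Fk l k ω) n (g := fun _ _ => (0 : ℝ)) (h := fun _ y => |y.2 / n - m|)
        (fun _ _ => abs_nonneg _) 0 (0, 0)
      rwa [PFn_const] at this
    rw [Real.norm_eq_abs, abs_of_nonneg hW0]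
    refine CL_Main1_le l hl k n ω _ B2 ?_
    intro x y hy0 hy1
    have h6 : y.2 / n ≤ B2 := by
      rw [div_le_iff₀ hn0]
      linarith
    have h7 : 0 ≤ y.2 / n := by positivity
    rw [abs_le]
    constructor <;> linarith
  -- integrate
  have hint : ∀ n : ℕ, 1 ≤ n → |e * ∫ ω, A n ω ∂(nu d p) - c0 * tha d p|
      ≤ C1 * tha d p / Real.sqrt n + L * ∫ ω, W n ω ∂(nu d p) := by
    intro n hn
    have h1 : e * ∫ ω, A n ω ∂(nu d p) - c0 * tha d p = ∫ ω, (e * A n ω - c0) ∂(nu d p) := by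
      rw [integral_sub ((hAi n).const_mul _) (integrable_const _), integral_const_mul,
        integral_const]
      simp only [tha, smul_eq_mul]
      ring
    have h2 : C1 * tha d p / Real.sqrt n + L * ∫ ω, W n ω ∂(nu d p)
        = ∫ ω, (C1 / Real.sqrt n + L * W n ω) ∂(nu d p) := by
      rw [integral_add (integrable_const _) ((hWi n hn).const_mul _), integral_const_mul,
        integral_const]
      simp only [tha, smul_eq_mul]
      ring
    rw [h1, h2]
    refine (abs_integral_le_integral_abs).trans ?_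
    exact integral_mono (((hAi n).const_mul e).sub (integrable_const c0)).abs
      ((integrable_const _).add ((hWi n hn).const_mul L)) (fun ω => hpt n hn ω)
  -- the limit
  have hWlim : Tendsto (fun n : ℕ => ∫ ω, W n ω ∂(nu d p)) atTop (𝓝 0) := V_lln hd hH l hl k
  have hsq : Tendsto (fun n : ℕ => C1 * tha d p / Real.sqrt n) atTop (𝓝 0) := by
    have h1 : Tendsto (fun n : ℕ => Real.sqrt (n : ℝ)) atTop atTop :=
      Real.tendsto_sqrt_atTop.comp tendsto_natCast_atTop_atTop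
    exact h1.const_div_atTop _
  have hR : Tendsto (fun n : ℕ => C1 * tha d p / Real.sqrt n + L * ∫ ω, W n ω ∂(nu d p)) atTop
      (𝓝 0) := by
    have := hsq.add (hWlim.const_mul L)
    simpa using this
  have hD : Tendsto (fun n : ℕ => e * ∫ ω, A n ω ∂(nu d p) - c0 * tha d p) atTop (𝓝 0) := by
    refine squeeze_zero_norm' ?_ hR
    filter_upwards [eventually_ge_atTop 1] with n hn
    rw [Real.norm_eq_abs]
    exact hint n hn
  have hfin : Tendsto (fun n : ℕ => (e * ∫ ω, A n ω ∂(nu d p) - c0 * tha d p) / e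
      + c0 * tha d p / e) atTop (𝓝 (0 / e + c0 * tha d p / e)) :=
    (hD.div_const e).add_const _
  have h1 : (0 / e + c0 * tha d p / e) = tha d p * c0 * Real.exp (-(θ ^ 2 * m / 2)) := by
    rw [Real.exp_neg, ← he]
    field_simp
    ring
  rw [h1] at hfin
  refine hfin.congr fun n => ?_
  show (e * ∫ ω, A n ω ∂(nu d p) - c0 * tha d p) / e + c0 * tha d p / e = ∫ ω, A n ω ∂(nu d p)
  field_simp
  ring

theorem CL_Main1_mart (l : Fin d → ℝ) (hl : ∑ i, l i ^ 2 = 1) (k : ℕ) (θ : ℝ) :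
    ∃ C1 : ℝ, 0 < C1 ∧ ∀ (ω : Om d) (n : ℕ), 1 ≤ n →
      |PFn ω (Fk l k ω) n
        (fun _ y => Real.exp (θ ^ 2 * y.2 / (2 * n)) * Real.cos (θ * y.1 / Real.sqrt n)) 0
        ((0, 0) : ℝ × ℝ) - 1| ≤ C1 / Real.sqrt n ∧
      |PFn ω (Fk l k ω) n
        (fun _ y => Real.exp (θ ^ 2 * y.2 / (2 * n)) * Real.sin (θ * y.1 / Real.sqrt n)) 0
        ((0, 0) : ℝ × ℝ) - 0| ≤ C1 / Real.sqrt n := by
  obtain ⟨C1, hC1, h⟩ := mart_est d θ (2 * k + 3) (by
    have : (0 : ℝ) ≤ k := Nat.cast_nonneg _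
    linarith)
  refine ⟨C1, hC1, fun ω n hn => ?_⟩
  rw [sub_zero]
  refine h ω (fun x δ => Mk l k (sh x ω) δ) (fun x => gk l k (sh x ω)) ?_ ?_ ?_ n hn 0
  · intro x δ
    exact Mk_bound l hl k (sh x ω) δ
  · intro x
    have := Mk_sum l k (sh x ω)
    simpa only [oo_sh] using this
  · intro x
    unfold gk
    rw [dg_sh]
    simp only [oo_sh]

theorem mart_cos (hd : 1 ≤ d) (hH : HypH d p K C c) (l : Fin d → ℝ) (hl : ∑ i, l i ^ 2 = 1)
    (k : ℕ) (θ : ℝ) :
    Tendsto (fun n : ℕ => ∫ ω, PFn ω (Fk l k ω) n (fun _ y => Real.cos (θ * y.1 / Real.sqrt n)) 0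
      ((0, 0) : ℝ × ℝ) ∂(nu d p)) atTop (𝓝 (tha d p * Real.exp (-(θ ^ 2 * mk p l k / 2)))) := by
  obtain ⟨C1, _, h⟩ := CL_Main1_mart l hl k θ
  have := CL_Main1_aux hd hH l hl k θ Real.cos Real.measurable_cos Real.abs_cos_le_one 1 C1
    (fun ω n hn => (h ω n hn).1)
  rwa [mul_one] at this

theorem mart_sin (hd : 1 ≤ d) (hH : HypH d p K C c) (l : Fin d → ℝ) (hl : ∑ i, l i ^ 2 = 1)
    (k : ℕ) (θ : ℝ) :
    Tendsto (fun n : ℕ => ∫ ω, PFn ω (Fk l k ω) n (fun _ y => Real.sin (θ * y.1 / Real.sqrt n)) 0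
      ((0, 0) : ℝ × ℝ) ∂(nu d p)) atTop (𝓝 0) := by
  obtain ⟨C1, _, h⟩ := CL_Main1_mart l hl k θ
  have := CL_Main1_aux hd hH l hl k θ Real.sin Real.measurable_sin Real.abs_sin_le_one 0 C1
    (fun ω n hn => (h ω n hn).2)
  rwa [mul_zero, zero_mul] at this

end Ein99.CL
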