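import Pool.Agent.LibEinU.CL_Main1
import Pool.Agent.LibEin99.B_Upper

/-!
TASK CL_Main2. Characteristic function of the displacement.

Let `Ψ = Psi l k ω` (`= dot + chi ∘ sh`, `bu_Theta` in `B_Upper`; here `Ln_sh`), `|Ψ x - dot l x| ≤ k`. For `h = cos` or
`sin` (1-Lipschitz): `|h(θ dot l X/√n) - h(θ (Ψ X - Ψ 0)/√n)| ≤ 2 |θ| k/√n`, and
`|h(θ (Ψ X - Ψ 0)/√n) - h(θ M/√n)| ≤ |θ| |R|/√n`, `R = Ψ X - Ψ 0 - M`. As functions of `(x, y)`:
`PFn ω (Fk l k ω) n (fun x y => |Ψ x - Ψ 0 - y.1|) 0 (0,0)`, by `PFn_map` with `φ x y = Ψ x - Ψ 0 - y.1` and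
`F' x _ = 2 ak l k (sh x ω)`, equals `PFn ω F' n (fun _ w => |w|) 0 0 ≤ 2 √(AFn (ak l k) n ω)` (`PFn_sq_le`).
Integrate: `∫ 2 √AFn dnu ≤ 2 √(tha ∫ dg AFn dnu) ≤ 2 √(tha n (4 al(2k) - 2 S))` (`rem_bound`). So
`limsup_n |∫ E h(θ dot/√n) - ∫ E h(θ M/√n)| ≤ 2|θ| √(4 al(2k) - 2S) → 0` as `k → ∞`; with `mart_cos`, `mart_sin`,
`mk_lim` conclude. Functions of the position only: `PFn_fst`, `Pn_zero_l`.
-/

open MeasureTheory ProbabilityTheory Filter Topology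

namespace Ein99.CL

variable {d : ℕ} {p : unitInterval} {K : ℕ} {C c : ℝ}

/-- the gradient of the approximate harmonic coordinate -/
theorem CL_Main2_step (l : Fin d → ℝ) (k : ℕ) (ω : Om d) (x : V d) (δ : Dir d) :
    (dot l (x + st δ) + chi l k (sh (x + st δ) ω)) - (dot l x + chi l k (sh x ω))
      = GPsi l k (sh x ω) δ := by
  rw [dot_add, dot_st, GPsi, gr, sh_sh, add_comm (st δ) x]
  ring

/-- the remainder along the walk -/
theorem CL_Main2_R (l : Fin d → ℝ) (k n : ℕ) (ω : Om d) :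
    PFn ω (Fk l k ω) n
      (fun x y => |(dot l x + chi l k (sh x ω)) - chi l k ω - y.1|) 0 ((0, 0) : ℝ × ℝ)
      ≤ 2 * Real.sqrt (AFn (ak l k) n ω) := by
  have h1 := PFn_map ω (Fk l k ω) (fun x _ => 2 * ak l k (sh x ω))
    (fun x (y : ℝ × ℝ) => (dot l x + chi l k (sh x ω)) - chi l k ω - y.1)
    (by
      intro x δ y _
      have := CL_Main2_step l k ω x δ
      simp only [Fk, Mk, Prod.fst_add]
      linarith) n (fun _ w => |w|) 0 ((0, 0) : ℝ × ℝ)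
  have h0 : (dot l (0 : V d) + chi l k (sh 0 ω)) - chi l k ω - (0 : ℝ) = 0 := by
    rw [sh_zero]
    simp [dot]
  rw [h1]
  simp only [h0]
  have h2 := PFn_sq_le ω (fun x _ => 2 * ak l k (sh x ω)) n (fun (_ : V d) (w : ℝ) => |w|) 0 0
  simp only [sq_abs] at h2
  have h3 := PFn_map ω (fun x _ => ak l k (sh x ω)) (fun x _ => 2 * ak l k (sh x ω))
    (fun _ (y : ℝ) => 2 * y) (by intro x δ y _; ring) n (fun _ w => w ^ 2) 0 (0 : ℝ)
  have h4 : PFn ω (fun x _ => ak l k (sh x ω)) n (fun _ (y : ℝ) => (2 * y) ^ 2) 0 (0 : ℝ)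
      = 4 * AFn (ak l k) n ω := by
    have e : (fun (_ : V d) (y : ℝ) => (2 * y) ^ 2) = fun (_ : V d) (y : ℝ) => 4 * y ^ 2 := by
      funext _ y; ring
    rw [e, PFn_smul]
    rfl
  rw [h4, mul_zero] at h3
  rw [← h3] at h2
  have h5 := (le_abs_self _).trans (Real.abs_le_sqrt h2)
  rw [Real.sqrt_mul (by norm_num) (AFn (ak l k) n ω)] at h5
  have h6 : Real.sqrt 4 = 2 := by
    rw [show (4 : ℝ) = 2 ^ 2 by norm_num]
    exact Real.sqrt_sq (by norm_num)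
  rwa [h6] at h5

theorem CL_Main2_point (l : Fin d → ℝ) (hl : ∑ i, l i ^ 2 = 1) (k : ℕ) (θ : ℝ) (h : ℝ → ℝ)
    (hh : ∀ a b, |h a - h b| ≤ |a - b|) (n : ℕ) (ω : Om d) :
    |Pn 0 l ω n (fun x => h (θ * dot l x / Real.sqrt n)) 0
      - PFn ω (Fk l k ω) n (fun _ y => h (θ * y.1 / Real.sqrt n)) 0 ((0, 0) : ℝ × ℝ)| ≤
      |θ| / Real.sqrt n * (2 * k + 2 * Real.sqrt (AFn (ak l k) n ω)) := by
  have e1 : Pn 0 l ω n (fun x => h (θ * dot l x / Real.sqrt n)) 0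
      = PFn ω (Fk l k ω) n (fun x _ => h (θ * dot l x / Real.sqrt n)) 0 ((0, 0) : ℝ × ℝ) := by
    rw [PFn_fst, Pn_zero_l]
  have e2 : Pn 0 l ω n (fun x => h (θ * dot l x / Real.sqrt n)) 0
      - PFn ω (Fk l k ω) n (fun _ y => h (θ * y.1 / Real.sqrt n)) 0 ((0, 0) : ℝ × ℝ)
      = PFn ω (Fk l k ω) n (fun x y => h (θ * dot l x / Real.sqrt n)
          + (-1) * h (θ * y.1 / Real.sqrt n)) 0 ((0, 0) : ℝ × ℝ) := by
    rw [PFn_add, PFn_smul, e1]
    ring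
  rw [e2]
  refine (PFn_abs_le _ _ _ _ _ _).trans ?_
  have hs : 0 ≤ |θ| / Real.sqrt n := by positivity
  have e3 : |θ| / Real.sqrt n * (2 * k + PFn ω (Fk l k ω) n
      (fun x y => |(dot l x + chi l k (sh x ω)) - chi l k ω - y.1|) 0 ((0, 0) : ℝ × ℝ))
      = PFn ω (Fk l k ω) n (fun x y => |θ| / Real.sqrt n * (2 * k +
        |(dot l x + chi l k (sh x ω)) - chi l k ω - y.1|)) 0 ((0, 0) : ℝ × ℝ) := by
    rw [PFn_smul, PFn_add, PFn_const]
  refine le_trans ?_ (mul_le_mul_of_nonneg_left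
    (add_le_add_right (CL_Main2_R l k n ω) (2 * (k : ℝ))) hs)
  rw [e3]
  refine PFn_mono _ _ _ (fun x y => ?_) _ _
  have e4 : h (θ * dot l x / Real.sqrt n) + (-1) * h (θ * y.1 / Real.sqrt n)
      = h (θ * dot l x / Real.sqrt n) - h (θ * y.1 / Real.sqrt n) := by ring
  rw [e4]
  refine (hh _ _).trans ?_
  have e5 : θ * dot l x / Real.sqrt n - θ * y.1 / Real.sqrt n
      = θ / Real.sqrt n * (dot l x - y.1) := by ring
  rw [e5, abs_mul, abs_div, abs_of_nonneg (Real.sqrt_nonneg (n : ℝ))]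
  refine mul_le_mul_of_nonneg_left ?_ hs
  have h1 := abs_chi_le l hl k (sh x ω)
  have h2 := abs_chi_le l hl k ω
  have e6 : dot l x - y.1 = ((dot l x + chi l k (sh x ω)) - chi l k ω - y.1)
      + (chi l k ω - chi l k (sh x ω)) := by ring
  rw [e6]
  refine (abs_add_le _ _).trans ?_
  have h3 := abs_sub (chi l k ω) (chi l k (sh x ω))
  linarith

theorem CL_Main2_sqrt {f : Om d → ℝ} (hf : BM f) :
    BM (fun ω => Real.sqrt (f ω)) := by
  obtain ⟨hm, B, hB⟩ := hf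
  refine ⟨hm.sqrt, Real.sqrt B, fun ω => ?_⟩
  rw [abs_of_nonneg (Real.sqrt_nonneg _)]
  exact Real.sqrt_le_sqrt ((le_abs_self _).trans (hB ω))

theorem CL_Main2_jensen {f : Om d → ℝ} (hf : BM f) (h0 : ∀ ω, 0 ≤ f ω) :
    ∫ ω, Real.sqrt (f ω) ∂(nu d p) ≤ Real.sqrt (∫ ω, dg ω * f ω ∂(nu d p)) := by
  have hs := CL_Main2_sqrt hf
  set I := ∫ ω, Real.sqrt (f ω) ∂(nu d p) with hI
  have h1 : I ^ 2 ≤ ∫ ω, f ω ∂(nu d p) := by
    have h2 : 0 ≤ ∫ ω, (Real.sqrt (f ω) + (-I)) ^ 2 ∂(nu d p) :=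
      integral_nonneg fun ω => sq_nonneg _
    have h3 : ∫ ω, (Real.sqrt (f ω) + (-I)) ^ 2 ∂(nu d p)
        = ∫ ω, f ω ∂(nu d p) + (-(2 * I)) * I + tha d p * I ^ 2 := by
      have e : (fun ω : Om d => (Real.sqrt (f ω) + (-I)) ^ 2)
          = fun ω => f ω + (-(2 * I)) * Real.sqrt (f ω) + I ^ 2 := by
        funext ω
        have := Real.sq_sqrt (h0 ω)
        linear_combination this
      have i1 : Integrable f (nu d p) := hf.integrable
      have i2 : Integrable (fun ω => (-(2 * I)) * Real.sqrt (f ω)) (nu d p) :=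
        (hs.smul _).integrable
      have i3 : Integrable (fun _ : Om d => I ^ 2) (nu d p) := (BM.const (I ^ 2)).integrable
      have i4 : Integrable (fun ω => f ω + (-(2 * I)) * Real.sqrt (f ω)) (nu d p) := i1.add i2
      rw [e, integral_add i4 i3, integral_add i1 i2, integral_const_mul, integral_const,
        ← hI, smul_eq_mul]
      rfl
    have h4 : tha d p * I ^ 2 ≤ 1 * I ^ 2 := mul_le_mul_of_nonneg_right bu_tha_le (sq_nonneg I)
    nlinarith [h2, h3, h4]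
  have h5 : ∫ ω, f ω ∂(nu d p) ≤ ∫ ω, dg ω * f ω ∂(nu d p) := by
    refine integral_mono_ae hf.integrable (BM.dg.mul hf).integrable ?_
    filter_upwards [ae_one_le_dg p] with ω hω
    nlinarith [h0 ω, hω]
  exact (le_abs_self I).trans (Real.abs_le_sqrt (h1.trans h5))

/-- the error of the martingale approximation -/
theorem mart_err (l : Fin d → ℝ) (hl : ∑ i, l i ^ 2 = 1) (S : ℝ)
    (hS : Tendsto (fun n : ℕ => 2 * al p l n) atTop (𝓝 S)) (k : ℕ) (θ : ℝ) (h : ℝ → ℝ)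
    (hh : ∀ a b, |h a - h b| ≤ |a - b|) (hb : ∀ a, |h a| ≤ 1) (n : ℕ) (hn : 1 ≤ n) :
    |∫ ω, Pn 0 l ω n (fun x => h (θ * dot l x / Real.sqrt n)) 0 ∂(nu d p)
      - ∫ ω, PFn ω (Fk l k ω) n (fun _ y => h (θ * y.1 / Real.sqrt n)) 0 ((0, 0) : ℝ × ℝ)
        ∂(nu d p)| ≤
      2 * |θ| * k / Real.sqrt n + 2 * |θ| * Real.sqrt (4 * al p l (2 * k) - 2 * S) := by
  have hc : Continuous h := by
    have : LipschitzWith 1 h := LipschitzWith.of_dist_le_mul fun a b => by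
      rw [Real.dist_eq, Real.dist_eq, NNReal.coe_one, one_mul]
      exact hh a b
    exact this.continuous
  have hA : BM (fun ω : Om d => Pn 0 l ω n (fun x => h (θ * dot l x / Real.sqrt n)) 0) :=
    ⟨measurable_Pn 0 l n (fun _ x => h (θ * dot l x / Real.sqrt n)) (fun _ => measurable_const) 0,
      1, fun ω => Pn_abs_le_of_box 0 l ω n _ 0 1 fun z _ => hb _⟩
  have hB : BM (fun ω : Om d => PFn ω (Fk l k ω) n (fun _ y => h (θ * y.1 / Real.sqrt n)) 0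
      ((0, 0) : ℝ × ℝ)) := by
    refine ⟨?_, 1, fun ω => PFn_bound _ _ _ _ 1 (fun _ _ => hb _) _ _⟩
    have hm := measurable_PFn (d := d) (E := ℝ × ℝ) (fun ω => Fk l k ω) (fun x δ => by
      unfold Fk
      exact ((((Mk_BM l hl k δ).sh x).1).prodMk (((gk_BM l hl k).sh x).1))) n
      (fun _ y => h (θ * y.1 / Real.sqrt n)) (fun _ => by
        refine hc.measurable.comp ?_
        exact (measurable_const.mul measurable_fst).div_const _) 0
    exact hm.comp (measurable_id.prodMk measurable_const)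
  have hF : BM (fun ω : Om d => AFn (ak l k) n ω) := BM.AFn (ak_BM l hl k) n
  have hF0 : ∀ ω : Om d, 0 ≤ AFn (ak l k) n ω := fun ω => AFn_nonneg _ _ _
  have hs := CL_Main2_sqrt hF
  have hR : BM (fun ω : Om d => |θ| / Real.sqrt n * (2 * k + 2 * Real.sqrt (AFn (ak l k) n ω))) :=
    ((BM.const (2 * (k : ℝ))).add (hs.smul 2)).smul _
  rw [← integral_sub hA.integrable hB.integrable]
  refine (abs_integral_le_integral_abs).trans ?_
  have h1 : ∫ ω, |Pn 0 l ω n (fun x => h (θ * dot l x / Real.sqrt n)) 0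
      - PFn ω (Fk l k ω) n (fun _ y => h (θ * y.1 / Real.sqrt n)) 0 ((0, 0) : ℝ × ℝ)| ∂(nu d p)
      ≤ ∫ ω, |θ| / Real.sqrt n * (2 * k + 2 * Real.sqrt (AFn (ak l k) n ω)) ∂(nu d p) :=
    integral_mono (hA.sub hB).integrable.abs hR.integrable
      fun ω => CL_Main2_point l hl k θ h hh n ω
  refine h1.trans ?_
  have h2 : ∫ ω, |θ| / Real.sqrt n * (2 * k + 2 * Real.sqrt (AFn (ak l k) n ω)) ∂(nu d p)
      = |θ| / Real.sqrt n * (tha d p * (2 * k)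
        + 2 * ∫ ω, Real.sqrt (AFn (ak l k) n ω) ∂(nu d p)) := by
    have i1 : ∫ _ω : Om d, (2 * (k : ℝ)) ∂(nu d p) = tha d p * (2 * k) := by
      rw [integral_const, smul_eq_mul]
      rfl
    have i2 : ∫ ω : Om d, 2 * Real.sqrt (AFn (ak l k) n ω) ∂(nu d p)
        = 2 * ∫ ω, Real.sqrt (AFn (ak l k) n ω) ∂(nu d p) := integral_const_mul _ _
    rw [integral_const_mul, integral_add (BM.const (2 * (k : ℝ))).integrable
      (hs.smul 2).integrable, i1, i2]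
  rw [h2]
  have hn0 : (0 : ℝ) < n := by exact_mod_cast hn
  have hsn : 0 < Real.sqrt n := Real.sqrt_pos.2 hn0
  have h3 : ∫ ω, Real.sqrt (AFn (ak l k) n ω) ∂(nu d p)
      ≤ Real.sqrt n * Real.sqrt (4 * al p l (2 * k) - 2 * S) := by
    refine (CL_Main2_jensen hF hF0).trans ?_
    rw [← Real.sqrt_mul hn0.le]
    exact Real.sqrt_le_sqrt (rem_bound l hl S hS k n)
  have h4 : tha d p * (2 * k) ≤ 1 * (2 * k) :=
    mul_le_mul_of_nonneg_right bu_tha_le (by positivity)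
  have h5 : |θ| / Real.sqrt n * (tha d p * (2 * k)
        + 2 * ∫ ω, Real.sqrt (AFn (ak l k) n ω) ∂(nu d p))
      ≤ |θ| / Real.sqrt n * (1 * (2 * k)
        + 2 * (Real.sqrt n * Real.sqrt (4 * al p l (2 * k) - 2 * S))) := by
    refine mul_le_mul_of_nonneg_left ?_ (by positivity)
    linarith
  refine h5.trans (le_of_eq ?_)
  field_simp

theorem CL_Main2_lim (a : ℕ → ℝ) (b e1 : ℕ → ℕ → ℝ) (Lk e2 : ℕ → ℝ) (L : ℝ)
    (h : ∀ k n, 1 ≤ n → |a n - b k n| ≤ e1 k n + e2 k)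
    (h1 : ∀ k, Tendsto (e1 k) atTop (𝓝 0)) (h2 : Tendsto e2 atTop (𝓝 0))
    (hb : ∀ k, Tendsto (b k) atTop (𝓝 (Lk k))) (hL : Tendsto Lk atTop (𝓝 L)) :
    Tendsto a atTop (𝓝 L) := by
  rw [Metric.tendsto_atTop]
  intro ε hε
  have hε4 : 0 < ε / 4 := by positivity
  obtain ⟨k1, hk1⟩ := Metric.tendsto_atTop.1 h2 (ε / 4) hε4
  obtain ⟨k2, hk2⟩ := Metric.tendsto_atTop.1 hL (ε / 4) hε4
  have c1 := hk1 (max k1 k2) (le_max_left _ _)
  have c2 := hk2 (max k1 k2) (le_max_right _ _)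
  obtain ⟨n1, hn1⟩ := Metric.tendsto_atTop.1 (h1 (max k1 k2)) (ε / 4) hε4
  obtain ⟨n2, hn2⟩ := Metric.tendsto_atTop.1 (hb (max k1 k2)) (ε / 4) hε4
  refine ⟨max 1 (max n1 n2), fun n hn => ?_⟩
  have c3 := hn1 n (((le_max_left _ _).trans (le_max_right _ _)).trans hn)
  have c4 := hn2 n (((le_max_right _ _).trans (le_max_right _ _)).trans hn)
  have c5 := h (max k1 k2) n ((le_max_left _ _).trans hn)
  rw [Real.dist_eq] at c1 c2 c3 c4 ⊢
  rw [abs_lt] at c1 c2 c3 c4 ⊢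
  rw [abs_le] at c5
  constructor <;> linarith [c1.1, c1.2, c2.1, c2.2, c3.1, c3.2, c4.1, c4.2, c5.1, c5.2]

theorem CL_Main2_e1 (θ : ℝ) (k : ℕ) :
    Tendsto (fun n : ℕ => 2 * |θ| * k / Real.sqrt n) atTop (𝓝 0) := by
  refine Tendsto.div_atTop tendsto_const_nhds ?_
  exact Real.tendsto_sqrt_atTop.comp tendsto_natCast_atTop_atTop

theorem CL_Main2_e2 (l : Fin d → ℝ) (S : ℝ)
    (hS : Tendsto (fun n : ℕ => 2 * al p l n) atTop (𝓝 S)) (θ : ℝ) :
    Tendsto (fun k : ℕ => 2 * |θ| * Real.sqrt (4 * al p l (2 * k) - 2 * S)) atTop (𝓝 0) := by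
  have h1 : Tendsto (fun k : ℕ => 2 * al p l (2 * k)) atTop (𝓝 S) :=
    hS.comp (tendsto_id.const_mul_atTop' (by norm_num : 0 < 2))
  have h2 : Tendsto (fun k : ℕ => 4 * al p l (2 * k) - 2 * S) atTop (𝓝 0) := by
    have h3 := (h1.const_mul 2).sub_const (2 * S)
    rw [sub_self] at h3
    refine h3.congr fun k => ?_
    ring
  have h4 := ((Real.continuous_sqrt.tendsto 0).comp h2).const_mul (2 * |θ|)
  rw [Real.sqrt_zero, mul_zero] at h4
  exact h4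

theorem walk_cos (hd : 1 ≤ d) (hH : HypH d p K C c) (l : Fin d → ℝ) (hl : ∑ i, l i ^ 2 = 1)
    (S : ℝ) (hS : Tendsto (fun n : ℕ => 2 * al p l n) atTop (𝓝 S)) (θ : ℝ) :
    Tendsto (fun n : ℕ => ∫ ω, Pn 0 l ω n (fun x => Real.cos (θ * dot l x / Real.sqrt n)) 0
      ∂(nu d p)) atTop (𝓝 (tha d p * Real.exp (-(θ ^ 2 * (S / kap d p) / 2)))) := by
  refine CL_Main2_lim _ (fun k n => ∫ ω, PFn ω (Fk l k ω) n
      (fun _ y => Real.cos (θ * y.1 / Real.sqrt n)) 0 ((0, 0) : ℝ × ℝ) ∂(nu d p))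
    (fun k n => 2 * |θ| * k / Real.sqrt n)
    (fun k => tha d p * Real.exp (-(θ ^ 2 * mk p l k / 2)))
    (fun k => 2 * |θ| * Real.sqrt (4 * al p l (2 * k) - 2 * S)) _
    (fun k n hn => mart_err l hl S hS k θ Real.cos
      (fun a b => Real.abs_cos_sub_cos_le a b) Real.abs_cos_le_one n hn)
    (fun k => CL_Main2_e1 θ k) (CL_Main2_e2 l S hS θ) (fun k => mart_cos hd hH l hl k θ) ?_
  have h1 := mk_lim l hl S hS (kap_pos hH)
  have h2 : Continuous fun m : ℝ => tha d p * Real.exp (-(θ ^ 2 * m / 2)) := by fun_prop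
  exact (h2.tendsto _).comp h1

theorem walk_sin (hd : 1 ≤ d) (hH : HypH d p K C c) (l : Fin d → ℝ) (hl : ∑ i, l i ^ 2 = 1)
    (S : ℝ) (hS : Tendsto (fun n : ℕ => 2 * al p l n) atTop (𝓝 S)) (θ : ℝ) :
    Tendsto (fun n : ℕ => ∫ ω, Pn 0 l ω n (fun x => Real.sin (θ * dot l x / Real.sqrt n)) 0
      ∂(nu d p)) atTop (𝓝 0) := by
  exact CL_Main2_lim _ (fun k n => ∫ ω, PFn ω (Fk l k ω) n
      (fun _ y => Real.sin (θ * y.1 / Real.sqrt n)) 0 ((0, 0) : ℝ × ℝ) ∂(nu d p))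
    (fun k n => 2 * |θ| * k / Real.sqrt n) (fun _ => 0)
    (fun k => 2 * |θ| * Real.sqrt (4 * al p l (2 * k) - 2 * S)) _
    (fun k n hn => mart_err l hl S hS k θ Real.sin
      (fun a b => Real.abs_sin_sub_sin_le a b) Real.abs_sin_le_one n hn)
    (fun k => CL_Main2_e1 θ k) (CL_Main2_e2 l S hS θ) (fun k => mart_sin hd hH l hl k θ)
    tendsto_const_nhds

end Ein99.CL
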