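import Pool.Agent.LibEinU.Defs

/-!
TASK CL_PF. Basic facts on `PFn` (all by induction on `n`, with `x` and `y` general; one step: unfold `PF`,
`split_ifs`; `wt_nonneg`, `Zw 0 0 ω x = ∑ δ, wt 0 0 ω x δ`; compare `A_PnBasic.lean` for `Pn`).
`PFn_map`: the transfer principle (change of the additive functional).
`measurable_PFn`: joint measurability in `(ω, y)` by induction; for fixed `x`, `Zw` and `wt` are local
(`Loc_Zw`, `Loc.measurable`), the sum is finite, compose with `(ω, y) ↦ (ω, y + F ω x δ)`.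
`PFn_sq_le`: Cauchy-Schwarz for a probability vector (`inner_mul_le_norm_mul_norm` or Jensen; see
`Pn_sq_le`-like lemmas in `A_PnBasic`/`E_Ln`: `Ln_sq_le`).
-/

open MeasureTheory ProbabilityTheory Filter Topology

namespace Ein99.CL

variable {d : ℕ} {E : Type*}

theorem CL_PF_congr [Add E] (ω : Om d) (F : V d → Dir d → E) {g h : V d → E → ℝ}
    (hgh : ∀ x y, g x y = h x y) (x : V d) (y : E) : PF ω F g x y = PF ω F h x y := by
  have e : g = h := funext fun x => funext fun y => hgh x y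
  rw [e]

theorem CL_PF_add [Add E] (ω : Om d) (F : V d → Dir d → E) (g h : V d → E → ℝ) (x : V d) (y : E) :
    PF ω F (fun x y => g x y + h x y) x y = PF ω F g x y + PF ω F h x y := by
  simp only [PF]
  split_ifs with h0
  · rfl
  · rw [← add_div, ← Finset.sum_add_distrib]
    congr 1
    exact Finset.sum_congr rfl (fun δ _ => by ring)

theorem CL_PF_smul [Add E] (ω : Om d) (F : V d → Dir d → E) (c : ℝ) (g : V d → E → ℝ) (x : V d)
    (y : E) : PF ω F (fun x y => c * g x y) x y = c * PF ω F g x y := by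
  simp only [PF]
  split_ifs with h0
  · rfl
  · rw [← mul_div_assoc, Finset.mul_sum]
    congr 1
    exact Finset.sum_congr rfl (fun δ _ => by ring)

theorem CL_PF_const [Add E] (ω : Om d) (F : V d → Dir d → E) (c : ℝ) (x : V d) (y : E) :
    PF ω F (fun _ _ => c) x y = c := by
  unfold PF
  split_ifs with h0
  · rfl
  · rw [← Finset.sum_mul]
    change Zw 0 0 ω x * c / Zw 0 0 ω x = c
    field_simp

theorem CL_PF_mono [Add E] (ω : Om d) (F : V d → Dir d → E) {g h : V d → E → ℝ}
    (hgh : ∀ x y, g x y ≤ h x y) (x : V d) (y : E) : PF ω F g x y ≤ PF ω F h x y := by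
  unfold PF
  split_ifs with h0
  · exact hgh x y
  · exact div_le_div_of_nonneg_right
      (Finset.sum_le_sum (fun δ _ => mul_le_mul_of_nonneg_left (hgh _ _) (wt_nonneg 0 0 ω x δ)))
      (Zw_nonneg 0 0 ω x)

theorem CL_PF_sq_le [Add E] (ω : Om d) (F : V d → Dir d → E) (g : V d → E → ℝ) (x : V d)
    (y : E) : (PF ω F g x y) ^ 2 ≤ PF ω F (fun x y => g x y ^ 2) x y := by
  unfold PF
  split_ifs with h0
  · exact le_refl _
  · have hZ : 0 < Zw 0 0 ω x := lt_of_le_of_ne (Zw_nonneg 0 0 ω x) (Ne.symm h0)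
    rw [div_pow, div_le_div_iff₀ (by positivity) hZ]
    have hCS := Finset.sum_mul_sq_le_sq_mul_sq Finset.univ
      (fun δ => Real.sqrt (wt 0 0 ω x δ)) (fun δ => Real.sqrt (wt 0 0 ω x δ) * g (x + st δ) (y + F x δ))
    have e1 : ∀ δ, Real.sqrt (wt 0 0 ω x δ) * (Real.sqrt (wt 0 0 ω x δ) * g (x + st δ) (y + F x δ))
        = wt 0 0 ω x δ * g (x + st δ) (y + F x δ) := by
      intro δ
      rw [← mul_assoc, Real.mul_self_sqrt (wt_nonneg 0 0 ω x δ)]
    have e2 : ∀ δ, Real.sqrt (wt 0 0 ω x δ) ^ 2 = wt 0 0 ω x δ :=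
      fun δ => Real.sq_sqrt (wt_nonneg 0 0 ω x δ)
    have e3 : ∀ δ, (Real.sqrt (wt 0 0 ω x δ) * g (x + st δ) (y + F x δ)) ^ 2
        = wt 0 0 ω x δ * g (x + st δ) (y + F x δ) ^ 2 := by
      intro δ
      rw [mul_pow, e2]
    simp only [e1, e2, e3] at hCS
    have hCS' : (∑ δ, wt 0 0 ω x δ * g (x + st δ) (y + F x δ)) ^ 2
        ≤ Zw 0 0 ω x * ∑ δ, wt 0 0 ω x δ * g (x + st δ) (y + F x δ) ^ 2 := hCS
    calc (∑ δ, wt 0 0 ω x δ * g (x + st δ) (y + F x δ)) ^ 2 * Zw 0 0 ω x
        ≤ (Zw 0 0 ω x * ∑ δ, wt 0 0 ω x δ * g (x + st δ) (y + F x δ) ^ 2) * Zw 0 0 ω x :=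
          mul_le_mul_of_nonneg_right hCS' hZ.le
      _ = (∑ δ, wt 0 0 ω x δ * g (x + st δ) (y + F x δ) ^ 2) * Zw 0 0 ω x ^ 2 := by ring

theorem PFn_zero [Add E] (ω : Om d) (F : V d → Dir d → E) (g : V d → E → ℝ) :
    PFn ω F 0 g = g := rfl

theorem PFn_succ [Add E] (ω : Om d) (F : V d → Dir d → E) (n : ℕ) (g : V d → E → ℝ) :
    PFn ω F (n + 1) g = PF ω F (PFn ω F n g) := by
  exact Function.iterate_succ_apply' _ _ _

theorem PFn_succ' [Add E] (ω : Om d) (F : V d → Dir d → E) (n : ℕ) (g : V d → E → ℝ) :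
    PFn ω F (n + 1) g = PFn ω F n (PF ω F g) := by
  exact Function.iterate_succ_apply _ _ _

theorem PFn_add [Add E] (ω : Om d) (F : V d → Dir d → E) (n : ℕ) (g h : V d → E → ℝ) (x : V d)
    (y : E) : PFn ω F n (fun x y => g x y + h x y) x y = PFn ω F n g x y + PFn ω F n h x y := by
  induction n generalizing x y with
  | zero => rfl
  | succ n ih =>
    rw [PFn_succ, PFn_succ, PFn_succ, CL_PF_congr ω F ih]
    exact CL_PF_add ω F _ _ x y

theorem PFn_smul [Add E] (ω : Om d) (F : V d → Dir d → E) (n : ℕ) (c : ℝ) (g : V d → E → ℝ)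
    (x : V d) (y : E) : PFn ω F n (fun x y => c * g x y) x y = c * PFn ω F n g x y := by
  induction n generalizing x y with
  | zero => rfl
  | succ n ih =>
    rw [PFn_succ, PFn_succ, CL_PF_congr ω F ih]
    exact CL_PF_smul ω F c _ x y

theorem PFn_const [Add E] (ω : Om d) (F : V d → Dir d → E) (n : ℕ) (c : ℝ) (x : V d) (y : E) :
    PFn ω F n (fun _ _ => c) x y = c := by
  induction n generalizing x y with
  | zero => rfl
  | succ n ih =>
    rw [PFn_succ, CL_PF_congr ω F ih]
    exact CL_PF_const ω F c x y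

theorem PFn_mono [Add E] (ω : Om d) (F : V d → Dir d → E) (n : ℕ) {g h : V d → E → ℝ}
    (hgh : ∀ x y, g x y ≤ h x y) (x : V d) (y : E) : PFn ω F n g x y ≤ PFn ω F n h x y := by
  induction n generalizing x y with
  | zero => exact hgh x y
  | succ n ih =>
    rw [PFn_succ, PFn_succ]
    exact CL_PF_mono ω F ih x y

theorem PFn_abs_le [Add E] (ω : Om d) (F : V d → Dir d → E) (n : ℕ) (g : V d → E → ℝ) (x : V d)
    (y : E) : |PFn ω F n g x y| ≤ PFn ω F n (fun x y => |g x y|) x y := by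
  rw [abs_le]
  constructor
  · have h := PFn_mono ω F n (g := fun x y => (-1 : ℝ) * |g x y|) (h := g)
      (fun x y => by
        rw [neg_one_mul]
        exact neg_abs_le (g x y)) x y
    rw [PFn_smul, neg_one_mul] at h
    exact h
  · exact PFn_mono ω F n (fun x y => le_abs_self (g x y)) x y

theorem PFn_bound [Add E] (ω : Om d) (F : V d → Dir d → E) (n : ℕ) (g : V d → E → ℝ) (B : ℝ)
    (hB : ∀ x y, |g x y| ≤ B) (x : V d) (y : E) : |PFn ω F n g x y| ≤ B := by
  have h := PFn_mono ω F n (g := fun x y => |g x y|) (h := fun _ _ => B) hB x y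
  rw [PFn_const] at h
  exact (PFn_abs_le ω F n g x y).trans h

theorem PFn_sq_le [Add E] (ω : Om d) (F : V d → Dir d → E) (n : ℕ) (g : V d → E → ℝ) (x : V d)
    (y : E) : (PFn ω F n g x y) ^ 2 ≤ PFn ω F n (fun x y => g x y ^ 2) x y := by
  induction n generalizing x y with
  | zero => exact le_refl _
  | succ n ih =>
    rw [PFn_succ, PFn_succ]
    exact (CL_PF_sq_le ω F _ x y).trans (CL_PF_mono ω F ih x y)

/-- change of the additive functional -/
theorem PFn_map {E E' : Type*} [Add E] [Add E'] (ω : Om d) (F : V d → Dir d → E)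
    (F' : V d → Dir d → E') (φ : V d → E → E')
    (hφ : ∀ x δ y, opn ω x δ → φ (x + st δ) (y + F x δ) = φ x y + F' x δ) (n : ℕ)
    (h : V d → E' → ℝ) (x : V d) (y : E) :
    PFn ω F n (fun x y => h x (φ x y)) x y = PFn ω F' n h x (φ x y) := by
  induction n generalizing x y with
  | zero => rfl
  | succ n ih =>
    rw [PFn_succ, PFn_succ, PF, PF]
    split_ifs with h0
    · exact ih x y
    · congr 1
      refine Finset.sum_congr rfl (fun δ _ => ?_)
      rw [ih]
      by_cases ho : opn ω x δ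
      · rw [hφ x δ y ho]
      · have hw : wt 0 0 ω x δ = 0 := by rw [wt, if_neg ho]
        rw [hw, zero_mul, zero_mul]

/-- functions of the position only -/
theorem PFn_fst [Add E] (ω : Om d) (F : V d → Dir d → E) (n : ℕ) (g : V d → ℝ) (x : V d) (y : E) :
    PFn ω F n (fun x _ => g x) x y = Pn 0 0 ω n g x := by
  induction n generalizing x y with
  | zero => rfl
  | succ n ih =>
    rw [PFn_succ, Pn_succ, CL_PF_congr ω F ih]
    rfl

theorem Pn_zero_l (l : Fin d → ℝ) (ω : Om d) (n : ℕ) (g : V d → ℝ) :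
    Pn 0 l ω n g = Pn 0 0 ω n g := by
  have hw : ∀ x δ, wt 0 l ω x δ = wt 0 0 ω x δ := by
    intro x δ
    simp only [wt, zero_mul]
  have hZ : ∀ x, Zw 0 l ω x = Zw 0 0 ω x := fun x => Finset.sum_congr rfl (fun δ _ => hw x δ)
  have hP : Pop 0 l ω = Pop 0 0 ω := by
    funext g x
    simp only [Pop, hZ, hw]
  simp only [Pn, hP]

/-- the additive functional has bounded increments in the sense that a bound which holds along
the walk suffices -/
theorem PFn_le_of_inv [Add E] (ω : Om d) (F : V d → Dir d → E) (n : ℕ) (g : V d → E → ℝ)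
    (I : ℕ → V d → E → Prop) (hI : ∀ j x δ y, I j x y → opn ω x δ → I (j + 1) (x + st δ) (y + F x δ))
    (hI2 : ∀ j x y, I j x y → I (j + 1) x y)
    (B : ℝ) (hB : ∀ x y, I n x y → g x y ≤ B) (x : V d) (y : E) (h0 : I 0 x y) :
    PFn ω F n g x y ≤ B := by
  have key : ∀ (m j : ℕ) (x : V d) (y : E), (∀ x y, I (j + m) x y → g x y ≤ B) → I j x y →
      PFn ω F m g x y ≤ B := by
    intro m
    induction m with
    | zero =>
      intro j x y hB hj
      exact hB x y hj
    | succ m ih =>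
      intro j x y hB hj
      have hB' : ∀ x y, I (j + 1 + m) x y → g x y ≤ B := by
        intro x y hx
        apply hB
        rwa [show j + (m + 1) = j + 1 + m by ring]
      rw [PFn_succ, PF]
      split_ifs with h1
      · exact ih (j + 1) x y hB' (hI2 j x y hj)
      · have hZ : 0 < Zw 0 0 ω x := lt_of_le_of_ne (Zw_nonneg 0 0 ω x) (Ne.symm h1)
        rw [div_le_iff₀ hZ]
        have h2 : ∑ δ, wt 0 0 ω x δ * PFn ω F m g (x + st δ) (y + F x δ) ≤ ∑ δ, wt 0 0 ω x δ * B := by
          refine Finset.sum_le_sum (fun δ _ => ?_)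
          by_cases ho : opn ω x δ
          · exact mul_le_mul_of_nonneg_left (ih (j + 1) _ _ hB' (hI j x δ y hj ho))
              (wt_nonneg 0 0 ω x δ)
          · have hw : wt 0 0 ω x δ = 0 := by rw [wt, if_neg ho]
            rw [hw, zero_mul, zero_mul]
        rw [← Finset.sum_mul] at h2
        have h3 : (∑ δ, wt 0 0 ω x δ) * B = B * Zw 0 0 ω x := by
          rw [mul_comm]
          rfl
        rw [h3] at h2
        exact h2
  refine key n 0 x y ?_ h0
  intro x y hx
  rw [zero_add] at hx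
  exact hB x y hx

end Ein99.CL
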