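import Pool.Agent.LibEinU.CL_PF

/-!
TASK CL_PM. Joint measurability of `PFn` in `(ω, y)`, by induction on `n` (with `x` general); for fixed `x`, `Zw`
and `wt` are local (`Loc_Zw`, `Loc.measurable`), the sum is finite, compose with `(ω, y) ↦ (ω, y + F ω x δ)`.
`PFn_zero_step`, `PFn_local`: from a vertex with `Zw ≠ 0` the walk never meets a vertex with `Zw = 0`.
-/

open MeasureTheory ProbabilityTheory Filter Topology

namespace Ein99.CL

variable {d : ℕ} {E : Type*}

theorem measurable_PFn [Add E] [MeasurableSpace E] [MeasurableAdd₂ E] (F : Om d → V d → Dir d → E)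
    (hF : ∀ x δ, Measurable (fun ω => F ω x δ)) (n : ℕ) (g : V d → E → ℝ)
    (hg : ∀ x, Measurable (g x)) (x : V d) :
    Measurable (fun q : Om d × E => PFn q.1 (F q.1) n g x q.2) := by
  induction n generalizing x with
  | zero => exact (hg x).comp measurable_snd
  | succ n ih =>
    simp only [PFn_succ, PF]
    have hZ : Measurable (fun q : Om d × E => Zw 0 0 q.1 x) := (measurable_Zw 0 0 x).comp measurable_fst
    refine Measurable.ite (hZ (measurableSet_singleton 0)) (ih x) ?_
    refine Measurable.div ?_ hZ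
    refine Finset.measurable_sum _ (fun δ _ => ?_)
    refine ((measurable_wt 0 0 x δ).comp measurable_fst).mul ?_
    exact (ih (x + st δ)).comp (measurable_fst.prodMk
      (measurable_snd.add ((hF x δ).comp measurable_fst)))

/-- two functions which agree at the vertices with `Zw ≠ 0` -/
theorem PFn_congr_of_Zw [Add E] (ω : Om d) (F : V d → Dir d → E) (n : ℕ) (g h : V d → E → ℝ)
    (hgh : ∀ x y, Zw 0 0 ω x ≠ 0 → g x y = h x y) (x : V d) (y : E) (hx : Zw 0 0 ω x ≠ 0) :
    PFn ω F n g x y = PFn ω F n h x y := by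
  induction n generalizing x y with
  | zero => exact hgh x y hx
  | succ n ih =>
    rw [PFn_succ, PFn_succ, PF, PF, if_neg hx, if_neg hx]
    congr 1
    refine Finset.sum_congr rfl (fun δ _ => ?_)
    by_cases ho : opn ω x δ
    · rw [ih]
      intro h0
      exact (Zw_eq_zero_iff 0 0 ω (x + st δ)).1 h0 (rv δ) ((opn_rv ω x δ).2 ho)
    · have hw : wt 0 0 ω x δ = 0 := by rw [wt, if_neg ho]
      rw [hw, zero_mul, zero_mul]

/-- if the walk starts at a vertex with `Zw ≠ 0`, every step adds an increment: a constant can be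
added to the increments -/
theorem PFn_drift (ω : Om d) (F : V d → Dir d → ℝ) (c : ℝ) (n : ℕ) (h : ℝ → ℝ) (x : V d) (y : ℝ)
    (hx : Zw 0 0 ω x ≠ 0) :
    PFn ω (fun x δ => F x δ + c) n (fun _ w => h w) x y
      = PFn ω F n (fun _ w => h (w + n * c)) x y := by
  induction n generalizing x y with
  | zero =>
    rw [PFn_zero, PFn_zero]
    simp
  | succ n ih =>
    rw [PFn_succ, PFn_succ, PF, PF, if_neg hx, if_neg hx]
    congr 1
    refine Finset.sum_congr rfl (fun δ _ => ?_)
    by_cases ho : opn ω x δ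
    · have h1 : Zw 0 0 ω (x + st δ) ≠ 0 := by
        intro h0
        exact (Zw_eq_zero_iff 0 0 ω (x + st δ)).1 h0 (rv δ) ((opn_rv ω x δ).2 ho)
      rw [ih _ _ h1]
      have h2 := PFn_map ω F F (fun _ w => w + c) (fun x δ y _ => by ring) n
        (fun _ w => h (w + n * c)) (x + st δ) (y + F x δ)
      have h3 : y + (F x δ + c) = y + F x δ + c := by ring
      rw [h3, ← h2]
      have h4 : (fun (_ : V d) (w : ℝ) => h (w + c + n * c))
          = (fun (_ : V d) (w : ℝ) => h (w + ((n + 1 : ℕ) : ℝ) * c)) := by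
        funext _ w
        push_cast
        congr 1
        ring
      rw [h4]
    · have hw : wt 0 0 ω x δ = 0 := by rw [wt, if_neg ho]
      rw [hw, zero_mul, zero_mul]

theorem Zw_ne_zero_of_InfC (ω : Om d) (h : InfC ω 0) : Zw 0 0 ω 0 ≠ 0 := by
  have h1 := one_le_dg ω h
  have h2 := dg_sh ω 0
  rw [sh_zero] at h2
  rw [← h2]
  intro h0
  rw [h0] at h1
  exact absurd h1 (by norm_num)

end Ein99.CL
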