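import Pool.Agent.LibEinU.CL_Stat

/-!
TASK CL_Qi. The environment operator `Pe` (`E_Op.lean`) is symmetric for `qi` (bounded measurable
functions). Most facts are in `LibEin99/E_Op.lean` for `MemLp` functions (`Ein99.Pe_symm`, `Ein99.Pe_contr`,
`Ein99.int_dg_mul_Pe`, `Ein99.int_sh_eq`): reuse them (`BM` functions are in `L²(nu)`).
`Pe_dirichlet`: expand `(f(sh) - f)²`, `int_sh_eq` for `f(sh)²`. `Pe_pos`: the same with `(f(sh) + f)²`.
`qi_cs`: discriminant of `t ↦ qi (f - t g)(f - t g)`, as `ip_cs` in `F_Ip.lean`.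
-/

open MeasureTheory ProbabilityTheory Filter Topology

namespace Ein99.CL

variable {d : ℕ} {p : unitInterval}

private theorem CL_Qi_memLp {f : Om d → ℝ} (hf : BM f) : MemLp f 2 (nu d p) := by
  have hfin : IsFiniteMeasure (nu d p) := by
    unfold nu
    infer_instance
  obtain ⟨hm, B, hB⟩ := hf
  exact MemLp.of_bound hm.aestronglyMeasurable B
    (Filter.Eventually.of_forall fun ω => by rw [Real.norm_eq_abs]; exact hB ω)

private theorem CL_Qi_int {f g : Om d → ℝ} (hf : BM f) (hg : BM g) :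
    Integrable (fun ω => dg ω * (f ω * g ω)) (nu d p) :=
  (BM.dg.mul (hf.mul hg)).integrable

theorem qi_comm (f g : Om d → ℝ) : qi p f g = qi p g f := by
  unfold qi
  simp only [mul_comm]

theorem qi_add_left {f g h : Om d → ℝ} (hf : BM f) (hg : BM g) (hh : BM h) :
    qi p (fun ω => f ω + g ω) h = qi p f h + qi p g h := by
  unfold qi
  rw [← integral_add (CL_Qi_int hf hh) (CL_Qi_int hg hh)]
  refine integral_congr_ae (Filter.Eventually.of_forall fun ω => ?_)
  show dg ω * ((f ω + g ω) * h ω) = dg ω * (f ω * h ω) + dg ω * (g ω * h ω)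
  ring

theorem qi_sub_left {f g h : Om d → ℝ} (hf : BM f) (hg : BM g) (hh : BM h) :
    qi p (fun ω => f ω - g ω) h = qi p f h - qi p g h := by
  unfold qi
  rw [← integral_sub (CL_Qi_int hf hh) (CL_Qi_int hg hh)]
  refine integral_congr_ae (Filter.Eventually.of_forall fun ω => ?_)
  show dg ω * ((f ω - g ω) * h ω) = dg ω * (f ω * h ω) - dg ω * (g ω * h ω)
  ring

theorem qi_smul_left (c : ℝ) (f h : Om d → ℝ) :
    qi p (fun ω => c * f ω) h = c * qi p f h := by
  unfold qi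
  rw [← integral_const_mul]
  refine integral_congr_ae (Filter.Eventually.of_forall fun ω => ?_)
  show dg ω * ((c * f ω) * h ω) = c * (dg ω * (f ω * h ω))
  ring

theorem qi_self_nonneg (f : Om d → ℝ) : 0 ≤ qi p f f :=
  integral_nonneg fun ω => mul_nonneg (dg_nonneg ω) (mul_self_nonneg _)

theorem qi_cs {f g : Om d → ℝ} (hf : BM f) (hg : BM g) :
    |qi p f g| ≤ Real.sqrt (qi p f f) * Real.sqrt (qi p g g) := by
  have key : ∀ t : ℝ, 0 ≤ qi p g g * (t * t) + (-(2 * qi p f g)) * t + qi p f f := by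
    intro t
    have hgt := hg.smul t
    have hK := hf.sub hgt
    have h0 := qi_self_nonneg (p := p) (fun ω => f ω - t * g ω)
    have e1 : qi p f (fun ω => f ω - t * g ω) = qi p f f - t * qi p f g := by
      rw [qi_comm f, qi_sub_left hf hgt hf, qi_smul_left, qi_comm g f]
    have e2 : qi p g (fun ω => f ω - t * g ω) = qi p f g - t * qi p g g := by
      rw [qi_comm g, qi_sub_left hf hgt hg, qi_smul_left]
    rw [qi_sub_left hf hgt hK, qi_smul_left, e1, e2] at h0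
    linarith
  have h1 := discrim_le_zero key
  unfold discrim at h1
  rw [← Real.sqrt_mul (qi_self_nonneg f)]
  refine Real.abs_le_sqrt ?_
  linarith

theorem Pe_sym {f g : Om d → ℝ} (hf : BM f) (hg : BM g) : qi p f (Pe g) = qi p (Pe f) g :=
  Ein99.Pe_symm p hf.1 hg.1 (CL_Qi_memLp hf) (CL_Qi_memLp hg)

theorem Pe_stat {f : Om d → ℝ} (hf : BM f) :
    ∫ ω, dg ω * Pe f ω ∂(nu d p) = ∫ ω, dg ω * f ω ∂(nu d p) := by
  have h1 := Ein99.int_dg_mul_Pe (d := d) p (f := fun _ => 1) (g := f)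
  simp only [one_mul] at h1
  rw [h1]
  exact Ein99.int_sh_eq p hf.1 hf.integrable

private theorem CL_Qi_sq {f : Om d → ℝ} (hf : BM f) (c : ℝ) :
    ∫ ω, ∑ δ, oo ω δ * ((f (sh (st δ) ω) + c * f ω) * (f (sh (st δ) ω) + c * f ω)) ∂(nu d p) =
      (1 + c ^ 2) * qi p f f + 2 * c * qi p f (Pe f) := by
  have hf2 : BM (fun ω => f ω * f ω) := hf.mul hf
  have iA : Integrable (fun ω => ∑ δ, oo ω δ * (f (sh (st δ) ω) * f (sh (st δ) ω))) (nu d p) :=
    Ein99.int_oo_sh p hf2.1 hf2.integrable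
  have iC : Integrable (fun ω => dg ω * (f ω * f ω)) (nu d p) := CL_Qi_int hf hf
  have iB : Integrable (fun ω => ∑ δ, oo ω δ * (f ω * f (sh (st δ) ω))) (nu d p) := by
    have h1 := Ein99.int_mixed_abs p hf.1 hf.1 (CL_Qi_memLp (p := p) hf) (CL_Qi_memLp hf)
    exact Ein99.int_oo_of_abs p (fun ω δ => f ω * f (sh (st δ) ω))
      (fun δ => hf.1.mul (hf.1.comp (measurable_sh _))) h1
  have iAB : Integrable (fun ω => (∑ δ, oo ω δ * (f (sh (st δ) ω) * f (sh (st δ) ω))) +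
      (2 * c) * (∑ δ, oo ω δ * (f ω * f (sh (st δ) ω)))) (nu d p) := iA.add (iB.const_mul (2 * c))
  have eA : ∫ ω, ∑ δ, oo ω δ * (f (sh (st δ) ω) * f (sh (st δ) ω)) ∂(nu d p) = qi p f f :=
    Ein99.int_sh_eq p hf2.1 hf2.integrable
  have eB : ∫ ω, ∑ δ, oo ω δ * (f ω * f (sh (st δ) ω)) ∂(nu d p) = qi p f (Pe f) :=
    (Ein99.int_dg_mul_Pe p).symm
  have e1 : ∫ ω, ∑ δ, oo ω δ * ((f (sh (st δ) ω) + c * f ω) * (f (sh (st δ) ω) + c * f ω))
        ∂(nu d p) =
      ∫ ω, ((∑ δ, oo ω δ * (f (sh (st δ) ω) * f (sh (st δ) ω))) +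
        (2 * c) * (∑ δ, oo ω δ * (f ω * f (sh (st δ) ω))) + c ^ 2 * (dg ω * (f ω * f ω)))
          ∂(nu d p) := by
    refine integral_congr_ae (Filter.Eventually.of_forall fun ω => ?_)
    show ∑ δ, oo ω δ * ((f (sh (st δ) ω) + c * f ω) * (f (sh (st δ) ω) + c * f ω)) =
      (∑ δ, oo ω δ * (f (sh (st δ) ω) * f (sh (st δ) ω))) +
        (2 * c) * (∑ δ, oo ω δ * (f ω * f (sh (st δ) ω))) + c ^ 2 * (dg ω * (f ω * f ω))
    rw [← sum_oo_mul, Finset.mul_sum, Finset.mul_sum, ← Finset.sum_add_distrib,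
      ← Finset.sum_add_distrib]
    refine Finset.sum_congr rfl fun δ _ => ?_
    ring
  rw [e1, integral_add iAB (iC.const_mul (c ^ 2)),
    integral_add iA (iB.const_mul (2 * c)), integral_const_mul, integral_const_mul, eA, eB]
  unfold qi
  ring

theorem Pe_dirichlet {f : Om d → ℝ} (hf : BM f) :
    qi p f f - qi p f (Pe f) = (1 / 2) * ip p (gr f) (gr f) := by
  have h := CL_Qi_sq (p := p) hf (-1)
  have h2 : ip p (gr f) (gr f) =
      ∫ ω, ∑ δ, oo ω δ * ((f (sh (st δ) ω) + (-1) * f ω) * (f (sh (st δ) ω) + (-1) * f ω))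
        ∂(nu d p) := by
    unfold ip gr
    refine integral_congr_ae (Filter.Eventually.of_forall fun ω => ?_)
    refine Finset.sum_congr rfl fun δ _ => ?_
    ring
  rw [h2, h]
  ring

theorem Pe_pos {f : Om d → ℝ} (hf : BM f) : 0 ≤ qi p f f + qi p f (Pe f) := by
  have h := CL_Qi_sq (p := p) hf 1
  have h2 : 0 ≤ ∫ ω, ∑ δ, oo ω δ * ((f (sh (st δ) ω) + 1 * f ω) * (f (sh (st δ) ω) + 1 * f ω))
      ∂(nu d p) :=
    integral_nonneg fun ω => Finset.sum_nonneg fun δ _ =>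
      mul_nonneg (oo_nonneg ω δ) (mul_self_nonneg _)
  rw [h] at h2
  linarith

theorem Pe_con {f : Om d → ℝ} (hf : BM f) : qi p (Pe f) (Pe f) ≤ qi p f f := by
  have h := Ein99.Pe_contr p hf.1 (CL_Qi_memLp (p := p) hf)
  unfold qi
  simp only [pow_two] at h
  exact h

end Ein99.CL
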