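import Pool.Agent.LibEinU.Defs

/-!
TASK CL_Stat. Bounded measurable functions `BM` and the environment operator `Pe` (`E_Op.lean`), pointwise facts.

`dg_mul_Pe'`: `Ein99.dg_mul_Pe` if `1 ≤ dg ω`; if `dg ω = 0` all `oo ω δ = 0`. (`dg ω` is a natural number: it is `0` or
`≥ 1`; or argue directly with `Zw 0 0 ω 0 = dg ω`, `wt 0 0 ω 0 δ = oo ω δ`: `Zw_zero_eq`, `wt_zero_eq`.)
`Pe_iter`: as `Ae_iter` in `E_Chi.lean` (shift covariance of `Pop`/`Pn`: `C_Shift.lean`).
-/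

open MeasureTheory ProbabilityTheory Filter Topology

namespace Ein99.CL

variable {d : ℕ} {p : unitInterval}

theorem BM.add {f g : Om d → ℝ} (hf : BM f) (hg : BM g) : BM (fun ω => f ω + g ω) := by
  obtain ⟨hf1, B, hB⟩ := hf
  obtain ⟨hg1, C, hC⟩ := hg
  exact ⟨hf1.add hg1, B + C, fun ω => (abs_add_le _ _).trans (add_le_add (hB ω) (hC ω))⟩

theorem BM.sub {f g : Om d → ℝ} (hf : BM f) (hg : BM g) : BM (fun ω => f ω - g ω) := by
  obtain ⟨hf1, B, hB⟩ := hf
  obtain ⟨hg1, C, hC⟩ := hg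
  exact ⟨hf1.sub hg1, B + C, fun ω => (abs_sub _ _).trans (add_le_add (hB ω) (hC ω))⟩

theorem BM.mul {f g : Om d → ℝ} (hf : BM f) (hg : BM g) : BM (fun ω => f ω * g ω) := by
  obtain ⟨hf1, B, hB⟩ := hf
  obtain ⟨hg1, C, hC⟩ := hg
  refine ⟨hf1.mul hg1, B * C, fun ω => ?_⟩
  rw [abs_mul]
  exact mul_le_mul (hB ω) (hC ω) (abs_nonneg _) ((abs_nonneg _).trans (hB ω))

theorem BM.smul {f : Om d → ℝ} (c : ℝ) (hf : BM f) : BM (fun ω => c * f ω) := by
  obtain ⟨hf1, B, hB⟩ := hf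
  refine ⟨hf1.const_mul c, |c| * B, fun ω => ?_⟩
  rw [abs_mul]
  exact mul_le_mul_of_nonneg_left (hB ω) (abs_nonneg _)

theorem BM.const (c : ℝ) : BM (fun _ : Om d => c) := ⟨measurable_const, |c|, fun _ => le_rfl⟩

theorem BM.dg : BM (fun ω : Om d => Ein99.dg ω) := by
  refine ⟨measurable_dg, 2 * d, fun ω => ?_⟩
  rw [abs_of_nonneg (dg_nonneg ω)]
  exact dg_le ω

private instance clst_fin (p : unitInterval) : IsFiniteMeasure (nu d p) := by
  unfold nu; infer_instance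

theorem BM.integrable {f : Om d → ℝ} (hf : BM f) : Integrable f (nu d p) := by
  obtain ⟨hf1, B, hB⟩ := hf
  refine Integrable.mono' (integrable_const B) hf1.aestronglyMeasurable ?_
  exact Filter.Eventually.of_forall fun ω => by
    rw [Real.norm_eq_abs]
    exact hB ω

theorem BM.sh {f : Om d → ℝ} (hf : BM f) (z : V d) : BM (fun ω => f (Ein99.sh z ω)) := by
  obtain ⟨hf1, B, hB⟩ := hf
  exact ⟨hf1.comp (measurable_sh z), B, fun ω => hB _⟩

theorem Pe_mono' {f g : Om d → ℝ} (h : ∀ ω, f ω ≤ g ω) (ω : Om d) : Pe f ω ≤ Pe g ω :=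
  Pop_mono (d := d) 0 0 ω (g := fun x => f (Ein99.sh x ω)) (h := fun x => g (Ein99.sh x ω))
    (fun x => h _) 0

theorem Pe_const (c : ℝ) (ω : Om d) : Pe (fun _ => c) ω = c := by
  have := congrFun (Pop_const (d := d) 0 0 ω c) 0
  exact this

theorem Pe_bound {f : Om d → ℝ} {B : ℝ} (hB : ∀ ω, |f ω| ≤ B) (ω : Om d) : |Pe f ω| ≤ B := by
  rw [abs_le]
  constructor
  · have h := Pe_mono' (f := fun _ => -B) (g := f) (fun ω => (abs_le.mp (hB ω)).1) ω
    rwa [Pe_const] at h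
  · have h := Pe_mono' (f := f) (g := fun _ => B) (fun ω => (abs_le.mp (hB ω)).2) ω
    rwa [Pe_const] at h

theorem Pe_iter_bound {f : Om d → ℝ} {B : ℝ} (hB : ∀ ω, |f ω| ≤ B) (m : ℕ) (ω : Om d) :
    |(Pe^[m] f) ω| ≤ B := by
  induction m generalizing ω with
  | zero => exact hB ω
  | succ m ih =>
    rw [Function.iterate_succ_apply']
    exact Pe_bound ih ω

theorem BM.Pe {f : Om d → ℝ} (hf : BM f) : BM (Ein99.Pe f) := by
  obtain ⟨hf1, B, hB⟩ := hf
  exact ⟨measurable_Pe hf1, B, Pe_bound hB⟩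

theorem BM.Pe_iter {f : Om d → ℝ} (hf : BM f) (m : ℕ) : BM (Ein99.Pe^[m] f) := by
  induction m with
  | zero => exact hf
  | succ m ih =>
    rw [Function.iterate_succ_apply']
    exact ih.Pe

theorem BM.Sn {f : Om d → ℝ} (hf : BM f) (n : ℕ) : BM (Sn f n) := by
  induction n with
  | zero =>
    have e : Ein99.CL.Sn f 0 = fun _ => (0 : ℝ) := by
      funext ω
      unfold Ein99.CL.Sn
      rw [Finset.sum_range_zero]
    rw [e]
    exact BM.const 0
  | succ n ih =>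
    have e : Ein99.CL.Sn f (n + 1)
        = fun ω => Ein99.CL.Sn f n ω + (Ein99.Pe^[n] f) ω := by
      funext ω
      unfold Ein99.CL.Sn
      rw [Finset.sum_range_succ]
    rw [e]
    exact ih.add (hf.Pe_iter n)

theorem BM.Ae {f : Om d → ℝ} (hf : BM f) : BM (Ein99.Ae f) := by
  have e : Ein99.Ae f = fun ω => (1 / 2 : ℝ) * (f ω + Ein99.Pe f ω) := by
    funext ω
    rw [Ae_eq]
    ring
  rw [e]
  exact (hf.add hf.Pe).smul _

theorem Pe_add (f g : Om d → ℝ) (ω : Om d) : Pe (fun ω => f ω + g ω) ω = Pe f ω + Pe g ω := by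
  have := congrFun (Pop_add (d := d) 0 0 ω (fun x => f (Ein99.sh x ω))
    (fun x => g (Ein99.sh x ω))) 0
  exact this

theorem Pe_smul (c : ℝ) (f : Om d → ℝ) (ω : Om d) : Pe (fun ω => c * f ω) ω = c * Pe f ω := by
  have := congrFun (Pop_smul (d := d) 0 0 ω c (fun x => f (Ein99.sh x ω))) 0
  exact this

theorem Pe_sum {ι : Type*} (s : Finset ι) (f : ι → Om d → ℝ) (ω : Om d) :
    Pe (fun ω => ∑ i ∈ s, f i ω) ω = ∑ i ∈ s, Pe (f i) ω := by
  classical
  induction s using Finset.induction_on with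
  | empty =>
    simp only [Finset.sum_empty]
    exact Pe_const 0 ω
  | insert a s ha ih =>
    simp only [Finset.sum_insert ha]
    rw [Pe_add, ih]

theorem dg_mul_Pe' (f : Om d → ℝ) (ω : Om d) :
    dg ω * Pe f ω = ∑ δ, oo ω δ * f (sh (st δ) ω) := by
  by_cases h : dg ω = 0
  · have h0 : ∀ δ, oo ω δ = 0 := by
      have h' := h
      unfold Ein99.dg at h'
      rw [Finset.sum_eq_zero_iff_of_nonneg fun δ _ => oo_nonneg ω δ] at h'
      exact fun δ => h' δ (Finset.mem_univ δ)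
    rw [h, zero_mul]
    exact (Finset.sum_eq_zero fun δ _ => by rw [h0, zero_mul]).symm
  · unfold Ein99.Pe Pop
    rw [Zw_zero_eq, if_neg h, mul_div_cancel₀ _ h]
    refine Finset.sum_congr rfl (fun δ _ => ?_)
    rw [wt_zero_eq, zero_add]

theorem Pe_sh_aux (f : Om d → ℝ) (ω : Om d) (x : V d) :
    Pe f (sh x ω) = Pop 0 0 ω (fun x => f (sh x ω)) x := by
  have h := Pn_sh (d := d) 0 0 ω x 1 (fun y => f (sh y (sh x ω))) 0
  rw [Pn_succ, Pn_zero, Pn_succ, Pn_zero] at h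
  have e : (fun y : V d => f (sh (y - x) (sh x ω))) = fun y => f (sh y ω) := by
    funext y
    rw [sh_sh, sub_add_cancel]
  rw [e, zero_add] at h
  exact h

theorem Pe_iter (f : Om d → ℝ) (m : ℕ) (ω : Om d) :
    (Pe^[m] f) ω = Pn 0 0 ω m (fun x => f (sh x ω)) 0 := by
  induction m generalizing f with
  | zero => rw [Function.iterate_zero, Pn_zero, sh_zero]; rfl
  | succ m ih =>
    rw [Function.iterate_succ, Function.comp_apply, ih, Pn_succ']
    congr 1
    funext x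
    exact Pe_sh_aux f ω x

end Ein99.CL
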