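import Pool.Agent.LibEinU.CL_PM
import Pool.Agent.LibEinU.CL_Qi

/-!
TASK CL_V. The second moment of an additive functional.

With `F x _ = f (sh x ω)`: `PFn n (fun _ w => w) x w = w + ∑_{m<n} Pn 0 0 ω m (f (sh · ω)) x` and
`PFn n (fun _ w => w²) x w = w² + 2 w S_n(x) + AF_n(x)`, by induction; covariance under shifts gives
`PFn ω F n (fun _ w => w²) x w` at `x = st δ` in terms of `AFn f n (sh (st δ) ω)`: prove
`AFn_shift` by induction from `Zw_sh`, `sh_sh`. Then
`AFn f (n+1) ω = f ω ² + 2 f ω * Pe (Sn f n) ω + Pe (AFn f n) ω` if `dg ω ≠ 0`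
(if `dg ω = 0`, `AFn f (n+1) ω` is what it is: multiply by `dg ω`). `Sn f (n+1) = f + Pe (Sn f n)` if `dg ≠ 0`
(always true, since `Pe_sum` holds always). Integrate: `Pe_stat`.
`AF_trivial`: `(∑_{j<n} a_j)² ≤ n ∑ a_j²` along the walk: prove
`PFn n (fun _ w => w²) x 0 ≤ n * ∑_{m<n} Pn m (f² ∘ sh) x` by induction, or use `AF_int` and
`qi f (Pe^[m] f) ≤ qi f f` (`qi_cs`, `Pe_con`).
-/

open MeasureTheory ProbabilityTheory Filter Topology

namespace Ein99.CL

variable {d : ℕ} {p : unitInterval}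

private instance clv_fin (p : unitInterval) : IsFiniteMeasure (nu d p) := by
  unfold nu; infer_instance

theorem BM.AFn {f : Om d → ℝ} (hf : BM f) (n : ℕ) : BM (AFn f n) := by
  obtain ⟨hf1, B, hB⟩ := hf
  constructor
  · have h := measurable_PFn (d := d) (E := ℝ) (fun ω x _ => f (Ein99.sh x ω))
      (fun x _ => hf1.comp (measurable_sh x)) n (fun _ w => w ^ 2)
      (fun _ => measurable_id.pow_const 2) 0
    exact h.comp (measurable_id.prodMk measurable_const)
  · refine ⟨(n * B) ^ 2, fun ω => ?_⟩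
    have hB0 : 0 ≤ B := (abs_nonneg _).trans (hB ω)
    have h0 : 0 ≤ Ein99.CL.AFn f n ω := by
      have h := PFn_mono (d := d) (E := ℝ) ω (fun x _ => f (Ein99.sh x ω)) n
        (g := fun _ _ => 0) (h := fun _ w => w ^ 2) (fun _ w => sq_nonneg w) 0 0
      rwa [PFn_const] at h
    rw [abs_of_nonneg h0]
    refine PFn_le_of_inv (d := d) (E := ℝ) ω (fun x _ => f (Ein99.sh x ω)) n (fun _ w => w ^ 2)
      (fun j _ y => |y| ≤ j * B) ?_ ?_ _ ?_ 0 0 ?_
    · intro j x δ y hy _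
      have h1 := abs_add_le y (f (Ein99.sh x ω))
      have h2 := hB (Ein99.sh x ω)
      push_cast
      linarith
    · intro j x y hy
      push_cast
      linarith
    · intro x y hy
      have h1 : |y| ^ 2 ≤ (n * B) ^ 2 := pow_le_pow_left₀ (abs_nonneg y) hy 2
      rwa [sq_abs] at h1
    · simp

theorem AFn_nonneg (f : Om d → ℝ) (n : ℕ) (ω : Om d) : 0 ≤ AFn f n ω := by
  have h := PFn_mono (d := d) (E := ℝ) ω (fun x _ => f (sh x ω)) n
    (g := fun _ _ => 0) (h := fun _ w => w ^ 2) (fun _ w => sq_nonneg w) 0 0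
  rwa [PFn_const] at h

theorem Sn_succ (f : Om d → ℝ) (n : ℕ) (ω : Om d) : Sn f (n + 1) ω = f ω + Pe (Sn f n) ω := by
  have e : Sn f n = fun ω => ∑ m ∈ Finset.range n, (Pe^[m] f) ω := rfl
  rw [e, Pe_sum]
  unfold Sn
  rw [Finset.sum_range_succ', Function.iterate_zero, id_eq, add_comm]
  congr 1
  refine Finset.sum_congr rfl fun m _ => ?_
  rw [Function.iterate_succ_apply']

theorem clv_wt_sh (ω : Om d) (z x : V d) (δ : Dir d) :
    wt 0 0 (sh z ω) x δ = wt 0 0 ω (x + z) δ := by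
  rw [← oo_sh, ← oo_sh, sh_sh]

theorem clv_shift (f : Om d → ℝ) (ω : Om d) (z : V d) (n : ℕ) (g : ℝ → ℝ) (x : V d) (y : ℝ) :
    PFn (sh z ω) (fun x _ => f (sh x (sh z ω))) n (fun _ w => g w) x y
      = PFn ω (fun x _ => f (sh x ω)) n (fun _ w => g w) (x + z) y := by
  induction n generalizing x y with
  | zero => rfl
  | succ n ih =>
    rw [PFn_succ, PFn_succ]
    unfold PF
    rw [Zw_sh, ih]
    have hs : ∑ δ, wt 0 0 (sh z ω) x δ *
          PFn (sh z ω) (fun x _ => f (sh x (sh z ω))) n (fun _ w => g w) (x + st δ)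
            (y + f (sh x (sh z ω)))
        = ∑ δ, wt 0 0 ω (x + z) δ *
          PFn ω (fun x _ => f (sh x ω)) n (fun _ w => g w) (x + z + st δ)
            (y + f (sh (x + z) ω)) := by
      refine Finset.sum_congr rfl fun δ _ => ?_
      rw [ih, clv_wt_sh, sh_sh, add_right_comm x (st δ) z]
    rw [hs]

theorem clv_nb (ω : Om d) (x : V d) (δ : Dir d) (h : opn ω x δ) : Zw 0 0 ω (x + st δ) ≠ 0 := by
  intro h0
  rw [Zw_eq_zero_iff] at h0
  refine h0 (rv δ) ?_
  rcases δ with ⟨i, b⟩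
  cases b
  · unfold opn ed rv at *
    simpa using h
  · unfold opn ed rv at *
    have e : x + st ((i, true) : Dir d) + st ((i, false) : Dir d) = x := by
      have := st_rv_add ((i, false) : Dir d)
      unfold rv at this
      simp only [Bool.not_false] at this
      rw [add_assoc, this, add_zero]
    simpa [e] using h

/-- the mean of the additive functional -/
theorem clv_mean (f : Om d → ℝ) (ω : Om d) (n : ℕ) (x : V d) (w : ℝ) (hx : Zw 0 0 ω x ≠ 0) :
    PFn ω (fun x _ => f (sh x ω)) n (fun _ w => w) x w = w + Sn f n (sh x ω) := by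
  induction n generalizing x w with
  | zero =>
    unfold Sn
    rw [Finset.sum_range_zero, add_zero]
    rfl
  | succ n ih =>
    rw [PFn_succ]
    unfold PF
    rw [if_neg hx, Sn_succ]
    have hs : ∑ δ, wt 0 0 ω x δ *
          PFn ω (fun x _ => f (sh x ω)) n (fun _ w => w) (x + st δ) (w + f (sh x ω))
        = Zw 0 0 ω x * (w + f (sh x ω)) + Zw 0 0 ω x * Pe (Sn f n) (sh x ω) := by
      rw [← dg_sh ω x, dg_mul_Pe', dg_sh ω x]
      unfold Zw
      rw [Finset.sum_mul, ← Finset.sum_add_distrib]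
      refine Finset.sum_congr rfl fun δ _ => ?_
      rw [oo_sh, sh_sh, add_comm (st δ) x]
      by_cases hδ : opn ω x δ
      · rw [ih _ _ (clv_nb ω x δ hδ)]
        ring
      · have h0 : wt 0 0 ω x δ = 0 := by
          unfold wt
          rw [if_neg hδ]
        rw [h0]
        ring
    rw [hs]
    field_simp
    ring

/-- a general starting value -/
theorem clv_sq (f : Om d → ℝ) (ω : Om d) (n : ℕ) (x : V d) (w : ℝ) (hx : Zw 0 0 ω x ≠ 0) :
    PFn ω (fun x _ => f (sh x ω)) n (fun _ w => w ^ 2) x w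
      = w ^ 2 + 2 * w * Sn f n (sh x ω) + AFn f n (sh x ω) := by
  have h1 := PFn_map (d := d) (E := ℝ) (E' := ℝ) ω (fun x _ => f (sh x ω))
    (fun x _ => f (sh x ω)) (fun _ y => y + w) (fun x δ y _ => by ring) n (fun _ w => w ^ 2) x 0
  rw [zero_add] at h1
  rw [← h1]
  have e : (fun (_ : V d) (y : ℝ) => (y + w) ^ 2)
      = fun _ y => y ^ 2 + (2 * w * y + w ^ 2) := by
    funext _ y
    ring
  have h2 := PFn_add (d := d) (E := ℝ) ω (fun x _ => f (sh x ω)) n (fun _ y => y ^ 2)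
    (fun _ y => 2 * w * y + w ^ 2) x 0
  have h3 := PFn_add (d := d) (E := ℝ) ω (fun x _ => f (sh x ω)) n (fun _ y => 2 * w * y)
    (fun _ _ => w ^ 2) x 0
  have h4 := PFn_smul (d := d) (E := ℝ) ω (fun x _ => f (sh x ω)) n (2 * w) (fun _ y => y) x 0
  have h5 := PFn_const (d := d) (E := ℝ) ω (fun x _ => f (sh x ω)) n (w ^ 2) x 0
  have h6 := clv_mean f ω n x 0 hx
  have h7 := clv_shift f ω x n (fun w => w ^ 2) 0 0
  rw [zero_add] at h7
  rw [e, h2, h3, h4, h5, h6, ← h7]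
  unfold AFn
  ring

theorem clv_rec (f : Om d → ℝ) (n : ℕ) (ω : Om d) :
    dg ω * AFn f (n + 1) ω
      = dg ω * (f ω ^ 2 + 2 * f ω * Pe (Sn f n) ω + Pe (AFn f n) ω) := by
  by_cases h : dg ω = 0
  · rw [h, zero_mul, zero_mul]
  · have hZ : Zw 0 0 ω 0 ≠ 0 := by
      rw [Zw_zero_eq]
      exact h
    have e : AFn f (n + 1) ω = (∑ δ, wt 0 0 ω 0 δ *
        PFn ω (fun x _ => f (sh x ω)) n (fun _ w => w ^ 2) (0 + st δ) (0 + f (sh 0 ω)))
          / Zw 0 0 ω 0 := by
      unfold AFn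
      rw [PFn_succ]
      unfold PF
      rw [if_neg hZ]
    rw [e, Zw_zero_eq, mul_div_cancel₀ _ h, mul_add, mul_add, dg_mul_Pe']
    have e2 : dg ω * (2 * f ω * Pe (Sn f n) ω) = 2 * f ω * (dg ω * Pe (Sn f n) ω) := by ring
    rw [e2, dg_mul_Pe', Finset.mul_sum]
    unfold dg
    rw [Finset.sum_mul, ← Finset.sum_add_distrib, ← Finset.sum_add_distrib]
    refine Finset.sum_congr rfl fun δ _ => ?_
    rw [wt_zero_eq, zero_add, zero_add, sh_zero]
    by_cases hδ : opn ω 0 δ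
    · have hn := clv_nb ω 0 δ hδ
      rw [zero_add] at hn
      rw [clv_sq f ω n (st δ) (f ω) hn]
      ring
    · have h0 : oo ω δ = 0 := by
        unfold oo
        rw [if_neg hδ]
      rw [h0]
      ring

theorem AF_int {f : Om d → ℝ} (hf : BM f) (n : ℕ) :
    ∫ ω, dg ω * AFn f n ω ∂(nu d p)
      = 2 * ∑ j ∈ Finset.range n, qi p f (Sn f (j + 1)) - n * qi p f f := by
  induction n with
  | zero =>
    have e : ∀ ω : Om d, AFn f 0 ω = 0 := by
      intro ω
      unfold AFn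
      rw [PFn_zero]
      norm_num
    simp [e]
  | succ n ih =>
    have e1 : ∫ ω, dg ω * AFn f (n + 1) ω ∂(nu d p)
        = ∫ ω, (dg ω * Pe (AFn f n) ω
          + (2 * (dg ω * (f ω * Sn f (n + 1) ω)) - dg ω * (f ω * f ω))) ∂(nu d p) := by
      refine integral_congr_ae (Filter.Eventually.of_forall fun ω => ?_)
      simp only
      rw [clv_rec, Sn_succ]
      ring
    have i1 : Integrable (fun ω => dg ω * Pe (AFn f n) ω) (nu d p) :=
      (BM.dg.mul (hf.AFn n).Pe).integrable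
    have i2 : Integrable (fun ω => 2 * (dg ω * (f ω * Sn f (n + 1) ω))) (nu d p) :=
      ((BM.dg.mul (hf.mul (hf.Sn (n + 1)))).smul 2).integrable
    have i3 : Integrable (fun ω => dg ω * (f ω * f ω)) (nu d p) :=
      (BM.dg.mul (hf.mul hf)).integrable
    have i4 : Integrable (fun ω => 2 * (dg ω * (f ω * Sn f (n + 1) ω)) - dg ω * (f ω * f ω))
        (nu d p) := i2.sub i3
    rw [e1, integral_add i1 i4, integral_sub i2 i3, integral_const_mul,
      Pe_stat (hf.AFn n), ih, Finset.sum_range_succ]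
    unfold qi
    push_cast
    ring

theorem AF_add (f g : Om d → ℝ) (n : ℕ) (ω : Om d) :
    AFn (fun ω => f ω + g ω) n ω ≤ 2 * AFn f n ω + 2 * AFn g n ω := by
  set F : V d → Dir d → ℝ × ℝ := fun x _ => (f (sh x ω), g (sh x ω)) with hF
  have h1 := PFn_map (d := d) (E := ℝ × ℝ) (E' := ℝ) ω F
    (fun x _ => f (sh x ω) + g (sh x ω)) (fun _ y => y.1 + y.2)
    (fun x δ y _ => by simp only [hF, Prod.fst_add, Prod.snd_add]; ring) n
    (fun _ w => w ^ 2) 0 (0, 0)
  have h2 := PFn_map (d := d) (E := ℝ × ℝ) (E' := ℝ) ω F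
    (fun x _ => f (sh x ω)) (fun _ y => y.1)
    (fun x δ y _ => by simp only [hF, Prod.fst_add]) n
    (fun _ w => w ^ 2) 0 (0, 0)
  have h3 := PFn_map (d := d) (E := ℝ × ℝ) (E' := ℝ) ω F
    (fun x _ => g (sh x ω)) (fun _ y => y.2)
    (fun x δ y _ => by simp only [hF, Prod.snd_add]) n
    (fun _ w => w ^ 2) 0 (0, 0)
  rw [add_zero] at h1
  have e1 : AFn (fun ω => f ω + g ω) n ω
      = PFn ω F n (fun _ y => (y.1 + y.2) ^ 2) 0 (0, 0) := h1.symm
  have e2 : AFn f n ω = PFn ω F n (fun _ y => y.1 ^ 2) 0 (0, 0) := h2.symm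
  have e3 : AFn g n ω = PFn ω F n (fun _ y => y.2 ^ 2) 0 (0, 0) := h3.symm
  rw [e1, e2, e3, ← PFn_smul, ← PFn_smul, ← PFn_add]
  exact PFn_mono ω F n (fun _ y => by nlinarith [sq_nonneg (y.1 - y.2)]) 0 (0, 0)

theorem clv_con {f : Om d → ℝ} (hf : BM f) (m : ℕ) :
    qi p (Pe^[m] f) (Pe^[m] f) ≤ qi p f f := by
  induction m with
  | zero => exact le_rfl
  | succ m ih =>
    rw [Function.iterate_succ_apply']
    exact (Pe_con (hf.Pe_iter m)).trans ih

theorem clv_corr {f : Om d → ℝ} (hf : BM f) (m : ℕ) : qi p f (Pe^[m] f) ≤ qi p f f := by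
  have h1 := qi_cs (p := p) hf (hf.Pe_iter m)
  have h2 : Real.sqrt (qi p (Pe^[m] f) (Pe^[m] f)) ≤ Real.sqrt (qi p f f) :=
    Real.sqrt_le_sqrt (clv_con hf m)
  have h3 := Real.mul_self_sqrt (qi_self_nonneg (p := p) f)
  calc qi p f (Pe^[m] f) ≤ |qi p f (Pe^[m] f)| := le_abs_self _
    _ ≤ Real.sqrt (qi p f f) * Real.sqrt (qi p (Pe^[m] f) (Pe^[m] f)) := h1
    _ ≤ Real.sqrt (qi p f f) * Real.sqrt (qi p f f) :=
        mul_le_mul_of_nonneg_left h2 (Real.sqrt_nonneg _)
    _ = _ := h3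

theorem clv_qi_Sn {f : Om d → ℝ} (hf : BM f) (n : ℕ) : qi p f (Sn f n) ≤ n * qi p f f := by
  induction n with
  | zero =>
    have e : Sn f 0 = fun _ => (0 : ℝ) := by
      funext ω
      unfold Sn
      rw [Finset.sum_range_zero]
    rw [e]
    unfold qi
    simp
  | succ n ih =>
    have e : Sn f (n + 1) = fun ω => Sn f n ω + (Pe^[n] f) ω := by
      funext ω
      unfold Sn
      rw [Finset.sum_range_succ]
    rw [e, qi_comm, qi_add_left (hf.Sn n) (hf.Pe_iter n) hf, qi_comm (Sn f n), qi_comm (Pe^[n] f)]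
    have := clv_corr (p := p) hf n
    push_cast
    linarith

theorem AF_trivial {f : Om d → ℝ} (hf : BM f) (n : ℕ) :
    ∫ ω, dg ω * AFn f n ω ∂(nu d p) ≤ (n : ℝ) ^ 2 * qi p f f := by
  rw [AF_int hf]
  have h : ∀ n : ℕ, 2 * ∑ j ∈ Finset.range n, qi p f (Sn f (j + 1))
      ≤ ((n : ℝ) ^ 2 + n) * qi p f f := by
    intro n
    induction n with
    | zero => simp
    | succ n ih =>
      rw [Finset.sum_range_succ, mul_add]
      have h1 := clv_qi_Sn (p := p) hf (n + 1)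
      push_cast at h1 ⊢
      nlinarith
  have := h n
  linarith

end Ein99.CL
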