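import Pool.Agent.LibEin99.E_U

/-!
# The annealed central limit theorem on the infinite cluster: definitions

`PFn ω F n g x y = E_x[g(X_n, y + ∑_{j<n} F(X_j, δ_j))]` for the (non lazy) simple random walk `X` in the
configuration `ω` with steps `δ_j`.
-/

open MeasureTheory ProbabilityTheory Filter Topology

namespace Ein99.CL

variable {d : ℕ}

/-- One step of the simple random walk together with the additive functional `F`. -/
noncomputable def PF {E : Type*} [Add E] (ω : Om d) (F : V d → Dir d → E) (g : V d → E → ℝ)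
    (x : V d) (y : E) : ℝ :=
  if Zw 0 0 ω x = 0 then g x y
  else (∑ δ, wt 0 0 ω x δ * g (x + st δ) (y + F x δ)) / Zw 0 0 ω x

/-- `n` steps of the simple random walk together with the additive functional `F`. -/
noncomputable def PFn {E : Type*} [Add E] (ω : Om d) (F : V d → Dir d → E) (n : ℕ)
    (g : V d → E → ℝ) : V d → E → ℝ := (PF ω F)^[n] g

/-- Bounded measurable functions. -/
def BM (f : Om d → ℝ) : Prop := Measurable f ∧ ∃ B : ℝ, ∀ ω, |f ω| ≤ B

/-- The inner product with respect to the degree biased measure. -/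
noncomputable def qi (p : unitInterval) (f g : Om d → ℝ) : ℝ :=
  ∫ ω, dg ω * (f ω * g ω) ∂(nu d p)

/-- `Sn f n ω = E_ω[∑_{j<n} f(env_j)]`. -/
noncomputable def Sn (f : Om d → ℝ) (n : ℕ) (ω : Om d) : ℝ :=
  ∑ m ∈ Finset.range n, (Pe^[m] f) ω

/-- `AFn f n ω = E_ω[(∑_{j<n} f(env_j))^2]`. -/
noncomputable def AFn (f : Om d → ℝ) (n : ℕ) (ω : Om d) : ℝ :=
  PFn ω (fun x _ => f (sh x ω)) n (fun _ w => w ^ 2) 0 (0 : ℝ)

/-- The lazy drift of the approximate harmonic coordinate. -/
noncomputable def ak (l : Fin d → ℝ) (k : ℕ) (ω : Om d) : ℝ := chi l (k + 1) ω - chi l k ω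

/-- The martingale increment. -/
noncomputable def Mk (l : Fin d → ℝ) (k : ℕ) (ω : Om d) (δ : Dir d) : ℝ :=
  GPsi l k ω δ - 2 * ak l k ω

/-- The conditional variance of the martingale increment. -/
noncomputable def gk (l : Fin d → ℝ) (k : ℕ) (ω : Om d) : ℝ :=
  (∑ δ, oo ω δ * Mk l k ω δ ^ 2) / dg ω

/-- The variance of the martingale. -/
noncomputable def mk (p : unitInterval) (l : Fin d → ℝ) (k : ℕ) : ℝ :=
  (∫ ω, dg ω * gk l k ω ∂(nu d p)) / kap d p

/-- The increments of the martingale and of its conditional variance along the walk. -/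
noncomputable def Fk (l : Fin d → ℝ) (k : ℕ) (ω : Om d) (x : V d) (δ : Dir d) : ℝ × ℝ :=
  (Mk l k (sh x ω) δ, gk l k (sh x ω))

/-- The approximate harmonic coordinate. -/
noncomputable def Psi (l : Fin d → ℝ) (k : ℕ) (ω : Om d) (x : V d) : ℝ := Ln ω k (dot l) x

/-- `α_j = u_{j+1} - u_j`. -/
noncomputable def al (p : unitInterval) (l : Fin d → ℝ) (j : ℕ) : ℝ := uu p l (j + 1) - uu p l j

end Ein99.CL
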