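import Pool.Agent.LibEinU.U_Up

/-!
# Lower bound for the mean displacement, without assuming that the speed exists
-/

open MeasureTheory ProbabilityTheory Filter Topology

namespace Ein99

variable {d : ℕ} {p : unitInterval} {K : ℕ} {C c : ℝ}

theorem un_int_DD (lam : ℝ) (l : Fin d → ℝ) (hl : ∑ i, l i ^ 2 = 1) (n : ℕ) :
    Integrable (fun ω : Om d => DD lam l ω n 0) (nu d p) :=
  BSpeed_int (measurable_DD lam l n 0) n (fun ω => abs_DD_le lam l hl ω n 0)

/-- a priori bounds -/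
theorem Dn_bounds (lam : ℝ) (h0 : 0 < lam) (h1 : lam ≤ 1) (l : Fin d → ℝ)
    (hl : ∑ i, l i ^ 2 = 1) (ht : 0 < tha d p) (η : ℝ) (hη : 0 < η) : ∀ᶠ n : ℕ in atTop,
    -η ≤ Dn p lam l n / (tha d p * lam) ∧ Dn p lam l n / (tha d p * lam) ≤ 1 + η := by
  haveI := BSpeed_fin (d := d) (p := p)
  obtain ⟨C, hC, hDD⟩ := DD_le d
  have hi1 : ∀ n : ℕ, Integrable (fun ω : Om d => DD lam l ω n 0) (nu d p) := fun n =>
    un_int_DD lam l hl n
  have h2 : Tendsto (fun n : ℕ => -(C / lam * tha d p) * (Real.log ((n : ℝ) + 2) / n)) atTop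
      (𝓝 0) := by
    have := BSpeed_log_div.const_mul (-(C / lam * tha d p))
    rwa [mul_zero] at this
  have h3 : Tendsto (fun n : ℕ => tha d p * lam + C * tha d p *
      (Real.sqrt ((n : ℝ) * Real.log ((n : ℝ) + 2)) / n)) atTop (𝓝 (tha d p * lam)) := by
    have := (BSpeed_sqrt_div.const_mul (C * tha d p)).const_add (tha d p * lam)
    rwa [mul_zero, add_zero] at this
  have hpos : 0 < tha d p * lam * η := by positivity
  filter_upwards [eventually_ge_atTop 1, h2.eventually (eventually_ge_nhds (by linarith :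
    -(tha d p * lam * η) < 0)), h3.eventually (eventually_le_nhds (by linarith :
    tha d p * lam < tha d p * lam + tha d p * lam * η))] with n hn g2 g3
  have hn0 : (0 : ℝ) < n := by exact_mod_cast hn
  have htl : 0 < tha d p * lam := by positivity
  constructor
  · rw [le_div_iff₀ htl]
    have h4 : (∫ _ω, (-(C / lam * Real.log ((n : ℝ) + 2))) ∂(nu d p)) ≤
        ∫ ω, DD lam l ω n 0 ∂(nu d p) := by
      apply integral_mono (integrable_const _) (hi1 n)
      intro ω
      have h5 := (hDD lam l ω n 0 h0.le h1 hl hn).2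
      have h6 : -(C * Real.log ((n : ℝ) + 2)) ≤ DD lam l ω n 0 * lam := by linarith
      have h7 : -(C * Real.log ((n : ℝ) + 2)) / lam ≤ DD lam l ω n 0 := by
        rw [div_le_iff₀ h0]
        exact h6
      calc -(C / lam * Real.log ((n : ℝ) + 2)) = -(C * Real.log ((n : ℝ) + 2)) / lam := by ring
        _ ≤ _ := h7
    rw [integral_const, smul_eq_mul] at h4
    have h5 : -(C / lam * tha d p) * (Real.log ((n : ℝ) + 2) / n) ≤ Dn p lam l n := by
      unfold Dn
      calc -(C / lam * tha d p) * (Real.log ((n : ℝ) + 2) / n)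
          = (1 / (n : ℝ)) * (tha d p * -(C / lam * Real.log ((n : ℝ) + 2))) := by ring
        _ ≤ (1 / (n : ℝ)) * ∫ ω, DD lam l ω n 0 ∂(nu d p) := by
            apply mul_le_mul_of_nonneg_left _ (by positivity)
            exact h4
    linarith
  · rw [div_le_iff₀ htl]
    have h4 : ∫ ω, DD lam l ω n 0 ∂(nu d p) ≤
        ∫ _ω, (lam * n + C * Real.sqrt ((n : ℝ) * Real.log ((n : ℝ) + 2))) ∂(nu d p) := by
      apply integral_mono (hi1 n) (integrable_const _)
      intro ω
      exact (hDD lam l ω n 0 h0.le h1 hl hn).1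
    rw [integral_const, smul_eq_mul] at h4
    have h5 : Dn p lam l n ≤ tha d p * lam + C * tha d p *
        (Real.sqrt ((n : ℝ) * Real.log ((n : ℝ) + 2)) / n) := by
      unfold Dn
      calc (1 / (n : ℝ)) * ∫ ω, DD lam l ω n 0 ∂(nu d p)
          ≤ (1 / (n : ℝ)) * (tha d p *
            (lam * n + C * Real.sqrt ((n : ℝ) * Real.log ((n : ℝ) + 2)))) := by
            apply mul_le_mul_of_nonneg_left _ (by positivity)
            exact h4
        _ = tha d p * lam + C * tha d p *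
            (Real.sqrt ((n : ℝ) * Real.log ((n : ℝ) + 2)) / n) := by
            field_simp
    linarith

/-- the integrated inequality for finite `n` -/
theorem low_bound (l : Fin d → ℝ) (hl : ∑ i, l i ^ 2 = 1) (lam : ℝ) (h0 : 0 < lam)
    (h1 : lam ≤ 1) {J : Fld d} {r : ℕ} {M : ℝ}
    (hL : ∀ δ, Loc (EB r (0 : V d) : Set (Ed d)) (fun ω => J ω δ)) (hM0 : 0 ≤ M)
    (hM : ∀ ω δ, |J ω δ| ≤ M) (hA : Anti J) (hS : Supp J) (a : ℝ) (ha : 0 < a) :
    ∃ c1 c2 : ℝ, ∀ n : ℕ, 1 ≤ n → 2 * |Ann p lam l n (blh lam l J)| ≤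
      c1 * (1 / (n : ℝ)) + c2 * (Real.log ((n : ℝ) + 2) / n) +
      a * lam * Dn p lam l n + Ann p lam l n (blh2 lam l J) / a := by
  have := BSpeed_fin (d := d) (p := p)
  obtain ⟨C, hC, hpt⟩ := low_point d
  set c1 : ℝ := tha d p * (2 * (C * M) + C * M ^ 2 / a) with hc1
  refine ⟨c1, a * tha d p * C, ?_⟩
  intro n hn1
  have hnp : (0 : ℝ) < n := by exact_mod_cast hn1
  have hi1 : Integrable (fun ω : Om d => DD lam l ω n 0) (nu d p) := un_int_DD lam l hl n
  have m1 : Measurable (blh lam l J) := Loc.measurable _ (bl_loc_h lam l hL)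
  have m2 : Measurable (blh2 lam l J) := Loc.measurable _ (bl_loc_h2 lam l hL)
  have i1 : Integrable (blS lam l n (blh lam l J)) (nu d p) :=
    bl_S_int lam l n m1 (bl_h_le lam l hS hM0 hM)
  have i2 : Integrable (blS lam l n (blh2 lam l J)) (nu d p) :=
    bl_S_int lam l n m2 (M := M ^ 2) (fun ω => by
      rw [abs_of_nonneg (bl_h2_nonneg lam l J ω)]
      exact bl_h2_le lam l hS hM ω)
  have h4 : |∫ ω, blS lam l n (blh lam l J) ω ∂(nu d p)| ≤
      ∫ ω, (C * M + (a * C * Real.log (n + 2)) / 2 + C * M ^ 2 / (2 * a)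
        + (a * lam / 2) * DD lam l ω n 0 + (1 / (2 * a)) * blS lam l n (blh2 lam l J) ω)
        ∂(nu d p) := by
    refine (abs_integral_le_integral_abs).trans ?_
    apply integral_mono i1.abs
      (((integrable_const _).add (hi1.const_mul _)).add (i2.const_mul _))
    intro ω
    refine (hpt lam l ω n J M a h0 h1 hl hn1 hM0 hM hA hS ha).trans (le_of_eq ?_)
    simp only [Pi.add_apply]
    field_simp
    ring
  have h5 : ∫ ω, (C * M + (a * C * Real.log (n + 2)) / 2 + C * M ^ 2 / (2 * a)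
        + (a * lam / 2) * DD lam l ω n 0 + (1 / (2 * a)) * blS lam l n (blh2 lam l J) ω)
        ∂(nu d p) =
      tha d p * (C * M + (a * C * Real.log (n + 2)) / 2 + C * M ^ 2 / (2 * a)) +
      (a * lam / 2) * ∫ ω, DD lam l ω n 0 ∂(nu d p) +
      (1 / (2 * a)) * ∫ ω, blS lam l n (blh2 lam l J) ω ∂(nu d p) :=
    bl_int3 _ _ _ hi1 i2
  rw [h5] at h4
  have h6 : |Ann p lam l n (blh lam l J)| =
      (1 / (n : ℝ)) * |∫ ω, blS lam l n (blh lam l J) ω ∂(nu d p)| := by
    rw [bl_Ann, abs_mul, abs_of_nonneg (by positivity : (0 : ℝ) ≤ 1 / n)]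
  have h7 := mul_le_mul_of_nonneg_left h4 (by positivity : (0 : ℝ) ≤ 1 / n)
  rw [← h6] at h7
  have h9 : (1 / (n : ℝ)) * (tha d p * (C * M + (a * C * Real.log (n + 2)) / 2
      + C * M ^ 2 / (2 * a)) +
      (a * lam / 2) * ∫ ω, DD lam l ω n 0 ∂(nu d p) +
      (1 / (2 * a)) * ∫ ω, blS lam l n (blh2 lam l J) ω ∂(nu d p)) =
      (c1 * (1 / (n : ℝ)) + (a * tha d p * C) * (Real.log ((n : ℝ) + 2) / n) +
      a * lam * Dn p lam l n + Ann p lam l n (blh2 lam l J) / a) / 2 := by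
    rw [hc1, bl_Ann]
    unfold Dn
    field_simp
    ring
  rw [h9] at h7
  linarith

/-- the inequality at a fixed bias -/
theorem un_fixed (l : Fin d → ℝ) (hl : ∑ i, l i ^ 2 = 1) (ht : 0 < tha d p) (lam : ℝ)
    (h0 : 0 < lam)
    (h1 : lam ≤ 1) {J : Fld d} {r : ℕ} {M : ℝ}
    (hL : ∀ δ, Loc (EB r (0 : V d) : Set (Ed d)) (fun ω => J ω δ)) (hM0 : 0 ≤ M)
    (hM : ∀ ω δ, |J ω δ| ≤ M) (hA : Anti J) (hS : Supp J) (m1 m2 η R : ℝ)
    (hE : ∃ n0 : ℕ, ∀ n : ℕ, n0 ≤ n →
      |Ann p lam l n (blh1 lam l J) - tha d p * m1| ≤ tha d p * (η / 3) ∧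
      |Ann p lam l n (blh2 lam l J) - tha d p * m2| ≤ tha d p * (η / 3))
    (hR : ∀ n : ℕ, 1 ≤ n → Ann p lam l n (Set.indicator (blB J) (fun _ => (1 : ℝ))) ≤ R)
    (hη : 0 < η) (hm2 : 0 ≤ m2)
    (h3 : 6 * d * M * lam ≤ tha d p * (η / 3)) (h4 : 6 * d * M * R ≤ tha d p * (η / 3) * lam) :
    ∀ᶠ n : ℕ in atTop, (max 0 (|m1| - η)) ^ 2 ≤
      (Dn p lam l n / (tha d p * lam)) * (m2 + η) + η := by
  obtain ⟨n0, hn0⟩ := hE
  have ht1 : tha d p ≤ 1 := bu_tha_le
  have mh : Measurable (blh lam l J) := Loc.measurable _ (bl_loc_h lam l hL)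
  have mh1 : Measurable (blh1 lam l J) := Loc.measurable _ (bl_loc_h1 lam l hL)
  have mB : MeasurableSet (blB J) := Loc.measurableSet _ (bl_loc_B hL)
  have mi : Measurable (Set.indicator (blB J) (fun _ => (1 : ℝ))) :=
    measurable_const.indicator mB
  -- the lower bound of the annealed average
  have hA0 : ∀ n : ℕ, max n0 1 ≤ n →
      lam * tha d p * max 0 (|m1| - η) ≤ |Ann p lam l n (blh lam l J)| := by
    intro n hn
    obtain ⟨g1, g2⟩ := hn0 n ((le_max_left _ _).trans hn)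
    have hn1 : 1 ≤ n := (le_max_right _ _).trans hn
    have e1 : Ann p lam l n (blh lam l J) - lam * Ann p lam l n (blh1 lam l J) =
        Ann p lam l n (fun ω => blh lam l J ω + (-lam) * blh1 lam l J ω) := by
      rw [bl_Ann_add lam l n mh (mh1.const_mul (-lam)) (bl_h_le lam l hS hM0 hM)
        (N := lam * (6 * d * M)) (fun ω => by
          rw [abs_mul, abs_neg, abs_of_pos h0]
          exact mul_le_mul_of_nonneg_left (bl_h1_le lam h0.le h1 l hl hM0 hM ω) h0.le),
        bl_Ann_smul]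
      ring
    have e2 : |Ann p lam l n (fun ω => blh lam l J ω + (-lam) * blh1 lam l J ω)| ≤
        Ann p lam l n (fun ω => 6 * d * M * (Set.indicator (blB J) (fun _ => (1 : ℝ)) ω) +
          6 * d * M * lam ^ 2) := by
      apply bl_Ann_abs lam l n (mh.add (mh1.const_mul (-lam)))
        ((mi.const_mul _).add measurable_const)
        (M := 6 * d * M * 1 + 6 * d * M * lam ^ 2) (N := 6 * d * M * 1 + 6 * d * M * lam ^ 2)
      · intro ω
        have h5 := bl_expand lam h0.le h1 l hl hS hM ω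
        have h6 : blh lam l J ω + (-lam) * blh1 lam l J ω =
          blh lam l J ω - lam * blh1 lam l J ω := by ring
        change |blh lam l J ω + (-lam) * blh1 lam l J ω| ≤ _
        rw [h6]
        refine h5.trans ?_
        have h7 := (abs_le.mp (bl_ind_abs (blB J) ω)).2
        have h8 : 6 * (d : ℝ) * M * Set.indicator {ω : Om d | ∑ δ, J ω δ ≠ 0}
          (fun _ => (1 : ℝ)) ω ≤ 6 * d * M * 1 := by
          exact mul_le_mul_of_nonneg_left h7 (by positivity)
        linarith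
      · intro ω
        have h7 := (abs_le.mp (bl_ind_abs (blB J) ω)).2
        have h9 : 0 ≤ Set.indicator (blB J) (fun _ => (1 : ℝ)) ω :=
          Set.indicator_nonneg (fun _ _ => zero_le_one) _
        change |6 * d * M * Set.indicator (blB J) (fun _ => (1 : ℝ)) ω +
          6 * d * M * lam ^ 2| ≤ _
        rw [abs_of_nonneg (by positivity)]
        have h8 : 6 * (d : ℝ) * M * Set.indicator (blB J) (fun _ => (1 : ℝ)) ω ≤
          6 * d * M * 1 := mul_le_mul_of_nonneg_left h7 (by positivity)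
        linarith
      · intro ω
        have h5 := bl_expand lam h0.le h1 l hl hS hM ω
        have h6 : blh lam l J ω + (-lam) * blh1 lam l J ω =
          blh lam l J ω - lam * blh1 lam l J ω := by ring
        change |blh lam l J ω + (-lam) * blh1 lam l J ω| ≤ _
        rw [h6]
        exact h5
    have e3 : Ann p lam l n (fun ω => 6 * d * M * (Set.indicator (blB J) (fun _ => (1 : ℝ)) ω) +
          6 * d * M * lam ^ 2) =
        6 * d * M * Ann p lam l n (Set.indicator (blB J) (fun _ => (1 : ℝ))) +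
          tha d p * (6 * d * M * lam ^ 2) := by
      rw [bl_Ann_add lam l n (g := fun ω => 6 * d * M * (Set.indicator (blB J)
        (fun _ => (1 : ℝ)) ω)) (h := fun _ => 6 * d * M * lam ^ 2)
        (mi.const_mul _) measurable_const (M := 6 * d * M * 1)
        (N := 6 * d * M * lam ^ 2) (fun ω => by
          rw [abs_mul, abs_of_nonneg (by positivity : (0 : ℝ) ≤ 6 * d * M)]
          exact mul_le_mul_of_nonneg_left (bl_ind_abs _ ω) (by positivity))
        (fun ω => by rw [abs_of_nonneg (by positivity)]), bl_Ann_smul, bl_Ann_const lam l n hn1]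
    rw [e3] at e2
    rw [← e1] at e2
    have e4 : 6 * d * M * Ann p lam l n (Set.indicator (blB J) (fun _ => (1 : ℝ))) ≤
        tha d p * (η / 3) * lam :=
      (mul_le_mul_of_nonneg_left (hR n hn1) (by positivity)).trans h4
    have e5 : tha d p * (6 * d * M * lam ^ 2) ≤ tha d p * (η / 3) * lam := by
      calc tha d p * (6 * d * M * lam ^ 2) ≤ 1 * (6 * d * M * lam ^ 2) :=
            mul_le_mul_of_nonneg_right ht1 (by positivity)
        _ = (6 * d * M * lam) * lam := by ring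
        _ ≤ tha d p * (η / 3) * lam := mul_le_mul_of_nonneg_right h3 h0.le
    have e6 : tha d p * |m1| - tha d p * (η / 3) ≤ |Ann p lam l n (blh1 lam l J)| := by
      have h5 : |tha d p * m1| = tha d p * |m1| := by rw [abs_mul, abs_of_pos ht]
      have h6 := abs_sub_abs_le_abs_sub (tha d p * m1) (Ann p lam l n (blh1 lam l J))
      rw [abs_sub_comm] at h6
      rw [h5] at h6
      linarith
    have e7 : |lam * Ann p lam l n (blh1 lam l J)| - |Ann p lam l n (blh lam l J)| ≤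
        |Ann p lam l n (blh lam l J) - lam * Ann p lam l n (blh1 lam l J)| := by
      rw [abs_sub_comm]
      exact abs_sub_abs_le_abs_sub _ _
    rw [abs_mul, abs_of_pos h0] at e7
    have e8 : lam * tha d p * (|m1| - η) ≤ |Ann p lam l n (blh lam l J)| := by
      have h5 := mul_le_mul_of_nonneg_left e6 h0.le
      have h6 : lam * tha d p * (|m1| - η) = lam * (tha d p * |m1| - tha d p * (η / 3))
        - (tha d p * (η / 3) * lam + tha d p * (η / 3) * lam) := by ring
      rw [h6]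
      linarith
    rcases le_total 0 (|m1| - η) with h5 | h5
    · rw [max_eq_right h5]
      exact e8
    · rw [max_eq_left h5, mul_zero]
      exact abs_nonneg _
  set A0 := lam * tha d p * max 0 (|m1| - η) with hA0def
  have hA00 : 0 ≤ A0 := by positivity
  set B := tha d p * (m2 + η) with hB
  have hBp : 0 < B := by positivity
  have hD := Dn_bounds (p := p) lam h0 h1 l hl ht (η / (2 * (m2 + η))) (by positivity)
  rcases hA00.eq_or_lt with hz | hz
  · -- `A0 = 0`
    have hmax : max 0 (|m1| - η) = 0 := by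
      have h5 : lam * tha d p ≠ 0 := by positivity
      have h6 : lam * tha d p * max 0 (|m1| - η) = 0 := by rw [← hA0def, ← hz]
      rcases mul_eq_zero.1 h6 with h7 | h7
      · exact absurd h7 h5
      · exact h7
    filter_upwards [hD] with n hn
    rw [hmax]
    have h5 : -(η / 2) ≤ (Dn p lam l n / (tha d p * lam)) * (m2 + η) := by
      have h6 := mul_le_mul_of_nonneg_right hn.1 (by positivity : 0 ≤ m2 + η)
      have h7 : -(η / (2 * (m2 + η))) * (m2 + η) = -(η / 2) := by field_simp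
      rw [h7] at h6
      exact h6
    have h6 : (0 : ℝ) ^ 2 = 0 := by norm_num
    rw [h6]
    linarith
  · -- `A0 > 0`, parameter `a = B / A0`
    have ha : 0 < B / A0 := by positivity
    obtain ⟨c1, c2, hlow⟩ := low_bound (p := p) l hl lam h0 h1 hL hM0 hM hA hS (B / A0) ha
    filter_upwards [eventually_ge_atTop (max n0 1),
      un_small c1 c2 (lam ^ 2 * tha d p ^ 2 * η / A0) (by positivity)] with n hn hsm
    have g0 := hA0 n hn
    have g1 := hlow n ((le_max_right _ _).trans hn)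
    have g2 : Ann p lam l n (blh2 lam l J) ≤ B := by
      have h5 := (abs_le.mp (hn0 n ((le_max_left _ _).trans hn)).2).2
      have h6 : tha d p * (η / 3) ≤ tha d p * η := by
        apply mul_le_mul_of_nonneg_left _ ht.le
        linarith
      rw [hB]
      linarith
    have g3 : Ann p lam l n (blh2 lam l J) / (B / A0) ≤ B / (B / A0) :=
      div_le_div_of_nonneg_right g2 ha.le
    have g4 : B / (B / A0) = A0 := by field_simp
    rw [g4] at g3
    have g5 : A0 ≤ lam ^ 2 * tha d p ^ 2 * η / A0 + B / A0 * lam * Dn p lam l n := by linarith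
    have g6 := mul_le_mul_of_nonneg_left g5 hz.le
    have g7 : A0 * (lam ^ 2 * tha d p ^ 2 * η / A0 + B / A0 * lam * Dn p lam l n) =
        lam ^ 2 * tha d p ^ 2 * η + B * lam * Dn p lam l n := by field_simp
    rw [g7] at g6
    have g8 : A0 * A0 = (lam ^ 2 * tha d p ^ 2) * (max 0 (|m1| - η)) ^ 2 := by
      rw [hA0def]
      ring
    have g9 : lam ^ 2 * tha d p ^ 2 * η + B * lam * Dn p lam l n =
        (lam ^ 2 * tha d p ^ 2) * ((Dn p lam l n / (tha d p * lam)) * (m2 + η) + η) := by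
      rw [hB]
      field_simp
      ring
    rw [g8, g9] at g6
    exact le_of_mul_le_mul_left g6 (by positivity)

theorem lower_n (hd : 1 ≤ d) (hH : HypH d p K C c) (l : Fin d → ℝ) (hl : ∑ i, l i ^ 2 = 1)
    (I : Fld d) (hI : Adm p I) (ε : ℝ) (hε : 0 < ε) :
    ∃ lam1 : ℝ, 0 < lam1 ∧ ∀ lam : ℝ, 0 < lam → lam ≤ lam1 → ∀ᶠ n : ℕ in atTop,
      (ip p (Dl l) I / kap d p) ^ 2 ≤
        Dn p lam l n / (tha d p * lam) * (ip p I I / kap d p) + ε := by
  have ht : 0 < tha d p := theta_pos hH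
  have hk : 0 < kap d p := kap_pos hH
  have hIs := hI.sqI
  obtain ⟨A, hA, hAdm⟩ := hI
  choose J hJ1 hJ2 hJ3 hJ4 hJ5 hJ6 using hAdm.2.2
  set J' : ℕ → Fld d := fun k => J (k + 1) (by omega) with hJ'
  set κ := kap d p with hκ
  set M0 := ip p (Dl l) I / κ with hM0
  set Q0 := ip p I I / κ with hQ0
  have hQ00 : 0 ≤ Q0 := div_nonneg (ip_self_nonneg I) hk.le
  set η : ℝ := min (ε / (4 * |M0| + 8)) 1 with hη
  have hηp : 0 < η := lt_min (by positivity) one_pos
  have hη1 : η ≤ 1 := min_le_right _ _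
  obtain ⟨A', lamR, hA', hR0, hR1, hRare⟩ := rare hH hd l hl
  obtain ⟨lamE, hE0, hE1, hE⟩ := equidistribution hd hH l hl (tha d p * (η / 3)) (by positivity)
  have hJs : ∀ k, SqI p (J' k) := fun k =>
    SqI.of_bounded (fun δ => (hJ1 (k + 1) (by omega) δ).measurable) _ (hJ2 (k + 1) (by omega))
  obtain ⟨lim1, lim2⟩ := bl_lims hA hIs l J' hJs (fun k => hJ6 (k + 1) (by omega))
  -- the index
  set kk : ℝ → ℕ := fun lam => ⌊blt d A lam⌋₊ with hkk
  have hkk1 : ∀ lam, blr d A lam = kk lam + 1 := fun lam => rfl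
  have hkt : Tendsto kk (𝓝[>] 0) atTop := tendsto_nat_floor_atTop.comp (blt_tendsto d A)
  have hZ : Tendsto (fun lam : ℝ => ∫ ω, Zw lam l ω 0 ∂(nu d p)) (𝓝[>] 0) (𝓝 κ) :=
    (Zw_lim hH l hl).mono_left nhdsWithin_le_nhds
  -- convergence of the averages
  set m1 : ℝ → ℝ := fun lam => (∫ ω, Zw lam l ω 0 * blh1 lam l (J' (kk lam)) ω ∂(nu d p)) /
      (∫ ω, Zw lam l ω 0 ∂(nu d p)) with hm1
  set m2 : ℝ → ℝ := fun lam => (∫ ω, Zw lam l ω 0 * blh2 lam l (J' (kk lam)) ω ∂(nu d p)) /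
      (∫ ω, Zw lam l ω 0 ∂(nu d p)) with hm2
  have hlim1 : Tendsto m1 (𝓝[>] 0) (𝓝 M0) := by
    have h1 := (lim1.comp hkt).div hZ hk.ne'
    refine h1.congr fun lam => ?_
    simp only [hm1, Function.comp, bl_num1 lam l (hJ4 (kk lam + 1) (by omega)), hJ', Pi.div_apply]
  have hpos : ∀ᶠ lam : ℝ in 𝓝[>] 0, 0 < lam := eventually_mem_nhdsWithin
  have hle1 : ∀ᶠ lam : ℝ in 𝓝[>] 0, lam ≤ 1 :=
    nhdsWithin_le_nhds (eventually_le_nhds one_pos)
  have hlim2 : Tendsto m2 (𝓝[>] 0) (𝓝 Q0) := by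
    have h0 : Tendsto (fun lam : ℝ => lam) (𝓝[>] 0) (𝓝 0) := tendsto_id.mono_left nhdsWithin_le_nhds
    have h1 : Tendsto (fun lam => ip p (J' (kk lam)) (J' (kk lam))) (𝓝[>] 0) (𝓝 (ip p I I)) :=
      lim2.comp hkt
    have h2 : Tendsto (fun lam => 2 * lam * ip p (J' (kk lam)) (J' (kk lam))) (𝓝[>] 0) (𝓝 0) := by
      have := (h0.const_mul 2).mul h1
      rwa [mul_zero, zero_mul] at this
    have h3 : Tendsto (fun lam => ∫ ω, Zw lam l ω 0 * blh2 lam l (J' (kk lam)) ω ∂(nu d p)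
        - ip p (J' (kk lam)) (J' (kk lam))) (𝓝[>] 0) (𝓝 0) := by
      apply squeeze_zero_norm' _ h2
      filter_upwards [hpos, hle1] with lam g0 g1
      rw [Real.norm_eq_abs]
      exact bl_num2 lam g0 g1 l hl (hJs (kk lam)) (hJ4 (kk lam + 1) (by omega))
        (hJ2 (kk lam + 1) (by omega))
    have h4 := h3.add h1
    rw [zero_add] at h4
    have h5 := h4.div hZ hk.ne'
    refine h5.congr fun lam => ?_
    simp only [hm2, Pi.div_apply, sub_add_cancel]
  have hm2n : ∀ lam, 0 ≤ m2 lam := by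
    intro lam
    apply div_nonneg
    · apply integral_nonneg
      intro ω
      exact mul_nonneg (Zw_nonneg lam l ω 0) (bl_h2_nonneg lam l _ ω)
    · apply integral_nonneg
      intro ω
      exact Zw_nonneg lam l ω 0
  have ev1 : ∀ᶠ lam : ℝ in 𝓝[>] 0, |m1 lam - M0| < η := by
    have := Metric.tendsto_nhds.1 hlim1 η hηp
    simpa [Real.dist_eq] using this
  have ev2 : ∀ᶠ lam : ℝ in 𝓝[>] 0, m2 lam < Q0 + η :=
    hlim2.eventually (gt_mem_nhds (by linarith))
  have ev3 := bl_small d A hA A' (tha d p * (η / 3)) hA' (by positivity)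
  have ev4 : ∀ᶠ lam : ℝ in 𝓝[>] 0, lam ≤ lamE := nhdsWithin_le_nhds (eventually_le_nhds hE0)
  have ev5 : ∀ᶠ lam : ℝ in 𝓝[>] 0, lam ≤ lamR := nhdsWithin_le_nhds (eventually_le_nhds hR0)
  have hall := ev1.and (ev2.and (ev3.and (ev4.and ev5)))
  obtain ⟨lam1, hlam1, hsub⟩ := mem_nhdsGT_iff_exists_Ioc_subset.1 hall
  refine ⟨lam1, hlam1, ?_⟩
  intro lam h0 hle
  obtain ⟨b1, b2, ⟨b3, b4, b5, b6⟩, b7, b8⟩ := hsub ⟨h0, hle⟩
  have h1 : lam ≤ 1 := b7.trans hE1
  rw [hkk1 lam] at b3 b4 b5 b6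
  set k := kk lam with hk'
  set M : ℝ := (A : ℝ) * ((k + 1 : ℕ) : ℝ) ^ A with hM
  have hMp : 0 ≤ M := by positivity
  have hL := hJ1 (k + 1) (by omega)
  have hBd : ∀ ω δ, |J' k ω δ| ≤ M := hJ2 (k + 1) (by omega)
  have hAn : Anti (J' k) := hJ3 (k + 1) (by omega)
  have hSu : Supp (J' k) := hJ4 (k + 1) (by omega)
  have hd0 : (1 : ℝ) ≤ d := by exact_mod_cast hd
  have hM1 : 1 ≤ M := by
    have a1 : (1 : ℝ) ≤ A := by exact_mod_cast hA
    have a2 : (1 : ℝ) ≤ ((k + 1 : ℕ) : ℝ) := by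
      push_cast
      have : (0 : ℝ) ≤ k := Nat.cast_nonneg k
      linarith
    have a3 : 1 ≤ ((k + 1 : ℕ) : ℝ) ^ A := one_le_pow₀ a2
    rw [hM]
    nlinarith
  have hfix := un_fixed l hl ht lam h0 h1 (J := J' k) (r := A * (k + 1) ^ A) (M := M)
    hL hMp hBd hAn hSu (m1 lam) (m2 lam) η
    (A' * (((A * (k + 1) ^ A : ℕ) : ℝ) + 1) ^ d / lam ^ (d + 1) *
      Real.sqrt (A * Real.exp (-((k + 1 : ℕ) : ℝ) / A)))
    (by
      obtain ⟨n0, hn0⟩ := hE lam h0 b7
      refine ⟨n0, fun n hn => ⟨?_, ?_⟩⟩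
      · refine hn0 n hn (A * (k + 1) ^ A + 1) (6 * ((d : ℝ) + 1) * M ^ 2 + 1) _ b3 ?_ b4
          (bl_loc_h1 lam l hL) ?_
        · have : 0 ≤ 6 * ((d : ℝ) + 1) * M ^ 2 := by positivity
          linarith
        · intro ω
          refine (bl_h1_le lam h0.le h1 l hl hMp hBd ω).trans ?_
          have g1 : M ≤ M ^ 2 := by nlinarith
          have g2 : 6 * (d : ℝ) * M ≤ 6 * d * M ^ 2 := mul_le_mul_of_nonneg_left g1 (by positivity)
          have g3 : 6 * (d : ℝ) * M ^ 2 ≤ 6 * ((d : ℝ) + 1) * M ^ 2 :=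
            mul_le_mul_of_nonneg_right (by linarith) (by positivity)
          linarith
      · refine hn0 n hn (A * (k + 1) ^ A + 1) (6 * ((d : ℝ) + 1) * M ^ 2 + 1) _ b3 ?_ b4
          (bl_loc_h2 lam l hL) ?_
        · have : 0 ≤ 6 * ((d : ℝ) + 1) * M ^ 2 := by positivity
          linarith
        · intro ω
          rw [abs_of_nonneg (bl_h2_nonneg lam l (J' k) ω)]
          refine (bl_h2_le lam l hSu hBd ω).trans ?_
          nlinarith [sq_nonneg M])
    (by
      intro n hn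
      refine (hRare lam h0 b8 n hn (A * (k + 1) ^ A) (blB (J' k)) (bl_loc_B hL)).trans ?_
      apply mul_le_mul_of_nonneg_left _ (by positivity)
      apply Real.sqrt_le_sqrt
      exact hJ5 (k + 1) (by omega))
    hηp (hm2n lam) b5 b6
  have hbd := Dn_bounds (p := p) lam h0 h1 l hl ht (η / (Q0 + 1)) (by positivity)
  filter_upwards [hfix, hbd] with n hfn hbn
  -- conclusion
  set rn := Dn p lam l n / (tha d p * lam) with hrn
  have hr2 : rn ≤ 2 := by
    have h5 : η / (Q0 + 1) ≤ 1 := by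
      rw [div_le_one (by positivity)]
      linarith
    linarith [hbn.2]
  have hrQ : -η ≤ rn * Q0 := by
    have h5 := mul_le_mul_of_nonneg_right hbn.1 hQ00
    have h6 : η / (Q0 + 1) * Q0 ≤ η := by
      rw [div_mul_eq_mul_div, div_le_iff₀ (by positivity)]
      nlinarith
    linarith
  have c1 : |M0| - 2 * η ≤ max 0 (|m1 lam| - η) := by
    refine le_trans ?_ (le_max_right _ _)
    have h5 := abs_sub_abs_le_abs_sub M0 (m1 lam)
    rw [abs_sub_comm] at h5
    linarith
  have c2 : 0 ≤ max 0 (|m1 lam| - η) := le_max_left _ _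
  have c3 : M0 ^ 2 ≤ (max 0 (|m1 lam| - η)) ^ 2 + 4 * η * |M0| := by
    rw [← sq_abs M0]
    set x := |M0| with hx
    have hx0 : 0 ≤ x := abs_nonneg _
    set y := max 0 (|m1 lam| - η) with hy
    rcases le_total x (2 * η) with h5 | h5
    · nlinarith [sq_nonneg y]
    · have h6 : (x - 2 * η) ^ 2 ≤ y ^ 2 := pow_le_pow_left₀ (by linarith) c1 2
      nlinarith [sq_nonneg η]
  have c4 : rn * (m2 lam + η) ≤ rn * Q0 + 5 * η := by
    rcases le_total 0 rn with h5 | h5
    · have h6 : rn * (m2 lam + η) ≤ rn * (Q0 + 2 * η) :=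
        mul_le_mul_of_nonneg_left (by linarith) h5
      have h7 : rn * (2 * η) ≤ 2 * (2 * η) := mul_le_mul_of_nonneg_right hr2 (by positivity)
      linarith
    · have h6 : rn * (m2 lam + η) ≤ 0 :=
        mul_nonpos_of_nonpos_of_nonneg h5 (by have := hm2n lam; linarith)
      linarith
  have c5 : 4 * η * |M0| + 8 * η ≤ ε := by
    have h5 : η ≤ ε / (4 * |M0| + 8) := min_le_left _ _
    rw [le_div_iff₀ (by positivity)] at h5
    linarith
  linarith

end Ein99
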