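import Pool.Agent.LibEinU.U_Low
import Pool.Agent.LibEin99.I_Main

/-!
# The Einstein relation for the mean displacement, without assuming that the speed exists
-/

open MeasureTheory ProbabilityTheory Filter Topology

namespace Ein99

variable {d : ℕ} {p : unitInterval} {K : ℕ} {C c : ℝ}

theorem einstein_n (hd : 1 ≤ d) (hH : HypH d p K C c) (l : Fin d → ℝ) (hl : ∑ i, l i ^ 2 = 1)
    (s : NNReal) (hs : IsDiff d p l s) (ε₀ : ℝ) (hε₀ : 0 < ε₀) :
    ∀ᶠ lam in 𝓝[>] (0 : ℝ), ∀ᶠ n : ℕ in atTop,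
      |Dn p lam l n / (tha d p * lam) - s| ≤ ε₀ := by
  have hκ : 0 < kap d p := kap_pos hH
  have ht : 0 < tha d p := theta_pos hH
  obtain ⟨S, hS0, hS1, hS2⟩ := uu_lim p l hl
  have hSs : S = kap d p * s := tendsto_nhds_unique hS2 (sigma_eq hd hH l hl s hs)
  have hs0 : (0 : ℝ) ≤ s := s.2
  obtain ⟨ε, hε, hεε⟩ : ∃ ε : ℝ, 0 < ε ∧ ε < ε₀ := exists_between hε₀
  -- upper bound
  have hU : ∀ᶠ lam in 𝓝[>] (0 : ℝ), ∀ᶠ n : ℕ in atTop,
      Dn p lam l n / (tha d p * lam) ≤ s + ε := by
    have h2k : Tendsto (fun k : ℕ => 2 * (uu p l (2 * k + 1) - uu p l (2 * k))) atTop (𝓝 S) :=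
      hS1.comp (tendsto_id.const_mul_atTop' (by norm_num : 0 < 2))
    have hlt : S < S + kap d p * (ε / 2) := by
      have : 0 < kap d p * (ε / 2) := by positivity
      linarith
    obtain ⟨k, hk⟩ := (h2k.eventually (gt_mem_nhds hlt)).exists
    obtain ⟨lam1, hl1, H⟩ := upper_n hd hH l hl k (ε / 2) (by positivity)
    have hlam : ∀ᶠ lam in 𝓝[>] (0 : ℝ), 0 < lam ∧ lam ≤ lam1 := by
      filter_upwards [Ioc_mem_nhdsGT hl1] with x hx
      exact hx
    filter_upwards [hlam] with lam hlam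
    filter_upwards [H lam hlam.1 hlam.2] with n h1
    rw [ip_GPsi p l hl k] at h1
    have h2 : 2 * (uu p l (2 * k + 1) - uu p l (2 * k)) / kap d p ≤ s + ε / 2 := by
      rw [div_le_iff₀ hκ]
      have : (s + ε / 2) * kap d p = S + kap d p * (ε / 2) := by rw [hSs]; ring
      rw [this]
      exact hk.le
    linarith
  -- lower bound
  have hlam1 : ∀ᶠ lam in 𝓝[>] (0 : ℝ), 0 < lam ∧ lam ≤ 1 := by
    filter_upwards [Ioc_mem_nhdsGT (zero_lt_one' ℝ)] with x hx
    exact hx
  have hL : ∀ᶠ lam in 𝓝[>] (0 : ℝ), ∀ᶠ n : ℕ in atTop,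
      (s : ℝ) - ε ≤ Dn p lam l n / (tha d p * lam) := by
    rcases hs0.lt_or_eq with hs1 | hs1
    · obtain ⟨η, hη0, hη1, hη2⟩ : ∃ η : ℝ, 0 < η ∧ η ≤ s ∧ η ≤ ε / 8 :=
        ⟨min s (ε / 8), lt_min hs1 (by positivity), min_le_left _ _, min_le_right _ _⟩
      obtain ⟨I, hI, hI1, hI2⟩ := exists_adm hd hH l hl S hS1 (kap d p * η) (by positivity)
      obtain ⟨lam1, hl1, H⟩ := lower_n hd hH l hl I hI (ε * s / 4) (by positivity)
      have hlam : ∀ᶠ lam in 𝓝[>] (0 : ℝ), 0 < lam ∧ lam ≤ lam1 := by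
        filter_upwards [Ioc_mem_nhdsGT hl1] with x hx
        exact hx
      have a1 : s - η ≤ ip p (Dl l) I / kap d p := by
        rw [le_div_iff₀ hκ]
        have := (abs_le.1 hI1).1
        rw [hSs] at this
        nlinarith
      have a2 : ip p I I / kap d p ≤ s + η := by
        rw [div_le_iff₀ hκ]
        have := (abs_le.1 hI2).2
        rw [hSs] at this
        nlinarith
      have a3 : 0 ≤ ip p I I / kap d p := div_nonneg (ip_self_nonneg I) hκ.le
      filter_upwards [hlam, hlam1] with lam hlam hlam'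
      filter_upwards [H lam hlam.1 hlam.2,
        Dn_bounds (p := p) lam hlam'.1 hlam'.2 l hl ht (ε * s / (4 * (s + η))) (by positivity)]
        with n h1 hb
      set rn := Dn p lam l n / (tha d p * lam) with hrn
      have h2 : (s - η) ^ 2 ≤ (ip p (Dl l) I / kap d p) ^ 2 :=
        pow_le_pow_left₀ (by linarith) a1 2
      have h3 : rn * (ip p I I / kap d p) ≤ rn * (s + η) + ε * s / 4 := by
        rcases le_total 0 rn with h5 | h5
        · have := mul_le_mul_of_nonneg_left a2 h5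
          have h6 : 0 ≤ ε * s / 4 := by positivity
          linarith
        · have h6 : rn * (ip p I I / kap d p) ≤ 0 := mul_nonpos_of_nonpos_of_nonneg h5 a3
          have h7 := mul_le_mul_of_nonneg_right hb.1 (by positivity : (0 : ℝ) ≤ s + η)
          have h8 : -(ε * s / (4 * (s + η))) * (s + η) = -(ε * s / 4) := by
            have : (s : ℝ) + η ≠ 0 := by positivity
            field_simp
          rw [h8] at h7
          linarith
      have h4 : (s - η) ^ 2 - ε * s / 2 ≤ rn * (s + η) := by linarith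
      have h5 : (s - ε) * (s + η) ≤ (s - η) ^ 2 - ε * s / 2 := by
        have h6 : 3 * s * η ≤ 3 * s * (ε / 8) := mul_le_mul_of_nonneg_left hη2 (by positivity)
        have h7 : 0 ≤ ε * η := by positivity
        have h8 : 0 ≤ η ^ 2 := by positivity
        have h9 : 0 ≤ ε * s := by positivity
        nlinarith
      exact le_of_mul_le_mul_right (h5.trans h4) (by linarith)
    · filter_upwards [hlam1] with lam hlam
      filter_upwards [Dn_bounds (p := p) lam hlam.1 hlam.2 l hl ht ε hε] with n hn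
      rw [← hs1]
      linarith [hn.1]
  filter_upwards [hU, hL] with lam h1 h2
  filter_upwards [h1, h2] with n h3 h4
  rw [abs_le]
  constructor <;> linarith

/-- the speed is the limit of the mean displacement -/
theorem Dn_lim (lam : ℝ) (l : Fin d → ℝ) (hl : ∑ i, l i ^ 2 = 1) (v : ℝ)
    (hv : IsSpeed d p lam l v) : Tendsto (fun n : ℕ => Dn p lam l n) atTop (𝓝 (tha d p * v)) :=
  speed_lim lam l hl v hv

end Ein99
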