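import Pool.Agent.LibEin99.B_Lower

/-!
# Upper bound for the mean displacement, without assuming that the speed exists
-/

open MeasureTheory ProbabilityTheory Filter Topology

namespace Ein99

variable {d : ℕ} {p : unitInterval} {K : ℕ} {C c : ℝ}

/-- `(1/n) E[1{0 ∈ C_∞} X_n · l]` -/
noncomputable def Dn (p : unitInterval) (lam : ℝ) (l : Fin d → ℝ) (n : ℕ) : ℝ :=
  (1 / (n : ℝ)) * ∫ ω, DD lam l ω n 0 ∂(nu d p)

theorem un_small (c1 c2 η : ℝ) (hη : 0 < η) : ∀ᶠ n : ℕ in atTop,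
    c1 * (1 / (n : ℝ)) + c2 * (Real.log ((n : ℝ) + 2) / n) ≤ η := by
  have a1 : Tendsto (fun n : ℕ => c1 * (1 / (n : ℝ))) atTop (𝓝 0) := by
    have := tendsto_one_div_atTop_nhds_zero_nat.const_mul c1
    rwa [mul_zero] at this
  have a2 : Tendsto (fun n : ℕ => c2 * (Real.log ((n : ℝ) + 2) / n)) atTop (𝓝 0) := by
    have := BSpeed_log_div.const_mul c2
    rwa [mul_zero] at this
  have := a1.add a2
  rw [zero_add] at this
  exact this.eventually (eventually_le_nhds hη)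

theorem up_bound (l : Fin d → ℝ) (hl : ∑ i, l i ^ 2 = 1) (k : ℕ) (lam : ℝ) (h0 : 0 < lam)
    (h1 : lam ≤ 1) : ∃ c1 c2 : ℝ, ∀ n : ℕ, 1 ≤ n →
      Dn p lam l n ≤ c1 * (1 / (n : ℝ)) + c2 * (Real.log ((n : ℝ) + 2) / n)
        + lam * Ann p lam l n (gUp lam l k) := by
  have := BSpeed_fin (d := d) (p := p)
  obtain ⟨C, hC, hpt⟩ := up_point d
  set c1 : ℝ := 2 * (2 * k + C * (2 * k + 1)) + lam * (C * (2 * k + 1) ^ 2) with hc1
  refine ⟨tha d p * c1, tha d p * C / lam, ?_⟩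
  intro n hn1
  have hnp : (0 : ℝ) < n := by exact_mod_cast hn1
  have hi1 : Integrable (fun ω : Om d => DD lam l ω n 0) (nu d p) :=
    BSpeed_int (measurable_DD lam l n 0) n (fun ω => abs_DD_le lam l hl ω n 0)
  set S : Om d → ℝ := fun ω =>
    ∑ j ∈ Finset.range n, Pn lam l ω j (fun x => gUp lam l k (sh x ω)) 0 with hS
  have hmg : Measurable (gUp lam l k : Om d → ℝ) := Loc.measurable _ (Loc_gUp lam l k)
  have hmS : Measurable S := by
    refine Finset.measurable_sum _ fun j _ => ?_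
    exact measurable_Pn lam l j (fun ω x => gUp lam l k (sh x ω))
      (fun y => hmg.comp (measurable_sh y)) 0
  have hSb : ∀ ω, |S ω| ≤ n * (2 * k + 1) ^ 2 := by
    intro ω
    rw [abs_of_nonneg (Finset.sum_nonneg fun j _ => Pn_nonneg lam l ω j (fun x =>
      gUp_nonneg lam l k (sh x ω)) 0)]
    calc S ω ≤ ∑ _j ∈ Finset.range n, ((2 : ℝ) * k + 1) ^ 2 := by
          apply Finset.sum_le_sum
          intro j _
          have h3 := Pn_mono lam l ω j (g := fun x => gUp lam l k (sh x ω))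
            (h := fun _ => ((2 : ℝ) * k + 1) ^ 2) (fun x => gUp_le lam l hl k _) 0
          rw [Pn_const] at h3
          exact h3
      _ = n * (2 * k + 1) ^ 2 := by
          rw [Finset.sum_const, Finset.card_range, nsmul_eq_mul]
  have hiS : Integrable S (nu d p) := BSpeed_int hmS _ hSb
  have h4 : ∫ ω, DD lam l ω n 0 ∂(nu d p) ≤
      ∫ ω, (c1 + C * Real.log (n + 2) / lam + lam * S ω) ∂(nu d p) := by
    apply integral_mono hi1 ((integrable_const _).add (hiS.const_mul _))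
    intro ω
    refine (hpt lam l ω n k h0 h1 hl hn1).trans (le_of_eq ?_)
    simp only [Pi.add_apply, hc1, hS]
    ring
  have h5 : ∫ ω, (c1 + C * Real.log (n + 2) / lam + lam * S ω) ∂(nu d p) =
      tha d p * (c1 + C * Real.log (n + 2) / lam) + lam * ∫ ω, S ω ∂(nu d p) := by
    rw [integral_add (integrable_const _) (hiS.const_mul _), integral_const, integral_const_mul,
      smul_eq_mul]
    rfl
  calc Dn p lam l n
      ≤ (1 / (n : ℝ)) * (tha d p * (c1 + C * Real.log (n + 2) / lam)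
        + lam * ∫ ω, S ω ∂(nu d p)) := by
        unfold Dn
        apply mul_le_mul_of_nonneg_left _ (by positivity)
        rw [← h5]
        exact h4
    _ = tha d p * c1 * (1 / (n : ℝ)) +
      tha d p * C / lam * (Real.log ((n : ℝ) + 2) / n)
        + lam * ((1 / (n : ℝ)) * ∫ ω, S ω ∂(nu d p)) := by ring
    _ = _ := rfl

theorem upper_n (hd : 1 ≤ d) (hH : HypH d p K C c) (l : Fin d → ℝ) (hl : ∑ i, l i ^ 2 = 1)
    (k : ℕ) (ε : ℝ) (hε : 0 < ε) :
    ∃ lam1 : ℝ, 0 < lam1 ∧ ∀ lam : ℝ, 0 < lam → lam ≤ lam1 → ∀ᶠ n : ℕ in atTop,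
      Dn p lam l n / (tha d p * lam) ≤ ip p (GPsi l k) (GPsi l k) / kap d p + ε := by
  have ht : 0 < tha d p := theta_pos hH
  have hk : 0 < kap d p := kap_pos hH
  obtain ⟨lamE, hE0, hE1, hE⟩ := equidistribution hd hH l hl (tha d p * (ε / 4)) (by positivity)
  -- convergence of `m_lam`
  have hnum : Tendsto (fun lam : ℝ => ∫ ω, Zw lam l ω 0 * gUp lam l k ω ∂(nu d p)) (𝓝 0)
      (𝓝 (ip p (GPsi l k) (GPsi l k))) := by
    have h := bu_lim (p := p) l hl (fun ω δ => GPsi l k ω δ ^ 2) ((2 * k + 1) ^ 2)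
      (fun ω δ => by
        rw [abs_of_nonneg (sq_nonneg _), ← sq_abs]
        exact pow_le_pow_left₀ (abs_nonneg _) (abs_GPsi_le l hl k ω δ) 2)
      (fun δ => (Loc.measurable _ (Loc_GPsi l k δ)).pow_const 2)
    have e1 : (fun lam : ℝ => ∫ ω, Zw lam l ω 0 * gUp lam l k ω ∂(nu d p)) =
        fun lam => ∫ ω, ∑ δ, wt lam l ω 0 δ * GPsi l k ω δ ^ 2 ∂(nu d p) := by
      funext lam
      simp only [Zw_mul_gUp]
    have e2 : ip p (GPsi l k) (GPsi l k) = ∫ ω, ∑ δ, oo ω δ * GPsi l k ω δ ^ 2 ∂(nu d p) := by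
      unfold ip
      simp only [sq]
    rw [e1, e2]
    exact h
  have hm := hnum.div (Zw_lim hH l hl) hk.ne'
  have hev : ∀ᶠ lam : ℝ in 𝓝 0, (∫ ω, Zw lam l ω 0 * gUp lam l k ω ∂(nu d p)) /
      (∫ ω, Zw lam l ω 0 ∂(nu d p)) < ip p (GPsi l k) (GPsi l k) / kap d p + ε / 2 :=
    hm.eventually (gt_mem_nhds (by linarith))
  -- smallness for the locality parameters
  have ha : 0 < aexp d := by
    unfold aexp
    positivity
  have hpow : Tendsto (fun lam : ℝ => lam ^ (-aexp d)) (𝓝[>] 0) atTop :=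
    tendsto_rpow_neg_nhdsGT_zero (by linarith)
  have hev2 : ∀ᶠ lam : ℝ in 𝓝[>] 0, ((k + 2 : ℕ) : ℝ) ≤ lam ^ (-aexp d) :=
    hpow.eventually (eventually_ge_atTop _)
  have hev3 : ∀ᶠ lam : ℝ in 𝓝[>] 0, ((2 : ℝ) * k + 1) ^ 2 ≤ lam ^ (-aexp d) :=
    hpow.eventually (eventually_ge_atTop _)
  have hev4 : ∀ᶠ lam : ℝ in 𝓝[>] 0, lam ≤ lamE :=
    nhdsWithin_le_nhds (eventually_le_nhds hE0)
  have hev1 : ∀ᶠ lam : ℝ in 𝓝[>] 0, (∫ ω, Zw lam l ω 0 * gUp lam l k ω ∂(nu d p)) /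
      (∫ ω, Zw lam l ω 0 ∂(nu d p)) < ip p (GPsi l k) (GPsi l k) / kap d p + ε / 2 :=
    nhdsWithin_le_nhds hev
  have hall := hev1.and (hev2.and (hev3.and hev4))
  obtain ⟨lam1, hlam1, hsub⟩ := mem_nhdsGT_iff_exists_Ioc_subset.1 hall
  refine ⟨lam1, hlam1, ?_⟩
  intro lam h0 hle
  obtain ⟨b1, b2, b3, b4⟩ := hsub ⟨h0, hle⟩
  have h1 : lam ≤ 1 := b4.trans hE1
  set m : ℝ := (∫ ω, Zw lam l ω 0 * gUp lam l k ω ∂(nu d p)) /
      (∫ ω, Zw lam l ω 0 ∂(nu d p)) with hmdef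
  obtain ⟨n0, hn0⟩ := hE lam h0 b4
  obtain ⟨c1, c2, hup⟩ := up_bound (p := p) l hl k lam h0 h1
  filter_upwards [eventually_ge_atTop (max n0 1),
    un_small c1 c2 (tha d p * lam * (ε / 4)) (by positivity)] with n hn hsm
  have h2 := hn0 n ((le_max_left _ _).trans hn) (k + 2) ((2 * k + 1) ^ 2) (gUp lam l k) b2
    (by
      have : (0 : ℝ) ≤ k := Nat.cast_nonneg k
      nlinarith) b3 (Loc_gUp lam l k) (fun ω => by
      rw [abs_of_nonneg (gUp_nonneg lam l k ω)]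
      exact gUp_le lam l hl k ω)
  have h3 := (abs_le.mp h2).2
  have h4 := hup n ((le_max_right _ _).trans hn)
  rw [div_le_iff₀ (by positivity)]
  have h5 : lam * Ann p lam l n (gUp lam l k) ≤ lam * (tha d p * m + tha d p * (ε / 4)) := by
    apply mul_le_mul_of_nonneg_left _ h0.le
    linarith
  have h6 : lam * (tha d p * m) ≤ lam * (tha d p * (ip p (GPsi l k) (GPsi l k) / kap d p + ε / 2)) := by
    apply mul_le_mul_of_nonneg_left _ h0.le
    exact mul_le_mul_of_nonneg_left b1.le ht.le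
  nlinarith

end Ein99
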